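import Pool.Agent.R707.Inst

set_option autoImplicit false

noncomputable section

namespace Pool.Agent.R707

open CategoryTheory Limits Pretriangulated Triangulated

lemma z64_ann : ∀ r : ZMod 64, 2 * r = 0 → ∃ s, r = 2 ^ 5 * s := by decide +kernel

lemma hyp64 : Hyp (ZMod 64) (unitObj (ZMod 64)) (2 : ZMod 64) where
  surj := unit_surj _
  inj := unit_inj _
  hom0 := unit_hom0 _
  x6 := by decide
  x5 := by decide
  ann := z64_ann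

/-- The triangles, the map `ψ` and the relations of the example exist. -/
lemma exists_data : ∃ (Z : KMod (ZMod 64)) (v : unitObj (ZMod 64) ⟶ Z)
    (w : Z ⟶ (unitObj (ZMod 64))⟦(1 : ℤ)⟧) (Z' : KMod (ZMod 64)) (v' : unitObj (ZMod 64) ⟶ Z')
    (w' : Z' ⟶ (unitObj (ZMod 64))⟦(1 : ℤ)⟧)
    (ψ : (unitObj (ZMod 64))⟦(1 : ℤ)⟧ ⟶ Z'),
    Triangle.mk ((2 : ZMod 64) ^ 2 • 𝟙 (unitObj (ZMod 64))) v w ∈ distTriang _ ∧
    Triangle.mk ((2 : ZMod 64) • 𝟙 (unitObj (ZMod 64))) v' w' ∈ distTriang _ ∧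
    ψ ≫ w' = (2 : ZMod 64) ^ 5 • 𝟙 _ := by
  obtain ⟨Z, v, w, h⟩ := distinguished_cocone_triangle
    ((2 : ZMod 64) ^ 2 • 𝟙 (unitObj (ZMod 64)))
  obtain ⟨Z', v', w', h'⟩ := distinguished_cocone_triangle
    ((2 : ZMod 64) • 𝟙 (unitObj (ZMod 64)))
  obtain ⟨ψ, hψ⟩ := lift_w h' ((2 : ZMod 64) ^ 5 • 𝟙 _) (by
    rw [smul_smul, show (2 : ZMod 64) * 2 ^ 5 = 0 by decide, zero_smul])
  exact ⟨Z, v, w, Z', v', w', ψ, h, h', hψ.symm⟩

end Pool.Agent.R707
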