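import Mathlib

/-!
# Good and Verdier good maps of exact triangles

We work in a (pre)triangulated category `C` in the sense of Mathlib.  Exact triangles are the
elements of `distTriang C`.  For a map `φ : T ⟶ T'` of exact triangles we write
`T = (X -u-> Y -v-> Z -w-> X⟦1⟧)`, `T' = (X' -u'-> Y' -v'-> Z' -w'-> X'⟦1⟧)` and `φ = (f, g, h)`,
so that `u = T.mor₁`, `v = T.mor₂`, `w = T.mor₃`, `f = φ.hom₁`, `g = φ.hom₂`, `h = φ.hom₃`.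
-/

set_option autoImplicit false

noncomputable section

namespace Pool.Agent.R707

open CategoryTheory Limits Pretriangulated Triangulated

universe v u

variable {C : Type u} [Category.{v} C] [Preadditive C] [HasZeroObject C] [HasShift C ℤ]
  [∀ n : ℤ, (shiftFunctor C n).Additive] [Pretriangulated C]

/-- A choice of the three auxiliary exact triangles in the definition of a Verdier good map
`φ = (f, g, h)`: exact triangles on `g ∘ u`, on `g` and on `f`. -/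
structure Aux {T T' : Triangle C} (φ : T ⟶ T') where
  /-- the object `A` -/
  A : C
  /-- the map `ṽ : Y' ⟶ A` -/
  vt : T'.obj₂ ⟶ A
  /-- the map `w̃ : A ⟶ X⟦1⟧` -/
  wt : A ⟶ T.obj₁⟦(1 : ℤ)⟧
  /-- `X -gu-> Y' -ṽ-> A -w̃-> X⟦1⟧` is exact -/
  exact_gu : Triangle.mk (T.mor₁ ≫ φ.hom₂) vt wt ∈ distTriang C
  /-- the object `Y''` -/
  Y2 : C
  /-- the map `g' : Y' ⟶ Y''` -/
  g1 : T'.obj₂ ⟶ Y2
  /-- the map `g'' : Y'' ⟶ Y⟦1⟧` -/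
  g2 : Y2 ⟶ T.obj₂⟦(1 : ℤ)⟧
  /-- `Y -g-> Y' -g'-> Y'' -g''-> Y⟦1⟧` is exact -/
  exact_g : Triangle.mk φ.hom₂ g1 g2 ∈ distTriang C
  /-- the object `X''` -/
  X2 : C
  /-- the map `f' : X' ⟶ X''` -/
  f1 : T'.obj₁ ⟶ X2
  /-- the map `f'' : X'' ⟶ X⟦1⟧` -/
  f2 : X2 ⟶ T.obj₁⟦(1 : ℤ)⟧
  /-- `X -f-> X' -f'-> X'' -f''-> X⟦1⟧` is exact -/
  exact_f : Triangle.mk φ.hom₁ f1 f2 ∈ distTriang C

/-- Auxiliary exact triangles exist. -/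
instance Aux.instNonempty {T T' : Triangle C} (φ : T ⟶ T') : Nonempty (Aux φ) := by
  obtain ⟨A, a, b, h₁⟩ := distinguished_cocone_triangle (T.mor₁ ≫ φ.hom₂)
  obtain ⟨Y2, c, d, h₂⟩ := distinguished_cocone_triangle φ.hom₂
  obtain ⟨X2, e, k, h₃⟩ := distinguished_cocone_triangle φ.hom₁
  exact ⟨⟨A, a, b, h₁, Y2, c, d, h₂, X2, e, k, h₃⟩⟩

/-- The map `φ = (f, g, h) : T ⟶ T'` of exact triangles is Verdier good with respect to the choice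
`D` of the auxiliary exact triangles on `gu`, `g` and `f`: there are an octahedron
`Z -α₁-> A -β₁-> Y'' -> Z⟦1⟧` for the composite `g ∘ u` and an octahedron
`X'' -α₂-> A -β₂-> Z' -> X''⟦1⟧` for the composite `u' ∘ f = g ∘ u` such that `h = β₂ ∘ α₁`.
(In an octahedron `o` of Mathlib, `α = o.m₁`, `β = o.m₃`; the third map of its exact triangle and
the four commutativity relations are the ones of the octahedral axiom.) -/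
def VerdierGoodWith {T T' : Triangle C} (hT : T ∈ distTriang C) (hT' : T' ∈ distTriang C)
    (φ : T ⟶ T') (D : Aux φ) : Prop :=
  ∃ (o₁ : Octahedron (u₁₂ := T.mor₁) (v₁₂ := T.mor₂) (w₁₂ := T.mor₃) (u₂₃ := φ.hom₂)
      (u₁₃ := T.mor₁ ≫ φ.hom₂) rfl hT D.exact_g D.exact_gu)
    (o₂ : Octahedron (u₁₂ := φ.hom₁) (u₂₃ := T'.mor₁) (v₂₃ := T'.mor₂) (w₂₃ := T'.mor₃)
      (u₁₃ := T.mor₁ ≫ φ.hom₂) φ.comm₁.symm D.exact_f hT' D.exact_gu),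
    φ.hom₃ = o₁.m₁ ≫ o₂.m₃

/-- The mapping cone of a map `φ = (f, g, h) : T ⟶ T'` of triangles: the triangle
`Y ⊕ X' ⟶ Z ⊕ Y' ⟶ X⟦1⟧ ⊕ Z' ⟶ (Y ⊕ X')⟦1⟧` with the maps
`(y, x') ↦ (- v y, g y + u' x')`, `(z, y') ↦ (- w z, h z + v' y')` and
`(x, z') ↦ (- (u⟦1⟧) x, (f⟦1⟧) x + w' z')`. -/
def mappingCone {T T' : Triangle C} (φ : T ⟶ T') : Triangle C :=
  Triangle.mk (X := T.obj₂ ⊞ T'.obj₁) (Y := T.obj₃ ⊞ T'.obj₂) (Z := T.obj₁⟦(1 : ℤ)⟧ ⊞ T'.obj₃)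
    (Biprod.ofComponents (-T.mor₂) φ.hom₂ 0 T'.mor₁)
    (Biprod.ofComponents (-T.mor₃) φ.hom₃ 0 T'.mor₂)
    (biprod.desc (-(T.mor₁⟦(1 : ℤ)⟧') ≫ (biprod.inl : T.obj₂ ⟶ T.obj₂ ⊞ T'.obj₁)⟦(1 : ℤ)⟧' +
        φ.hom₁⟦(1 : ℤ)⟧' ≫ (biprod.inr : T'.obj₁ ⟶ T.obj₂ ⊞ T'.obj₁)⟦(1 : ℤ)⟧')
      (T'.mor₃ ≫ (biprod.inr : T'.obj₁ ⟶ T.obj₂ ⊞ T'.obj₁)⟦(1 : ℤ)⟧'))

/-- A map of exact triangles is good (Neeman) if its mapping cone is exact. -/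
def Good {T T' : Triangle C} (φ : T ⟶ T') : Prop := mappingCone φ ∈ distTriang C

/-- Two maps `φ = (f, g, h)` and `ψ = (f₁, g₁, h₁)` of triangles are chain homotopic if there are
`k₁ : Y ⟶ X'`, `k₂ : Z ⟶ Y'`, `k₃ : X⟦1⟧ ⟶ Z'` with `(f - f₁)⟦1⟧ = (k₁ u)⟦1⟧ + w' k₃`,
`g - g₁ = u' k₁ + k₂ v` and `h - h₁ = v' k₂ + k₃ w`. -/
def ChainHomotopic {T T' : Triangle C} (φ ψ : T ⟶ T') : Prop :=
  ∃ (k₁ : T.obj₂ ⟶ T'.obj₁) (k₂ : T.obj₃ ⟶ T'.obj₂) (k₃ : T.obj₁⟦(1 : ℤ)⟧ ⟶ T'.obj₃),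
    (φ.hom₁ - ψ.hom₁)⟦(1 : ℤ)⟧' = (T.mor₁ ≫ k₁)⟦(1 : ℤ)⟧' + k₃ ≫ T'.mor₃ ∧
    φ.hom₂ - ψ.hom₂ = k₁ ≫ T'.mor₁ + T.mor₂ ≫ k₂ ∧
    φ.hom₃ - ψ.hom₃ = k₂ ≫ T'.mor₂ + T.mor₃ ≫ k₃

end Pool.Agent.R707
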