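import Pool.Agent.R707.Def

set_option autoImplicit false

noncomputable section

namespace Pool.Agent.R707

open CategoryTheory Limits Pretriangulated Triangulated

universe v u

/-- In the triangulated category `C` some map of exact triangles is good but not Verdier good
(for any choice of the auxiliary exact triangles on `gu`, `g` and `f`). -/
def HasGoodNotVerdierGood (C : Type u) [Category.{v} C] [Preadditive C] [HasZeroObject C]
    [HasShift C ℤ] [∀ n : ℤ, (shiftFunctor C n).Additive] [Pretriangulated C] : Prop :=
  ∃ (T T' : Triangle C) (hT : T ∈ distTriang C) (hT' : T' ∈ distTriang C) (φ : T ⟶ T'),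
    Good φ ∧ ∀ D : Aux φ, ¬ VerdierGoodWith hT hT' φ D

/-- In the triangulated category `C` some map of exact triangles is Verdier good
(for every choice of the auxiliary exact triangles on `gu`, `g` and `f`) but not good. -/
def HasVerdierGoodNotGood (C : Type u) [Category.{v} C] [Preadditive C] [HasZeroObject C]
    [HasShift C ℤ] [∀ n : ℤ, (shiftFunctor C n).Additive] [Pretriangulated C] : Prop :=
  ∃ (T T' : Triangle C) (hT : T ∈ distTriang C) (hT' : T' ∈ distTriang C) (φ : T ⟶ T'),
    (∀ D : Aux φ, VerdierGoodWith hT hT' φ D) ∧ ¬ Good φ

end Pool.Agent.R707
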