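import Pool.Agent.R707.Def

set_option autoImplicit false
set_option linter.unusedSectionVars false

noncomputable section

namespace Pool.Agent.R707

open CategoryTheory Limits Pretriangulated Triangulated

universe v u

section
variable {C : Type u} [Category.{v} C] [Preadditive C] [HasZeroObject C] [HasShift C ℤ]
  [∀ n : ℤ, (shiftFunctor C n).Additive] [Pretriangulated C]
  {R : Type} [CommRing R] [Linear R C] [(shiftFunctor C (1 : ℤ)).Linear R]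

/-- hypotheses of the example: an object with endomorphism ring `R`, and an element `x` with
`x ^ 6 = 0`, `x ^ 5 ≠ 0` whose annihilator is generated by `x ^ 5` -/
structure Hyp (R : Type) [CommRing R] [Linear R C] (P : C) (x : R) : Prop where
  surj : ∀ a : P ⟶ P, ∃ r : R, a = r • 𝟙 P
  inj : ∀ r : R, r • 𝟙 P = 0 → r = 0
  hom0 : ∀ a : P⟦(1 : ℤ)⟧ ⟶ P, a = 0
  x6 : x ^ 6 = 0
  x5 : x ^ 5 ≠ 0
  ann : ∀ r : R, x * r = 0 → ∃ s, r = x ^ 5 * s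

lemma map_smul_one (P : C) (r : R) : (r • 𝟙 P)⟦(1 : ℤ)⟧' = r • 𝟙 (P⟦(1 : ℤ)⟧) := by
  rw [Functor.map_smul, CategoryTheory.Functor.map_id]

lemma Hyp.surj' {P : C} {x : R} (H : Hyp R P x) (a : P⟦(1 : ℤ)⟧ ⟶ P⟦(1 : ℤ)⟧) :
    ∃ r : R, a = r • 𝟙 (P⟦(1 : ℤ)⟧) := by
  obtain ⟨b, rfl⟩ := (shiftFunctor C (1 : ℤ)).map_surjective a
  obtain ⟨r, rfl⟩ := H.surj b
  exact ⟨r, map_smul_one P r⟩

lemma Hyp.inj' {P : C} {x : R} (H : Hyp R P x) (r : R) (h : r • 𝟙 (P⟦(1 : ℤ)⟧) = 0) : r = 0 := by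
  apply H.inj
  apply (shiftFunctor C (1 : ℤ)).map_injective
  rw [map_smul_one, h, Functor.map_zero]

variable {P Z : C} {r : R} {v : P ⟶ Z} {w : Z ⟶ P⟦(1 : ℤ)⟧}

lemma smul_v (hT : Triangle.mk (r • 𝟙 P) v w ∈ distTriang C) : r • v = 0 := by
  have h : (r • 𝟙 P) ≫ v = 0 := comp_distTriang_mor_zero₁₂ _ hT
  rwa [Linear.smul_comp, Category.id_comp] at h

lemma v_w (hT : Triangle.mk (r • 𝟙 P) v w ∈ distTriang C) : v ≫ w = 0 :=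
  comp_distTriang_mor_zero₂₃ _ hT

lemma smul_w (hT : Triangle.mk (r • 𝟙 P) v w ∈ distTriang C) : r • w = 0 := by
  have h : w ≫ (r • 𝟙 P)⟦(1 : ℤ)⟧' = 0 := comp_distTriang_mor_zero₃₁ _ hT
  rwa [map_smul_one, Linear.comp_smul, Category.comp_id] at h

/-- a map `Z ⟶ W` killed by `v` factors through `w` -/
lemma fac_w (hT : Triangle.mk (r • 𝟙 P) v w ∈ distTriang C) {W : C} (a : Z ⟶ W)
    (h : v ≫ a = 0) : ∃ b : P⟦(1 : ℤ)⟧ ⟶ W, a = w ≫ b :=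
  Triangle.yoneda_exact₃ _ hT a h

/-- a map `P⟦1⟧ ⟶ W` killed by `w` is divisible by `r` -/
lemma fac_r (hT : Triangle.mk (r • 𝟙 P) v w ∈ distTriang C) {W : C} (a : P⟦(1 : ℤ)⟧ ⟶ W)
    (h : w ≫ a = 0) : ∃ b : P⟦(1 : ℤ)⟧ ⟶ W, a = r • b := by
  obtain ⟨b, hb⟩ : ∃ b : P⟦(1 : ℤ)⟧ ⟶ W, a = (-(r • 𝟙 P)⟦(1 : ℤ)⟧') ≫ b :=
    Triangle.yoneda_exact₃ _ (rot_of_distTriang _ hT) a h
  refine ⟨-b, ?_⟩
  rw [hb, map_smul_one, Preadditive.neg_comp, Linear.smul_comp, Category.id_comp, smul_neg]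

/-- a map `W ⟶ Z` killed by `w` factors through `v` -/
lemma fac_v (hT : Triangle.mk (r • 𝟙 P) v w ∈ distTriang C) {W : C} (a : W ⟶ Z)
    (h : a ≫ w = 0) : ∃ b : W ⟶ P, a = b ≫ v :=
  Triangle.coyoneda_exact₃ _ hT a h

/-- a map `W ⟶ P⟦1⟧` killed by `r` lifts to `Z` -/
lemma lift_w (hT : Triangle.mk (r • 𝟙 P) v w ∈ distTriang C) {W : C} (a : W ⟶ P⟦(1 : ℤ)⟧)
    (h : r • a = 0) : ∃ b : W ⟶ Z, a = b ≫ w := by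
  refine Triangle.coyoneda_exact₁ _ hT a ?_
  change a ≫ (r • 𝟙 P)⟦(1 : ℤ)⟧' = 0
  rw [map_smul_one, Linear.comp_smul, Category.comp_id, h]

/-- the map `(x ^ 3, x ^ 2, w ψ)` of triangles -/
@[simps]
def exMap {x : R} {Z' : C} {v' : P ⟶ Z'} {w' : Z' ⟶ P⟦(1 : ℤ)⟧}
    (hT : Triangle.mk (x ^ 2 • 𝟙 P) v w ∈ distTriang C)
    (hT' : Triangle.mk (x • 𝟙 P) v' w' ∈ distTriang C)
    (ψ : P⟦(1 : ℤ)⟧ ⟶ Z') (hψ : ψ ≫ w' = x ^ 5 • 𝟙 _) :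
    Triangle.mk (x ^ 2 • 𝟙 P) v w ⟶ Triangle.mk (x • 𝟙 P) v' w' where
  hom₁ := x ^ 3 • 𝟙 P
  hom₂ := x ^ 2 • 𝟙 P
  hom₃ := w ≫ ψ
  comm₁ := by
    change (x ^ 2 • 𝟙 P) ≫ (x ^ 2 • 𝟙 P) = (x ^ 3 • 𝟙 P) ≫ (x • 𝟙 P)
    simp only [Linear.smul_comp, Linear.comp_smul, Category.id_comp, smul_smul]
    ring_nf
  comm₂ := by
    change v ≫ w ≫ ψ = (x ^ 2 • 𝟙 P) ≫ v'
    rw [← Category.assoc, v_w hT, zero_comp, Linear.smul_comp, Category.id_comp, pow_two,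
      mul_smul, smul_v hT', smul_zero]
  comm₃ := by
    change w ≫ (x ^ 3 • 𝟙 P)⟦(1 : ℤ)⟧' = (w ≫ ψ) ≫ w'
    rw [map_smul_one, Category.assoc, hψ]
    simp only [Linear.comp_smul, Category.comp_id]
    rw [show x ^ 3 = x * x ^ 2 by ring, show x ^ 5 = x ^ 3 * x ^ 2 by ring, mul_smul, mul_smul,
      smul_w hT, smul_zero, smul_zero]

/-- the map `(0, 0, w ψ)` of triangles -/
@[simps]
def exMap0 {x : R} {Z' : C} {v' : P ⟶ Z'} {w' : Z' ⟶ P⟦(1 : ℤ)⟧}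
    (hT : Triangle.mk (x ^ 2 • 𝟙 P) v w ∈ distTriang C)
    (ψ : P⟦(1 : ℤ)⟧ ⟶ Z') (hψ : ψ ≫ w' = x ^ 5 • 𝟙 _) :
    Triangle.mk (x ^ 2 • 𝟙 P) v w ⟶ Triangle.mk (x • 𝟙 P) v' w' where
  hom₁ := 0
  hom₂ := 0
  hom₃ := w ≫ ψ
  comm₁ := by
    change (x ^ 2 • 𝟙 P) ≫ (0 : P ⟶ P) = (0 : P ⟶ P) ≫ (x • 𝟙 P)
    rw [comp_zero, zero_comp]
  comm₂ := by
    change v ≫ w ≫ ψ = (0 : P ⟶ P) ≫ v'
    rw [← Category.assoc, v_w hT, zero_comp, zero_comp]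
  comm₃ := by
    change w ≫ (0 : P ⟶ P)⟦(1 : ℤ)⟧' = (w ≫ ψ) ≫ w'
    rw [Functor.map_zero, comp_zero, Category.assoc, hψ, Linear.comp_smul, Category.comp_id,
      show x ^ 5 = x ^ 3 * x ^ 2 by ring, mul_smul, smul_w hT, smul_zero]

end

section Twist
variable {C : Type u} [Category.{v} C] [Preadditive C] [HasZeroObject C] [HasShift C ℤ]
  [∀ n : ℤ, (shiftFunctor C n).Additive] [Pretriangulated C]

/-- modification of an octahedron by an automorphism -/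
def twist {X₁ X₂ X₃ Z₁₂ Z₂₃ Z₁₃ : C}
    {u₁₂ : X₁ ⟶ X₂} {u₂₃ : X₂ ⟶ X₃} {u₁₃ : X₁ ⟶ X₃} {comm : u₁₂ ≫ u₂₃ = u₁₃}
    {v₁₂ : X₂ ⟶ Z₁₂} {w₁₂ : Z₁₂ ⟶ X₁⟦(1 : ℤ)⟧} {h₁₂ : Triangle.mk u₁₂ v₁₂ w₁₂ ∈ distTriang C}
    {v₂₃ : X₃ ⟶ Z₂₃} {w₂₃ : Z₂₃ ⟶ X₂⟦(1 : ℤ)⟧} {h₂₃ : Triangle.mk u₂₃ v₂₃ w₂₃ ∈ distTriang C}
    {v₁₃ : X₃ ⟶ Z₁₃} {w₁₃ : Z₁₃ ⟶ X₁⟦(1 : ℤ)⟧} {h₁₃ : Triangle.mk u₁₃ v₁₃ w₁₃ ∈ distTriang C}
    (o : Octahedron comm h₁₂ h₂₃ h₁₃) (ε : Z₁₃ ≅ Z₁₃) (h1 : v₁₃ ≫ ε.hom = v₁₃)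
    (h2 : o.m₁ ≫ ε.hom ≫ w₁₃ = w₁₂)
    (h4 : ε.inv ≫ w₁₃ ≫ u₁₂⟦(1 : ℤ)⟧' = w₁₃ ≫ u₁₂⟦(1 : ℤ)⟧') :
    Octahedron comm h₁₂ h₂₃ h₁₃ where
  m₁ := o.m₁ ≫ ε.hom
  m₃ := ε.inv ≫ o.m₃
  comm₁ := by rw [← Category.assoc, o.comm₁, Category.assoc, h1]
  comm₂ := by rw [Category.assoc, h2]
  comm₃ := by
    have : v₁₃ ≫ ε.inv = v₁₃ := by
      rw [Iso.comp_inv_eq, h1]
    rw [← Category.assoc, this, o.comm₃]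
  comm₄ := by rw [Category.assoc, ← o.comm₄, h4]
  mem := by
    refine isomorphic_distinguished _ o.mem _ ?_
    refine Triangle.isoMk _ _ (Iso.refl _) ε.symm (Iso.refl _) ?_ ?_ ?_
    · change (o.m₁ ≫ ε.hom) ≫ ε.inv = 𝟙 _ ≫ o.m₁
      simp
    · change (ε.inv ≫ o.m₃) ≫ 𝟙 _ = ε.inv ≫ o.m₃
      simp
    · change (w₂₃ ≫ v₁₂⟦(1 : ℤ)⟧') ≫ (𝟙 _)⟦(1 : ℤ)⟧' = 𝟙 _ ≫ (w₂₃ ≫ v₁₂⟦(1 : ℤ)⟧')
      simp

end Twist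

section Main
variable {C : Type u} [Category.{v} C] [Preadditive C] [HasZeroObject C] [HasShift C ℤ]
  [∀ n : ℤ, (shiftFunctor C n).Additive] [Pretriangulated C] [IsTriangulated C]
  {R : Type} [CommRing R] [Linear R C] [(shiftFunctor C (1 : ℤ)).Linear R]

lemma exMap_verdierGood {P : C} {x : R} (H : Hyp R P x) {Z : C} {v : P ⟶ Z}
    {w : Z ⟶ P⟦(1 : ℤ)⟧} {Z' : C} {v' : P ⟶ Z'} {w' : Z' ⟶ P⟦(1 : ℤ)⟧}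
    (hT : Triangle.mk (x ^ 2 • 𝟙 P) v w ∈ distTriang C)
    (hT' : Triangle.mk (x • 𝟙 P) v' w' ∈ distTriang C)
    (ψ : P⟦(1 : ℤ)⟧ ⟶ Z') (hψ : ψ ≫ w' = x ^ 5 • 𝟙 _) (D : Aux (exMap hT hT' ψ hψ)) :
    VerdierGoodWith hT hT' (exMap hT hT' ψ hψ) D := by
  obtain ⟨A, vt, wt, hA, Y2, g1, g2, hg, X2, f1, f2, hf⟩ := D
  change P ⟶ A at vt
  change A ⟶ P⟦(1 : ℤ)⟧ at wt
  have hA' : Triangle.mk (x ^ 4 • 𝟙 P) vt wt ∈ distTriang C := by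
    have e : (x ^ 2 • 𝟙 P) ≫ (x ^ 2 • 𝟙 P) = x ^ 4 • 𝟙 P := by
      simp only [Linear.smul_comp, Linear.comp_smul, Category.id_comp, smul_smul]
      ring_nf
    rw [← e]
    exact hA
  let o₁ := someOctahedron (u₁₂ := x ^ 2 • 𝟙 P) (u₂₃ := x ^ 2 • 𝟙 P) rfl hT hg hA
  let o₂ := someOctahedron (u₁₂ := x ^ 3 • 𝟙 P) (u₂₃ := x • 𝟙 P)
    (exMap hT hT' ψ hψ).comm₁.symm hf hT' hA
  have a1 : v ≫ o₁.m₁ = x ^ 2 • vt := o₁.comm₁.trans (by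
    rw [Linear.smul_comp, Category.id_comp])
  have a2 : o₁.m₁ ≫ wt = w := o₁.comm₂
  have b3 : vt ≫ o₂.m₃ = v' := o₂.comm₃
  have b4 : o₂.m₃ ≫ w' = x ^ 3 • wt := o₂.comm₄.symm.trans (by
    rw [map_smul_one, Linear.comp_smul, Category.comp_id])
  -- the composite factors through `w`
  obtain ⟨ψ0, hψ0⟩ := fac_w hT (o₁.m₁ ≫ o₂.m₃) (by
    rw [← Category.assoc, a1, Linear.smul_comp, b3, pow_two, mul_smul, smul_v hT', smul_zero])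
  obtain ⟨κ, hκ⟩ := fac_r hT (ψ0 ≫ w') (by
    rw [← Category.assoc, ← hψ0, Category.assoc, b4, Linear.comp_smul, a2,
      show x ^ 3 = x * x ^ 2 by ring, mul_smul, smul_w hT, smul_zero])
  obtain ⟨k, rfl⟩ := H.surj' κ
  rw [smul_smul] at hκ
  obtain ⟨c, hc⟩ := H.ann (x ^ 2 * k) (by
    apply H.inj'
    rw [mul_smul, ← hκ, ← Linear.comp_smul, smul_w hT', comp_zero])
  obtain ⟨ξ, hξ⟩ := lift_w hA' (((1 - c) * x ^ 2) • 𝟙 (P⟦(1 : ℤ)⟧)) (by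
    rw [smul_smul, show x ^ 4 * ((1 - c) * x ^ 2) = (1 - c) * x ^ 6 by ring, H.x6, mul_zero,
      zero_smul])
  have hx4 : x ^ 4 • wt = 0 := smul_w hA'
  have hvw : vt ≫ wt = 0 := v_w hA'
  have hww : wt ≫ ξ ≫ wt = ((1 - c) * x ^ 2) • wt := by
    rw [← hξ, Linear.comp_smul, Category.comp_id]
  have hwww : wt ≫ ξ ≫ wt ≫ ξ ≫ wt = 0 := by
    rw [hww, Linear.comp_smul, Linear.comp_smul, hww, smul_smul,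
      show (1 - c) * x ^ 2 * ((1 - c) * x ^ 2) = (1 - c) ^ 2 * x ^ 4 by ring, mul_smul, hx4,
      smul_zero]
  -- the automorphism of `A`
  let ε : A ≅ A :=
    { hom := 𝟙 A + wt ≫ ξ
      inv := 𝟙 A - wt ≫ ξ + wt ≫ ξ ≫ wt ≫ ξ
      hom_inv_id := by
        have e1 : wt ≫ ξ ≫ wt ≫ ξ ≫ wt ≫ ξ = 0 := by
          have := congrArg (fun t => t ≫ ξ) hwww
          simpa only [Category.assoc, zero_comp] using this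
        simp only [Preadditive.add_comp, Preadditive.comp_add, Preadditive.comp_sub,
          Category.id_comp, Category.comp_id, Category.assoc, e1]
        abel
      inv_hom_id := by
        have e1 : wt ≫ ξ ≫ wt ≫ ξ ≫ wt ≫ ξ = 0 := by
          have := congrArg (fun t => t ≫ ξ) hwww
          simpa only [Category.assoc, zero_comp] using this
        simp only [Preadditive.add_comp, Preadditive.comp_add, Preadditive.sub_comp,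
          Category.id_comp, Category.comp_id, Category.assoc, e1]
        abel }
  let o₁' := twist o₁ ε (by
      change vt ≫ (𝟙 A + wt ≫ ξ) = vt
      rw [Preadditive.comp_add, Category.comp_id, ← Category.assoc, hvw, zero_comp, add_zero])
    (by
      change o₁.m₁ ≫ (𝟙 A + wt ≫ ξ) ≫ wt = w
      rw [Preadditive.add_comp, Category.id_comp, Category.assoc, hww, Preadditive.comp_add, a2,
        Linear.comp_smul, a2, mul_smul, smul_w hT, smul_zero, add_zero])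
    (by
      change (𝟙 A - wt ≫ ξ + wt ≫ ξ ≫ wt ≫ ξ) ≫ wt ≫ (x ^ 2 • 𝟙 P)⟦(1 : ℤ)⟧' =
        wt ≫ (x ^ 2 • 𝟙 P)⟦(1 : ℤ)⟧'
      rw [map_smul_one, Linear.comp_smul, Category.comp_id, Linear.comp_smul,
        Preadditive.add_comp, Preadditive.sub_comp, Category.id_comp, Category.assoc, hww]
      simp only [Category.assoc]
      rw [hwww, add_zero, smul_sub, smul_smul,
        show x ^ 2 * ((1 - c) * x ^ 2) = (1 - c) * x ^ 4 by ring, mul_smul, hx4, smul_zero,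
        sub_zero])
  refine ⟨o₁', o₂, ?_⟩
  change w ≫ ψ = (o₁.m₁ ≫ (𝟙 A + wt ≫ ξ)) ≫ o₂.m₃
  rw [Preadditive.comp_add, Category.comp_id, Preadditive.add_comp, hψ0, ← Category.assoc, a2,
    Category.assoc, ← Preadditive.comp_add]
  congr 1
  rw [← sub_eq_zero]
  obtain ⟨b, hb⟩ := fac_v hT' (ψ - (ψ0 + ξ ≫ o₂.m₃)) (by
    rw [Preadditive.sub_comp, Preadditive.add_comp, hψ, hκ, Category.assoc, b4, Linear.comp_smul,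
      ← hξ, smul_smul, ← add_smul, ← sub_smul, hc,
      show x ^ 5 - (x ^ 5 * c + x ^ 3 * ((1 - c) * x ^ 2)) = 0 by ring, zero_smul])
  rw [hb, H.hom0 b, zero_comp]

end Main

section Neg
variable {C : Type u} [Category.{v} C] [Preadditive C] [HasZeroObject C] [HasShift C ℤ]
  [∀ n : ℤ, (shiftFunctor C n).Additive] [Pretriangulated C]
  {R : Type} [CommRing R] [Linear R C] [(shiftFunctor C (1 : ℤ)).Linear R]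

/-- `ψ` is not divisible by `x ^ 2` up to maps killed by `w'` -/
lemma contra {P : C} {x : R} (H : Hyp R P x) {Z' : C} {v' : P ⟶ Z'} {w' : Z' ⟶ P⟦(1 : ℤ)⟧}
    (hT' : Triangle.mk (x • 𝟙 P) v' w' ∈ distTriang C)
    (ψ : P⟦(1 : ℤ)⟧ ⟶ Z') (hψ : ψ ≫ w' = x ^ 5 • 𝟙 _) (a r : P⟦(1 : ℤ)⟧ ⟶ Z')
    (ha : a ≫ w' = 0) (har : a - ψ = x ^ 2 • r) : False := by
  have h1 : (a - ψ) ≫ w' = 0 := by
    rw [har, Linear.smul_comp, ← Linear.comp_smul, pow_two, mul_smul, smul_w hT', smul_zero,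
      comp_zero]
  rw [Preadditive.sub_comp, ha, hψ, zero_sub, neg_eq_zero] at h1
  exact H.x5 (H.inj' _ h1)

lemma exMap_not_good {P : C} {x : R} (H : Hyp R P x) {Z : C} {v : P ⟶ Z}
    {w : Z ⟶ P⟦(1 : ℤ)⟧} {Z' : C} {v' : P ⟶ Z'} {w' : Z' ⟶ P⟦(1 : ℤ)⟧}
    (hT : Triangle.mk (x ^ 2 • 𝟙 P) v w ∈ distTriang C)
    (hT' : Triangle.mk (x • 𝟙 P) v' w' ∈ distTriang C)
    (ψ : P⟦(1 : ℤ)⟧ ⟶ Z') (hψ : ψ ≫ w' = x ^ 5 • 𝟙 _) :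
    ¬ Good (exMap hT hT' ψ hψ) := by
  intro hG
  obtain ⟨c, hc1, hc2⟩ : ∃ c : P⟦(1 : ℤ)⟧ ⟶ P⟦(1 : ℤ)⟧ ⊞ Z',
      w ≫ c = biprod.lift (-𝟙 Z) (0 : Z ⟶ P) ≫ (mappingCone (exMap hT hT' ψ hψ)).mor₂ ∧
      (-(x ^ 2 • 𝟙 P)⟦(1 : ℤ)⟧') ≫ (biprod.lift (𝟙 P) (-(x • 𝟙 P)) : P ⟶ P ⊞ P)⟦(1 : ℤ)⟧' =
        c ≫ (mappingCone (exMap hT hT' ψ hψ)).mor₃ := by
    refine complete_distinguished_triangle_morphism _ _ (rot_of_distTriang _ hT) hG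
      (biprod.lift (𝟙 P) (-(x • 𝟙 P))) (biprod.lift (-𝟙 Z) (0 : Z ⟶ P)) ?_
    change v ≫ biprod.lift (-𝟙 Z) (0 : Z ⟶ P) = biprod.lift (𝟙 P) (-(x • 𝟙 P)) ≫
      Biprod.ofComponents (-v) (x ^ 2 • 𝟙 P) 0 (x • 𝟙 P)
    apply biprod.hom_ext
    · simp
    · simp [pow_two, smul_smul]
  change w ≫ c = biprod.lift (-𝟙 Z) (0 : Z ⟶ P) ≫ 
    Biprod.ofComponents (-w) (w ≫ ψ) 0 v' at hc1
  change (-(x ^ 2 • 𝟙 P)⟦(1 : ℤ)⟧') ≫ (biprod.lift (𝟙 P) (-(x • 𝟙 P)) : P ⟶ P ⊞ P)⟦(1 : ℤ)⟧' =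
    c ≫ (biprod.desc (-((x ^ 2 • 𝟙 P)⟦(1 : ℤ)⟧') ≫ (biprod.inl : P ⟶ P ⊞ P)⟦(1 : ℤ)⟧' +
        (x ^ 3 • 𝟙 P)⟦(1 : ℤ)⟧' ≫ (biprod.inr : P ⟶ P ⊞ P)⟦(1 : ℤ)⟧')
      (w' ≫ (biprod.inr : P ⟶ P ⊞ P)⟦(1 : ℤ)⟧')) at hc2
  have hll : (biprod.inl : P ⟶ P ⊞ P)⟦(1 : ℤ)⟧' ≫ (biprod.fst : P ⊞ P ⟶ P)⟦(1 : ℤ)⟧' = 𝟙 _ := by
    rw [← Functor.map_comp, biprod.inl_fst, CategoryTheory.Functor.map_id]
  have hlr : (biprod.inl : P ⟶ P ⊞ P)⟦(1 : ℤ)⟧' ≫ (biprod.snd : P ⊞ P ⟶ P)⟦(1 : ℤ)⟧' = 0 := by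
    rw [← Functor.map_comp, biprod.inl_snd, Functor.map_zero]
  have hrl : (biprod.inr : P ⟶ P ⊞ P)⟦(1 : ℤ)⟧' ≫ (biprod.fst : P ⊞ P ⟶ P)⟦(1 : ℤ)⟧' = 0 := by
    rw [← Functor.map_comp, biprod.inr_fst, Functor.map_zero]
  have hrr : (biprod.inr : P ⟶ P ⊞ P)⟦(1 : ℤ)⟧' ≫ (biprod.snd : P ⊞ P ⟶ P)⟦(1 : ℤ)⟧' = 𝟙 _ := by
    rw [← Functor.map_comp, biprod.inr_snd, CategoryTheory.Functor.map_id]
  -- components of `c`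
  have e2 : w ≫ (c ≫ biprod.snd) = -(w ≫ ψ) := by
    rw [← Category.assoc, hc1]
    simp
  have e3 := congrArg (fun t => t ≫ (biprod.fst : P ⊞ P ⟶ P)⟦(1 : ℤ)⟧') hc2
  have e4 := congrArg (fun t => t ≫ (biprod.snd : P ⊞ P ⟶ P)⟦(1 : ℤ)⟧') hc2
  have d1 : (biprod.lift (𝟙 P) (-(x • 𝟙 P)) : P ⟶ P ⊞ P)⟦(1 : ℤ)⟧' ≫
      (biprod.fst : P ⊞ P ⟶ P)⟦(1 : ℤ)⟧' = 𝟙 _ := by
    rw [← Functor.map_comp, biprod.lift_fst, CategoryTheory.Functor.map_id]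
  have d2 : (biprod.lift (𝟙 P) (-(x • 𝟙 P)) : P ⟶ P ⊞ P)⟦(1 : ℤ)⟧' ≫
      (biprod.snd : P ⊞ P ⟶ P)⟦(1 : ℤ)⟧' = -(x • 𝟙 _) := by
    rw [← Functor.map_comp, biprod.lift_snd, Functor.map_neg, map_smul_one]
  have hc : c = c ≫ biprod.fst ≫ biprod.inl + c ≫ biprod.snd ≫ biprod.inr := by
    rw [← Preadditive.comp_add, biprod.total, Category.comp_id]
  rw [hc] at e3 e4
  simp only [Category.assoc, d1, d2, Preadditive.add_comp, Preadditive.comp_add, biprod.inl_desc,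
    biprod.inr_desc, hll, hlr, hrl, hrr, comp_zero, add_zero, zero_add, map_smul_one,
    Linear.comp_smul, Linear.smul_comp, Category.comp_id, Category.id_comp, Preadditive.neg_comp,
    Preadditive.comp_neg, smul_neg, neg_neg, smul_smul, smul_zero, neg_zero] at e3 e4
  have e5 : (c ≫ biprod.snd) ≫ w' = 0 := by
    have e6 : x ^ 3 • 𝟙 (P⟦(1 : ℤ)⟧) = x ^ 3 • c ≫ biprod.fst := by
      rw [show x ^ 3 = x * x ^ 2 by ring, mul_smul, mul_smul, neg_inj.1 e3]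
    rw [show x ^ 2 * x = x ^ 3 by ring, e6] at e4
    rw [Category.assoc]
    exact left_eq_add.1 e4
  obtain ⟨r, hr⟩ := fac_r hT (-(c ≫ biprod.snd) - ψ) (by
    rw [Preadditive.comp_sub, Preadditive.comp_neg, e2]
    simp)
  exact contra H hT' ψ hψ (-(c ≫ biprod.snd)) r (by rw [Preadditive.neg_comp, e5, neg_zero]) hr

lemma exMap0_not_verdierGood {P : C} {x : R} (H : Hyp R P x) {Z : C} {v : P ⟶ Z}
    {w : Z ⟶ P⟦(1 : ℤ)⟧} {Z' : C} {v' : P ⟶ Z'} {w' : Z' ⟶ P⟦(1 : ℤ)⟧}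
    (hT : Triangle.mk (x ^ 2 • 𝟙 P) v w ∈ distTriang C)
    (hT' : Triangle.mk (x • 𝟙 P) v' w' ∈ distTriang C)
    (ψ : P⟦(1 : ℤ)⟧ ⟶ Z') (hψ : ψ ≫ w' = x ^ 5 • 𝟙 _)
    (D : Aux (exMap0 (v' := v') hT ψ hψ)) :
    ¬ VerdierGoodWith hT hT' (exMap0 hT ψ hψ) D := by
  rintro ⟨o₁, o₂, h⟩
  obtain ⟨A, vt, wt, α, β, h', a1, b4⟩ : ∃ (A : C) (vt : P ⟶ A) (wt : A ⟶ P⟦(1 : ℤ)⟧)
      (α : Z ⟶ A) (β : A ⟶ Z'), w ≫ ψ = α ≫ β ∧ v ≫ α = (0 : P ⟶ P) ≫ vt ∧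
      wt ≫ (0 : P ⟶ P)⟦(1 : ℤ)⟧' = β ≫ w' :=
    ⟨D.A, D.vt, D.wt, o₁.m₁, o₂.m₃, h, o₁.comm₁, o₂.comm₄⟩
  rw [zero_comp] at a1
  rw [Functor.map_zero, comp_zero] at b4
  obtain ⟨a, ha⟩ := fac_w hT α a1
  obtain ⟨b, hb⟩ := fac_v hT' β b4.symm
  have h0 : w ≫ ψ = 0 := by
    rw [h', ha, hb, Category.assoc, ← Category.assoc a, H.hom0 (a ≫ b), zero_comp, comp_zero]
  obtain ⟨r, hr⟩ := fac_r hT (0 - ψ) (by rw [Preadditive.comp_sub, comp_zero, h0, sub_zero])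
  exact contra H hT' ψ hψ 0 r zero_comp hr

lemma exMap_rotate_not_verdierGood {P : C} {x : R} (H : Hyp R P x) {Z : C} {v : P ⟶ Z}
    {w : Z ⟶ P⟦(1 : ℤ)⟧} {Z' : C} {v' : P ⟶ Z'} {w' : Z' ⟶ P⟦(1 : ℤ)⟧}
    (hT : Triangle.mk (x ^ 2 • 𝟙 P) v w ∈ distTriang C)
    (hT' : Triangle.mk (x • 𝟙 P) v' w' ∈ distTriang C)
    (ψ : P⟦(1 : ℤ)⟧ ⟶ Z') (hψ : ψ ≫ w' = x ^ 5 • 𝟙 _)
    (D : Aux ((rotate C).map (exMap hT hT' ψ hψ))) :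
    ¬ VerdierGoodWith (rot_of_distTriang _ hT) (rot_of_distTriang _ hT')
      ((rotate C).map (exMap hT hT' ψ hψ)) D := by
  rintro ⟨o₁, o₂, h⟩
  obtain ⟨A, vt, wt, α, β, hA, h', a1, a2, b3, b4⟩ : ∃ (A : C) (vt : Z' ⟶ A)
      (wt : A ⟶ P⟦(1 : ℤ)⟧) (α : P⟦(1 : ℤ)⟧ ⟶ A) (β : A ⟶ P⟦(1 : ℤ)⟧),
      Triangle.mk (v ≫ w ≫ ψ) vt wt ∈ distTriang C ∧
      (x ^ 3 • 𝟙 P)⟦(1 : ℤ)⟧' = α ≫ β ∧ w ≫ α = (w ≫ ψ) ≫ vt ∧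
      α ≫ wt = -(x ^ 2 • 𝟙 P)⟦(1 : ℤ)⟧' ∧ vt ≫ β = w' ∧
      wt ≫ (x ^ 2 • 𝟙 P)⟦(1 : ℤ)⟧' = β ≫ (-(x • 𝟙 P)⟦(1 : ℤ)⟧') :=
    ⟨D.A, D.vt, D.wt, o₁.m₁, o₂.m₃, D.exact_gu, h, o₁.comm₁, o₁.comm₂, o₂.comm₃, o₂.comm₄⟩
  rw [map_smul_one] at a2 h'
  rw [map_smul_one, map_smul_one, Preadditive.comp_neg, Linear.comp_smul, Linear.comp_smul,
    Category.comp_id, Category.comp_id] at b4
  rw [← Category.assoc, v_w hT, zero_comp] at hA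
  -- splittings
  obtain ⟨s, hs⟩ : ∃ s : P⟦(1 : ℤ)⟧ ⟶ A, 𝟙 _ = s ≫ wt :=
    Triangle.coyoneda_exact₁ _ hA (𝟙 _) (by
      change 𝟙 _ ≫ (0 : P ⟶ Z')⟦(1 : ℤ)⟧' = 0
      rw [Functor.map_zero, comp_zero])
  obtain ⟨p, hp⟩ : ∃ p : A ⟶ Z', 𝟙 _ = vt ≫ p :=
    Triangle.yoneda_exact₂ _ hA (𝟙 Z') zero_comp
  obtain ⟨a, ha⟩ : ∃ a : P⟦(1 : ℤ)⟧ ⟶ Z', α + x ^ 2 • s = a ≫ vt :=
    Triangle.coyoneda_exact₃ _ hA (α + x ^ 2 • s) (by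
      change (α + x ^ 2 • s) ≫ wt = 0
      rw [Preadditive.add_comp, a2, Linear.smul_comp, ← hs, neg_add_cancel])
  have ha' : α = a ≫ vt - x ^ 2 • s := by rw [← ha, add_sub_cancel_right]
  have e1 : x ^ 2 • (s ≫ β) = -(x ^ 3 • 𝟙 (P⟦(1 : ℤ)⟧)) := by
    have : x • (s ≫ β) = -(x ^ 2 • 𝟙 (P⟦(1 : ℤ)⟧)) := by
      have := congrArg (fun t => s ≫ t) b4
      simp only [Linear.comp_smul, Preadditive.comp_neg, ← hs] at this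
      rw [this, neg_neg]
    rw [pow_two, mul_smul, this, smul_neg, smul_smul]
    congr 2
    ring
  have e2 : a ≫ w' = 0 := by
    have : x ^ 3 • 𝟙 (P⟦(1 : ℤ)⟧) = a ≫ w' + x ^ 3 • 𝟙 (P⟦(1 : ℤ)⟧) := by
      conv_lhs => rw [h', ha', Preadditive.sub_comp, Category.assoc, b3, Linear.smul_comp, e1,
        sub_neg_eq_add]
    exact right_eq_add.1 this
  have e3 : w ≫ a = w ≫ ψ := by
    have h1 : (w ≫ a) ≫ vt = (w ≫ ψ) ≫ vt := by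
      rw [← a1, ha', Preadditive.comp_sub, Linear.comp_smul, ← Linear.smul_comp, smul_w hT,
        zero_comp, sub_zero, Category.assoc]
    have h2 := congrArg (fun t => t ≫ p) h1
    simpa only [Category.assoc, ← hp, Category.comp_id] using h2
  obtain ⟨r, hr⟩ := fac_r hT (a - ψ) (by rw [Preadditive.comp_sub, e3, sub_self])
  exact contra H hT' ψ hψ a r e2 hr

lemma exMap_homotopic {P : C} {x : R} {Z : C} {v : P ⟶ Z}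
    {w : Z ⟶ P⟦(1 : ℤ)⟧} {Z' : C} {v' : P ⟶ Z'} {w' : Z' ⟶ P⟦(1 : ℤ)⟧}
    (hT : Triangle.mk (x ^ 2 • 𝟙 P) v w ∈ distTriang C)
    (hT' : Triangle.mk (x • 𝟙 P) v' w' ∈ distTriang C)
    (ψ : P⟦(1 : ℤ)⟧ ⟶ Z') (hψ : ψ ≫ w' = x ^ 5 • 𝟙 _) :
    ChainHomotopic (exMap hT hT' ψ hψ) (exMap0 hT ψ hψ) := by
  refine ⟨(x • 𝟙 P : P ⟶ P), (0 : Z ⟶ P), (0 : P⟦(1 : ℤ)⟧ ⟶ Z'), ?_, ?_, ?_⟩
  · change (x ^ 3 • 𝟙 P - (0 : P ⟶ P))⟦(1 : ℤ)⟧' =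
      ((x ^ 2 • 𝟙 P) ≫ (x • 𝟙 P))⟦(1 : ℤ)⟧' + (0 : P⟦(1 : ℤ)⟧ ⟶ Z') ≫ w'
    rw [zero_comp, add_zero, sub_zero, Linear.comp_smul, Category.comp_id, smul_smul,
      show x * x ^ 2 = x ^ 3 by ring]
  · change x ^ 2 • 𝟙 P - (0 : P ⟶ P) = (x • 𝟙 P) ≫ (x • 𝟙 P) + v ≫ (0 : Z ⟶ P)
    rw [comp_zero, add_zero, sub_zero, Linear.comp_smul, Category.comp_id, smul_smul,
      show x * x = x ^ 2 by ring]
  · change w ≫ ψ - w ≫ ψ = (0 : Z ⟶ P) ≫ v' + w ≫ (0 : P⟦(1 : ℤ)⟧ ⟶ Z')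
    rw [sub_self, zero_comp, comp_zero, add_zero]

end Neg

end Pool.Agent.R707
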