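import Pool.Agent.R707.Ex1

set_option autoImplicit false
set_option linter.unusedSectionVars false

noncomputable section

namespace Pool.Agent.R707

open CategoryTheory Limits Pretriangulated Triangulated

/-- The homotopy category of complexes of modules over a commutative ring `R`, a triangulated
category. -/
abbrev KMod (R : Type) [CommRing R] := HomotopyCategory (ModuleCat.{0} R) (ComplexShape.up ℤ)

/-- The module `R`, as a complex concentrated in degree `0`. -/
def unitObj (R : Type) [CommRing R] : KMod R :=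
  (HomotopyCategory.singleFunctor (ModuleCat.{0} R) 0).obj (ModuleCat.of R R)

variable (R : Type) [CommRing R]

instance : (HomotopyCategory.singleFunctor (ModuleCat.{0} R) 0).Full :=
  inferInstanceAs (CochainComplex.singleFunctor (ModuleCat.{0} R) 0 ⋙
    HomotopyCategory.quotient _ _).Full

lemma single_map_eq_zero {A B : ModuleCat.{0} R} (f : A ⟶ B)
    (h : (HomotopyCategory.singleFunctor (ModuleCat.{0} R) 0).map f = 0) : f = 0 := by
  have h' : (HomotopyCategory.quotient (ModuleCat.{0} R) (ComplexShape.up ℤ)).map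
      ((CochainComplex.singleFunctor (ModuleCat.{0} R) 0).map f) = 0 := h
  rw [HomotopyCategory.quotient_map_eq_zero_iff] at h'
  obtain ⟨H⟩ := h'
  apply (CochainComplex.singleFunctor (ModuleCat.{0} R) 0).map_injective
  rw [Functor.map_zero]
  apply HomologicalComplex.from_single_hom_ext
  have := H.comm 0
  rw [this]
  simp [dNext, prevD]

lemma unit_surj (a : unitObj R ⟶ unitObj R) : ∃ r : R, a = r • 𝟙 (unitObj R) := by
  obtain ⟨f, rfl⟩ := (HomotopyCategory.singleFunctor (ModuleCat.{0} R) 0).map_surjective a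
  refine ⟨f.hom 1, ?_⟩
  have : f = f.hom 1 • 𝟙 (ModuleCat.of R R) := by
    ext
    simp
  conv_lhs => rw [this, Functor.map_smul, CategoryTheory.Functor.map_id]
  rfl

lemma unit_inj (r : R) (h : r • 𝟙 (unitObj R) = 0) : r = 0 := by
  have h' : (HomotopyCategory.singleFunctor (ModuleCat.{0} R) 0).map
      (r • 𝟙 (ModuleCat.of R R)) = 0 := by
    rw [Functor.map_smul, CategoryTheory.Functor.map_id]
    exact h
  have := single_map_eq_zero R _ h'
  have h2 := congrArg (fun t : ModuleCat.of R R ⟶ ModuleCat.of R R => t.hom (1 : R)) this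
  simpa using h2

lemma unit_hom0 (a : (unitObj R)⟦(1 : ℤ)⟧ ⟶ unitObj R) : a = 0 := by
  let K := (CochainComplex.singleFunctor (ModuleCat.{0} R) 0).obj (ModuleCat.of R R)
  let e : (HomotopyCategory.quotient (ModuleCat.{0} R) (ComplexShape.up ℤ)).obj (K⟦(1 : ℤ)⟧) ≅
      (unitObj R)⟦(1 : ℤ)⟧ :=
    ((HomotopyCategory.quotient (ModuleCat.{0} R) (ComplexShape.up ℤ)).commShiftIso (1 : ℤ)).app K
  rw [← cancel_epi e.hom, comp_zero]
  obtain ⟨f, hf⟩ : ∃ f : (K⟦(1 : ℤ)⟧ : CochainComplex (ModuleCat.{0} R) ℤ) ⟶ K,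
      (HomotopyCategory.quotient (ModuleCat.{0} R) (ComplexShape.up ℤ)).map f = e.hom ≫ a :=
    (HomotopyCategory.quotient (ModuleCat.{0} R) (ComplexShape.up ℤ)).map_surjective _
  rw [← hf]
  have : f = 0 := by
    apply HomologicalComplex.to_single_hom_ext
    apply IsZero.eq_of_src
    exact HomologicalComplex.isZero_single_obj_X (ComplexShape.up ℤ) (0 : ℤ)
      (ModuleCat.of R R) (0 + 1) (by decide)
  rw [this, Functor.map_zero]
  rfl

end Pool.Agent.R707
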