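import Pool.Agent.R707.Neeman
import Pool.Agent.R707.Inst

set_option autoImplicit false
set_option linter.unusedSectionVars false

noncomputable section

namespace Pool.Agent.R707

open CategoryTheory Limits Pretriangulated Triangulated

universe v u

variable {C : Type u} [Category.{v} C] [Preadditive C] [HasZeroObject C] [HasShift C ℤ]
  [∀ n : ℤ, (shiftFunctor C n).Additive] [Pretriangulated C]
  {R : Type} [CommRing R] [Linear R C] [(shiftFunctor C (1 : ℤ)).Linear R]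

/-- hypotheses of the second example -/
structure Hyp2 (R : Type) [CommRing R] [Linear R C] (P : C) (c f : R) : Prop where
  surj : ∀ a : P ⟶ P, ∃ r : R, a = r • 𝟙 P
  inj : ∀ r : R, r • 𝟙 P = 0 → r = 0
  rel : c ^ 3 * (f - c) = 0
  key : ∀ r r' k : R, c ^ 3 * f ^ 2 * r = 0 → c ^ 4 * f * r' = 0 → c ^ 2 * k = 0 →
    c * f ^ 2 * r + c ^ 2 * f * r' - c * f * (f - c) ≠ c * f * k

lemma Hyp2.surj' {P : C} {c f : R} (H : Hyp2 R P c f) (a : P⟦(1 : ℤ)⟧ ⟶ P⟦(1 : ℤ)⟧) :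
    ∃ r : R, a = r • 𝟙 (P⟦(1 : ℤ)⟧) := by
  obtain ⟨b, rfl⟩ := (shiftFunctor C (1 : ℤ)).map_surjective a
  obtain ⟨r, rfl⟩ := H.surj b
  exact ⟨r, map_smul_one P r⟩

lemma Hyp2.inj' {P : C} {c f : R} (H : Hyp2 R P c f) (r : R)
    (h : r • 𝟙 (P⟦(1 : ℤ)⟧) = 0) : r = 0 := by
  apply H.inj
  apply (shiftFunctor C (1 : ℤ)).map_injective
  rw [map_smul_one, h, Functor.map_zero]

variable {P Z Z' : C} {c f : R} {v : P ⟶ Z} {w : Z ⟶ P⟦(1 : ℤ)⟧} {v' : P ⟶ Z'}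
  {w' : Z' ⟶ P⟦(1 : ℤ)⟧}

/-- the map `(f, c, h)` of triangles -/
@[simps]
def exMap2 (h : Z ⟶ Z') (hv : v ≫ h = c • v') (hw : f • w = h ≫ w') :
    Triangle.mk ((c * f) • 𝟙 P) v w ⟶ Triangle.mk (c ^ 2 • 𝟙 P) v' w' where
  hom₁ := f • 𝟙 P
  hom₂ := c • 𝟙 P
  hom₃ := h
  comm₁ := by
    change ((c * f) • 𝟙 P) ≫ (c • 𝟙 P) = (f • 𝟙 P) ≫ (c ^ 2 • 𝟙 P)
    simp only [Linear.smul_comp, Linear.comp_smul, Category.id_comp, smul_smul]
    ring_nf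
  comm₂ := by
    change v ≫ h = (c • 𝟙 P) ≫ v'
    rw [hv, Linear.smul_comp, Category.id_comp]
  comm₃ := by
    change w ≫ (f • 𝟙 P)⟦(1 : ℤ)⟧' = h ≫ w'
    rw [map_smul_one, Linear.comp_smul, Category.comp_id, hw]

lemma new_v (hT : Triangle.mk ((c * f) • 𝟙 P) v w ∈ distTriang C) (s : P⟦(1 : ℤ)⟧ ⟶ Z')
    (h : Z ⟶ Z') (hv : v ≫ h = c • v') : v ≫ (h + w ≫ (f • s)) = c • v' := by
  rw [Preadditive.comp_add, hv, ← Category.assoc, v_w hT, zero_comp, add_zero]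

lemma new_w (hT : Triangle.mk ((c * f) • 𝟙 P) v w ∈ distTriang C) (s : P⟦(1 : ℤ)⟧ ⟶ Z')
    (hs : s ≫ w' = (c * (f - c)) • 𝟙 _)
    (h : Z ⟶ Z') (hw : f • w = h ≫ w') : f • w = (h + w ≫ (f • s)) ≫ w' := by
  rw [Preadditive.add_comp, ← hw, Category.assoc, Linear.smul_comp, hs, smul_smul,
    Linear.comp_smul, Category.comp_id, show f * (c * (f - c)) = (f - c) * (c * f) by ring,
    mul_smul, smul_w hT, smul_zero, add_zero]

/-- modification of a good fill-in -/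
lemma good_new (hT : Triangle.mk ((c * f) • 𝟙 P) v w ∈ distTriang C)
    (hT' : Triangle.mk (c ^ 2 • 𝟙 P) v' w' ∈ distTriang C) (s : P⟦(1 : ℤ)⟧ ⟶ Z')
    (hs : s ≫ w' = (c * (f - c)) • 𝟙 _)
    (h : Z ⟶ Z') (hv : v ≫ h = c • v') (hw : f • w = h ≫ w')
    (hG : Good (exMap2 h hv hw)) :
    Good (exMap2 (h + w ≫ (f • s)) (new_v hT s h hv) (new_w hT s hs h hw)) := by
  have hcw : c ^ 2 • w' = 0 := smul_w hT'
  have hww : (w' ≫ s) ≫ (w' ≫ s) = (c * (f - c)) • (w' ≫ s) := by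
    rw [Category.assoc, ← Category.assoc s, hs, Linear.smul_comp, Category.id_comp,
      Linear.comp_smul]
  have hww2 : (c * (f - c)) • (c * (f - c)) • (w' ≫ s) = 0 := by
    rw [smul_smul, show c * (f - c) * (c * (f - c)) = (f - c) ^ 2 * c ^ 2 by ring, mul_smul,
      ← Linear.smul_comp, hcw, zero_comp, smul_zero]
  let e : Z' ≅ Z' :=
    { hom := 𝟙 _ + w' ≫ s
      inv := 𝟙 _ - w' ≫ s + (c * (f - c)) • (w' ≫ s)
      hom_inv_id := by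
        simp only [Preadditive.add_comp, Preadditive.comp_add, Preadditive.comp_sub,
          Category.id_comp, Category.comp_id, Linear.comp_smul, hww, hww2, smul_add]
        abel
      inv_hom_id := by
        simp only [Preadditive.add_comp, Preadditive.comp_add, Preadditive.sub_comp,
          Category.id_comp, Category.comp_id, Linear.smul_comp, hww, hww2, smul_add]
        abel }
  have he : e.hom = 𝟙 _ + w' ≫ s := rfl
  let F : P⟦(1 : ℤ)⟧ ⊞ Z' ≅ P⟦(1 : ℤ)⟧ ⊞ Z' :=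
    { hom := Biprod.ofComponents (𝟙 _) 0 (-(c • w')) e.hom
      inv := Biprod.ofComponents (𝟙 _) 0 (e.inv ≫ (c • w')) e.inv
      hom_inv_id := by
        apply biprod.hom_ext <;> apply biprod.hom_ext' <;> simp
      inv_hom_id := by
        apply biprod.hom_ext <;> apply biprod.hom_ext' <;> simp }
  refine isomorphic_distinguished _ hG _
    (Iso.symm (Triangle.isoMk _ _ (Iso.refl _) (Iso.refl _) F ?_ ?_ ?_))
  · change Biprod.ofComponents (-v) (c • 𝟙 P) 0 (c ^ 2 • 𝟙 P) ≫ 𝟙 _ =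
      𝟙 _ ≫ Biprod.ofComponents (-v) (c • 𝟙 P) 0 (c ^ 2 • 𝟙 P)
    simp
  · change Biprod.ofComponents (-w) h 0 v' ≫ Biprod.ofComponents (𝟙 _) 0 (-(c • w')) e.hom =
      𝟙 _ ≫ Biprod.ofComponents (-w) (h + w ≫ (f • s)) 0 v'
    rw [Category.id_comp, Biprod.ofComponents_comp, he]
    congr 1
    · rw [Category.comp_id, Preadditive.comp_neg, Linear.comp_smul, ← hw, smul_smul, smul_w hT,
        neg_zero, add_zero]
    · rw [comp_zero, zero_add, Preadditive.comp_add, Category.comp_id, ← Category.assoc, ← hw,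
        Linear.smul_comp, Linear.comp_smul]
    · rw [zero_comp, zero_add, Preadditive.comp_neg, Linear.comp_smul, v_w hT', smul_zero,
        neg_zero]
    · rw [zero_comp, zero_add, Preadditive.comp_add, Category.comp_id, ← Category.assoc,
        v_w hT', zero_comp, add_zero]
  · change (biprod.desc (-(((c * f) • 𝟙 P)⟦(1 : ℤ)⟧') ≫ (biprod.inl : P ⟶ P ⊞ P)⟦(1 : ℤ)⟧' +
        (f • 𝟙 P)⟦(1 : ℤ)⟧' ≫ (biprod.inr : P ⟶ P ⊞ P)⟦(1 : ℤ)⟧')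
      (w' ≫ (biprod.inr : P ⟶ P ⊞ P)⟦(1 : ℤ)⟧')) ≫ (𝟙 _)⟦(1 : ℤ)⟧' =
      Biprod.ofComponents (𝟙 _) 0 (-(c • w')) e.hom ≫
      (biprod.desc (-(((c * f) • 𝟙 P)⟦(1 : ℤ)⟧') ≫ (biprod.inl : P ⟶ P ⊞ P)⟦(1 : ℤ)⟧' +
        (f • 𝟙 P)⟦(1 : ℤ)⟧' ≫ (biprod.inr : P ⟶ P ⊞ P)⟦(1 : ℤ)⟧')
      (w' ≫ (biprod.inr : P ⟶ P ⊞ P)⟦(1 : ℤ)⟧'))
    rw [CategoryTheory.Functor.map_id, Category.comp_id]
    apply biprod.hom_ext'
    · rw [inl_ofC, Category.id_comp, zero_comp, add_zero]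
    · rw [inr_ofC, biprod.inl_desc, biprod.inr_desc, map_smul_one, map_smul_one, he]
      simp only [Preadditive.add_comp, Preadditive.neg_comp, Preadditive.comp_add,
        Preadditive.comp_neg, Linear.smul_comp, Linear.comp_smul, Category.id_comp,
        Category.comp_id, Category.assoc]
      rw [← Category.assoc s, hs]
      simp only [Linear.smul_comp, Linear.comp_smul, Category.id_comp, smul_smul]
      have hA : c ^ 2 • (w' ≫ (biprod.inl : P ⟶ P ⊞ P)⟦(1 : ℤ)⟧') = 0 := by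
        rw [← Linear.smul_comp, hcw, zero_comp]
      have hB : c ^ 2 • (w' ≫ (biprod.inr : P ⟶ P ⊞ P)⟦(1 : ℤ)⟧') = 0 := by
        rw [← Linear.smul_comp, hcw, zero_comp]
      calc w' ≫ (biprod.inr : P ⟶ P ⊞ P)⟦(1 : ℤ)⟧' =
          w' ≫ (biprod.inr : P ⟶ P ⊞ P)⟦(1 : ℤ)⟧' +
            f • (c ^ 2 • (w' ≫ (biprod.inl : P ⟶ P ⊞ P)⟦(1 : ℤ)⟧')) -
            c ^ 2 • (w' ≫ (biprod.inr : P ⟶ P ⊞ P)⟦(1 : ℤ)⟧') := by
              rw [hA, hB, smul_zero, add_zero, sub_zero]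
        _ = _ := by module

/-- two factorizations through the cone of `gu` -/
lemma claimC {P : C} {c f : R} (H : Hyp2 R P c f) {Z Z' A : C} {v : P ⟶ Z}
    {w : Z ⟶ P⟦(1 : ℤ)⟧} {v' : P ⟶ Z'} {w' : Z' ⟶ P⟦(1 : ℤ)⟧}
    {vt : P ⟶ A} {wt : A ⟶ P⟦(1 : ℤ)⟧}
    (hT : Triangle.mk ((c * f) • 𝟙 P) v w ∈ distTriang C)
    (hT' : Triangle.mk (c ^ 2 • 𝟙 P) v' w' ∈ distTriang C)
    (hA : Triangle.mk ((c ^ 2 * f) • 𝟙 P) vt wt ∈ distTriang C) (s : P⟦(1 : ℤ)⟧ ⟶ Z')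
    (hs : s ≫ w' = (c * (f - c)) • 𝟙 _) (α α' : Z ⟶ A) (β β' : A ⟶ Z')
    (a1 : v ≫ α = c • vt) (a2 : α ≫ wt = w) (a1' : v ≫ α' = c • vt) (a2' : α' ≫ wt = w)
    (b1 : vt ≫ β = v') (b2 : β ≫ w' = f • wt) (b1' : vt ≫ β' = v') (b2' : β' ≫ w' = f • wt)
    (h : α' ≫ β' = α ≫ β + w ≫ (f • s)) : False := by
  obtain ⟨ξ, hξ⟩ := fac_w hT (α' - α) (by rw [Preadditive.comp_sub, a1, a1', sub_self])
  obtain ⟨ρ, hρ⟩ := fac_r hT (ξ ≫ wt) (by
    rw [← Category.assoc, ← hξ, Preadditive.sub_comp, a2, a2', sub_self])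
  obtain ⟨r, rfl⟩ := H.surj' ρ
  rw [smul_smul] at hρ
  obtain ⟨η, hη⟩ := fac_w hA (β' - β) (by rw [Preadditive.comp_sub, b1, b1', sub_self])
  obtain ⟨ρ', hρ'⟩ := fac_r hA (η ≫ w') (by
    rw [← Category.assoc, ← hη, Preadditive.sub_comp, b2, b2', sub_self])
  obtain ⟨r', rfl⟩ := H.surj' ρ'
  rw [smul_smul] at hρ'
  have e1 : w ≫ (ξ ≫ β + η - f • s) = 0 := by
    have h1 : α' ≫ β' - α ≫ β = w ≫ (ξ ≫ β + η) := by
      have h2 : α' ≫ β' - α ≫ β = (α' - α) ≫ β + α' ≫ (β' - β) := by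
        rw [Preadditive.sub_comp, Preadditive.comp_sub]
        abel
      rw [h2, hξ, hη, ← Category.assoc α', a2', Category.assoc, Preadditive.comp_add]
    rw [Preadditive.comp_sub, ← h1, h, add_sub_cancel_left, sub_self]
  obtain ⟨κ, hκ⟩ := fac_r hT _ e1
  obtain ⟨k, hk⟩ := H.surj' (κ ≫ w')
  have e2 : (ξ ≫ β + η - f • s) ≫ w' = (c * f * k) • 𝟙 _ := by
    rw [hκ, Linear.smul_comp, hk, smul_smul]
  rw [Preadditive.sub_comp, Preadditive.add_comp, Category.assoc, b2, Linear.comp_smul, hρ,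
    hρ', Linear.smul_comp, hs, smul_smul, smul_smul, ← add_smul, ← sub_smul, ← sub_eq_zero,
    ← sub_smul] at e2
  have e3 := H.inj' _ e2
  refine H.key r r' k ?_ ?_ ?_ ?_
  · apply H.inj'
    have : (c ^ 2 * f) • (ξ ≫ wt) = 0 := by rw [← Linear.comp_smul, smul_w hA, comp_zero]
    rw [hρ, smul_smul] at this
    rw [← this]
    congr 1
    ring
  · apply H.inj'
    have : (c ^ 2) • (η ≫ w') = 0 := by rw [← Linear.comp_smul, smul_w hT', comp_zero]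
    rw [hρ', smul_smul] at this
    rw [← this]
    congr 1
    ring
  · apply H.inj'
    have : (c ^ 2) • (κ ≫ w') = 0 := by rw [← Linear.comp_smul, smul_w hT', comp_zero]
    rw [hk, smul_smul] at this
    exact this
  · rw [← sub_eq_zero, ← e3]
    ring

/-- what Verdier goodness of `(f, c, h)` gives -/
lemma extract (hT : Triangle.mk ((c * f) • 𝟙 P) v w ∈ distTriang C)
    (hT' : Triangle.mk (c ^ 2 • 𝟙 P) v' w' ∈ distTriang C)
    (h : Z ⟶ Z') (hv : v ≫ h = c • v') (hw : f • w = h ≫ w') (D : Aux (exMap2 h hv hw))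
    (hD : VerdierGoodWith hT hT' (exMap2 h hv hw) D) :
    ∃ (A : C) (vt : P ⟶ A) (wt : A ⟶ P⟦(1 : ℤ)⟧) (α : Z ⟶ A) (β : A ⟶ Z'),
      Triangle.mk ((c ^ 2 * f) • 𝟙 P) vt wt ∈ distTriang C ∧ v ≫ α = c • vt ∧ α ≫ wt = w ∧
      vt ≫ β = v' ∧ β ≫ w' = f • wt ∧ h = α ≫ β := by
  obtain ⟨o₁, o₂, h1⟩ := hD
  obtain ⟨A, vt, wt, α, β, hA, a1, a2, b1, b2, h2⟩ : ∃ (A : C) (vt : P ⟶ A)
      (wt : A ⟶ P⟦(1 : ℤ)⟧) (α : Z ⟶ A) (β : A ⟶ Z'),
      Triangle.mk (((c * f) • 𝟙 P) ≫ (c • 𝟙 P)) vt wt ∈ distTriang C ∧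
      v ≫ α = (c • 𝟙 P) ≫ vt ∧ α ≫ wt = w ∧
      vt ≫ β = v' ∧ wt ≫ (f • 𝟙 P)⟦(1 : ℤ)⟧' = β ≫ w' ∧ h = α ≫ β :=
    ⟨D.A, D.vt, D.wt, o₁.m₁, o₂.m₃, D.exact_gu, o₁.comm₁, o₁.comm₂, o₂.comm₃, o₂.comm₄, h1⟩
  refine ⟨A, vt, wt, α, β, ?_, ?_, a2, b1, ?_, h2⟩
  · have e : ((c * f) • 𝟙 P) ≫ (c • 𝟙 P) = (c ^ 2 * f) • 𝟙 P := by
      simp only [Linear.smul_comp, Linear.comp_smul, Category.id_comp, smul_smul]
      ring_nf
    rw [← e]
    exact hA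
  · rw [a1, Linear.smul_comp, Category.id_comp]
  · rw [← b2, map_smul_one, Linear.comp_smul, Category.comp_id]

theorem ex2_main [IsTriangulated C] {P : C} {c f : R} (H : Hyp2 R P c f) :
    ∃ (T T' : Triangle C) (hT : T ∈ distTriang C) (hT' : T' ∈ distTriang C) (φ : T ⟶ T'),
      Good φ ∧ ∀ D : Aux φ, ¬ VerdierGoodWith hT hT' φ D := by
  obtain ⟨Z, v, w, hT⟩ := distinguished_cocone_triangle ((c * f) • 𝟙 P)
  obtain ⟨Z', v', w', hT'⟩ := distinguished_cocone_triangle (c ^ 2 • 𝟙 P)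
  obtain ⟨s, hs⟩ := lift_w hT' ((c * (f - c)) • 𝟙 (P⟦(1 : ℤ)⟧)) (by
    rw [smul_smul, show c ^ 2 * (c * (f - c)) = c ^ 3 * (f - c) by ring, H.rel, zero_smul])
  obtain ⟨h₀, hv, hw, hG⟩ := exists_good hT hT' (f • 𝟙 P) (c • 𝟙 P) (by
    simp only [Linear.smul_comp, Linear.comp_smul, Category.id_comp, smul_smul]
    ring_nf)
  rw [Linear.smul_comp, Category.id_comp] at hv
  rw [map_smul_one, Linear.comp_smul, Category.comp_id] at hw
  have hG₀ : Good (exMap2 h₀ hv hw) := by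
    rw [Preadditive.neg_comp] at hG
    exact hG
  by_cases hV : ∃ D, VerdierGoodWith hT hT' (exMap2 h₀ hv hw) D
  · obtain ⟨D, hD⟩ := hV
    refine ⟨_, _, hT, hT', exMap2 (h₀ + w ≫ (f • s)) (new_v hT s h₀ hv)
      (new_w hT s hs.symm h₀ hw), good_new hT hT' s hs.symm h₀ hv hw hG₀, fun D' hD' => ?_⟩
    obtain ⟨A, vt, wt, α, β, hA, a1, a2, b1, b2, hh⟩ := extract hT hT' _ _ _ D hD
    obtain ⟨A', vt', wt', α', β', hA', a1', a2', b1', b2', hh'⟩ := extract hT hT' _ _ _ D' hD'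
    obtain ⟨e, he1, he2⟩ : ∃ e : A' ≅ A, vt' ≫ e.hom = vt ∧ e.hom ≫ wt = wt' := by
      let E := isoTriangleOfIso₁₂ _ _ hA' hA (Iso.refl P) (Iso.refl P) (by
        change _ ≫ 𝟙 _ = 𝟙 _ ≫ _
        simp)
      refine ⟨Triangle.π₃.mapIso E, ?_, ?_⟩
      · have := E.hom.comm₂
        change vt' ≫ E.hom.hom₃ = 𝟙 P ≫ vt at this
        rw [Category.id_comp] at this
        exact this
      · have := E.hom.comm₃
        change wt' ≫ (𝟙 P)⟦(1 : ℤ)⟧' = E.hom.hom₃ ≫ wt at this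
        rw [CategoryTheory.Functor.map_id, Category.comp_id] at this
        exact this.symm
    refine claimC H hT hT' hA s hs.symm α (α' ≫ e.hom) β (e.inv ≫ β') a1 a2 ?_ ?_ b1 b2 ?_ ?_ ?_
    · rw [← Category.assoc, a1', Linear.smul_comp, he1]
    · rw [Category.assoc, he2, a2']
    · rw [← he1, Category.assoc, Iso.hom_inv_id_assoc, b1']
    · rw [Category.assoc, b2', Linear.comp_smul, ← he2, Iso.inv_hom_id_assoc]
    · rw [Category.assoc, Iso.hom_inv_id_assoc, ← hh', hh]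
  · push Not at hV
    exact ⟨_, _, hT, hT', exMap2 h₀ hv hw, hG₀, hV⟩

end Pool.Agent.R707
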