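import Pool.Agent.R707.Sum

/-!
# Existence of good fill-ins (Neeman)
-/

set_option autoImplicit false
set_option linter.unusedSectionVars false

noncomputable section

namespace Pool.Agent.R707

open CategoryTheory Limits Pretriangulated Triangulated

universe v u

variable {C : Type u} [Category.{v} C] [Preadditive C] [HasZeroObject C] [HasShift C ℤ]
  [∀ n : ℤ, (shiftFunctor C n).Additive] [Pretriangulated C]

open ZeroObject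

section
variable (A B : C)

lemma sh_ll : (biprod.inl : A ⟶ A ⊞ B)⟦(1 : ℤ)⟧' ≫ (biprod.fst : A ⊞ B ⟶ A)⟦(1 : ℤ)⟧' = 𝟙 _ := by
  rw [← Functor.map_comp, biprod.inl_fst, CategoryTheory.Functor.map_id]

lemma sh_lr : (biprod.inl : A ⟶ A ⊞ B)⟦(1 : ℤ)⟧' ≫ (biprod.snd : A ⊞ B ⟶ B)⟦(1 : ℤ)⟧' = 0 := by
  rw [← Functor.map_comp, biprod.inl_snd, Functor.map_zero]

lemma sh_rl : (biprod.inr : B ⟶ A ⊞ B)⟦(1 : ℤ)⟧' ≫ (biprod.fst : A ⊞ B ⟶ A)⟦(1 : ℤ)⟧' = 0 := by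
  rw [← Functor.map_comp, biprod.inr_fst, Functor.map_zero]

lemma sh_rr : (biprod.inr : B ⟶ A ⊞ B)⟦(1 : ℤ)⟧' ≫ (biprod.snd : A ⊞ B ⟶ B)⟦(1 : ℤ)⟧' = 𝟙 _ := by
  rw [← Functor.map_comp, biprod.inr_snd, CategoryTheory.Functor.map_id]

lemma sh_tot : (biprod.fst : A ⊞ B ⟶ A)⟦(1 : ℤ)⟧' ≫ (biprod.inl : A ⟶ A ⊞ B)⟦(1 : ℤ)⟧' +
    (biprod.snd : A ⊞ B ⟶ B)⟦(1 : ℤ)⟧' ≫ (biprod.inr : B ⟶ A ⊞ B)⟦(1 : ℤ)⟧' = 𝟙 _ := by
  rw [← Functor.map_comp, ← Functor.map_comp, ← Functor.map_add, biprod.total,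
    CategoryTheory.Functor.map_id]

end

section
variable {X₁ X₂ Y₁ Y₂ W : C} (f₁₁ : X₁ ⟶ Y₁) (f₁₂ : X₁ ⟶ Y₂) (f₂₁ : X₂ ⟶ Y₁) (f₂₂ : X₂ ⟶ Y₂)

@[simp] lemma inl_ofC (t : Y₁ ⊞ Y₂ ⟶ W) : biprod.inl ≫ Biprod.ofComponents f₁₁ f₁₂ f₂₁ f₂₂ ≫ t =
    f₁₁ ≫ biprod.inl ≫ t + f₁₂ ≫ biprod.inr ≫ t := by
  rw [← Category.assoc, Biprod.inl_ofComponents, Preadditive.add_comp, Category.assoc,
    Category.assoc]

@[simp] lemma inr_ofC (t : Y₁ ⊞ Y₂ ⟶ W) : biprod.inr ≫ Biprod.ofComponents f₁₁ f₁₂ f₂₁ f₂₂ ≫ t =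
    f₂₁ ≫ biprod.inl ≫ t + f₂₂ ≫ biprod.inr ≫ t := by
  rw [← Category.assoc, Biprod.inr_ofComponents, Preadditive.add_comp, Category.assoc,
    Category.assoc]

end

variable {X Y Z X' Y' Z' : C} {u : X ⟶ Y} {v : Y ⟶ Z} {w : Z ⟶ X⟦(1 : ℤ)⟧}
  {u' : X' ⟶ Y'} {v' : Y' ⟶ Z'} {w' : Z' ⟶ X'⟦(1 : ℤ)⟧}

lemma hL1 (hT' : Triangle.mk u' v' w' ∈ distTriang C) (g : Y ⟶ Y') :
    Triangle.mk (Biprod.ofComponents (𝟙 Y) g 0 u' : Y ⊞ X' ⟶ Y ⊞ Y')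
      (biprod.desc (-(g ≫ v')) v') (w' ≫ (biprod.inr : X' ⟶ Y ⊞ X')⟦(1 : ℤ)⟧') ∈ distTriang C := by
  refine isomorphic_distinguished _ (sumTriangle_distinguished (contractibleTriangle Y)
    (Triangle.mk u' v' w') (contractible_distinguished Y) hT') _ ?_
  let e₂ : Y ⊞ Y' ≅ Y ⊞ Y' := Biprod.unipotentUpper (-g)
  let e₃ : Z' ≅ (0 : C) ⊞ Z' :=
    { hom := biprod.inr
      inv := biprod.snd
      hom_inv_id := by simp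
      inv_hom_id := by
        apply biprod.hom_ext
        · apply (isZero_zero C).eq_of_tgt
        · simp }
  refine Triangle.isoMk _ _ (Iso.refl (Y ⊞ X')) e₂ e₃ ?_ ?_ ?_
  · change Biprod.ofComponents (𝟙 Y) g 0 u' ≫ Biprod.ofComponents (𝟙 Y) (-g) 0 (𝟙 Y') =
      𝟙 _ ≫ biprod.map (𝟙 Y) u'
    apply biprod.hom_ext <;> apply biprod.hom_ext' <;> simp
  · change biprod.desc (-(g ≫ v')) v' ≫ biprod.inr =
      Biprod.ofComponents (𝟙 Y) (-g) 0 (𝟙 Y') ≫ biprod.map 0 v'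
    apply biprod.hom_ext <;> apply biprod.hom_ext' <;> simp
  · change (w' ≫ (biprod.inr : X' ⟶ Y ⊞ X')⟦(1 : ℤ)⟧') ≫ (𝟙 _)⟦(1 : ℤ)⟧' = biprod.inr ≫
      biprod.desc _ (w' ≫ (biprod.inr : X' ⟶ Y ⊞ X')⟦(1 : ℤ)⟧')
    simp

lemma hL2 (hT : Triangle.mk u v w ∈ distTriang C) (Y' : C) :
    Triangle.mk (Biprod.ofComponents (-v) 0 0 (𝟙 Y') : Y ⊞ Y' ⟶ Z ⊞ Y')
      (biprod.desc (-w) 0) ((-u⟦(1 : ℤ)⟧') ≫ (biprod.inl : Y ⟶ Y ⊞ Y')⟦(1 : ℤ)⟧') ∈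
      distTriang C := by
  refine isomorphic_distinguished _ (sumTriangle_distinguished (Triangle.mk u v w).rotate
    (contractibleTriangle Y') (rot_of_distTriang _ hT) (contractible_distinguished Y')) _ ?_
  let e₂ : Z ⊞ Y' ≅ Z ⊞ Y' :=
    { hom := Biprod.ofComponents (-𝟙 Z) 0 0 (𝟙 Y')
      inv := Biprod.ofComponents (-𝟙 Z) 0 0 (𝟙 Y')
      hom_inv_id := by apply biprod.hom_ext <;> apply biprod.hom_ext' <;> simp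
      inv_hom_id := by apply biprod.hom_ext <;> apply biprod.hom_ext' <;> simp }
  let e₃ : X⟦(1 : ℤ)⟧ ≅ X⟦(1 : ℤ)⟧ ⊞ (0 : C) :=
    { hom := biprod.inl
      inv := biprod.fst
      hom_inv_id := by simp
      inv_hom_id := by
        apply biprod.hom_ext
        · simp
        · apply (isZero_zero C).eq_of_tgt }
  refine Triangle.isoMk _ _ (Iso.refl (Y ⊞ Y')) e₂ e₃ ?_ ?_ ?_
  · change Biprod.ofComponents (-v) 0 0 (𝟙 Y') ≫ Biprod.ofComponents (-𝟙 Z) 0 0 (𝟙 Y') =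
      𝟙 _ ≫ biprod.map v (𝟙 Y')
    apply biprod.hom_ext <;> apply biprod.hom_ext' <;> simp
  · change biprod.desc (-w) 0 ≫ biprod.inl =
      Biprod.ofComponents (-𝟙 Z) 0 0 (𝟙 Y') ≫ biprod.map w 0
    apply biprod.hom_ext <;> apply biprod.hom_ext' <;> simp
  · change ((-u⟦(1 : ℤ)⟧') ≫ (biprod.inl : Y ⟶ Y ⊞ Y')⟦(1 : ℤ)⟧') ≫ (𝟙 _)⟦(1 : ℤ)⟧' =
      biprod.inl ≫ biprod.desc ((-u⟦(1 : ℤ)⟧') ≫ (biprod.inl : Y ⟶ Y ⊞ Y')⟦(1 : ℤ)⟧') _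
    simp

/-- Neeman: every commutative square has a good fill-in. -/
theorem exists_good [IsTriangulated C] (hT : Triangle.mk u v w ∈ distTriang C)
    (hT' : Triangle.mk u' v' w' ∈ distTriang C) (f : X ⟶ X') (g : Y ⟶ Y')
    (comm : u ≫ g = f ≫ u') :
    ∃ h : Z ⟶ Z', v ≫ h = g ≫ v' ∧ w ≫ f⟦(1 : ℤ)⟧' = h ≫ w' ∧
      Triangle.mk (Biprod.ofComponents (-v) g 0 u' : Y ⊞ X' ⟶ Z ⊞ Y')
        (Biprod.ofComponents (-w) h 0 v')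
        (biprod.desc ((-(u⟦(1 : ℤ)⟧')) ≫ (biprod.inl : Y ⟶ Y ⊞ X')⟦(1 : ℤ)⟧' +
          f⟦(1 : ℤ)⟧' ≫ (biprod.inr : X' ⟶ Y ⊞ X')⟦(1 : ℤ)⟧')
          (w' ≫ (biprod.inr : X' ⟶ Y ⊞ X')⟦(1 : ℤ)⟧')) ∈ distTriang C := by
  obtain ⟨Q, M, N, hL⟩ := distinguished_cocone_triangle
    (Biprod.ofComponents (-v) g 0 u' : Y ⊞ X' ⟶ Z ⊞ Y')
  have hcomm : (Biprod.ofComponents (𝟙 Y) g 0 u' : Y ⊞ X' ⟶ Y ⊞ Y') ≫
      Biprod.ofComponents (-v) 0 0 (𝟙 Y') = Biprod.ofComponents (-v) g 0 u' := by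
    apply biprod.hom_ext <;> apply biprod.hom_ext' <;> simp
  let o := someOctahedron hcomm (hL1 hT' g) (hL2 hT Y') hL
  obtain ⟨m₁, m₃, c1, c2, c3, c4, mem⟩ := o
  have z1 : ((-u⟦(1 : ℤ)⟧') ≫ (biprod.inl : Y ⟶ Y ⊞ Y')⟦(1 : ℤ)⟧') ≫
      (biprod.desc (-(g ≫ v')) v')⟦(1 : ℤ)⟧' = 0 := by
    rw [Category.assoc, ← Functor.map_comp, biprod.inl_desc, Preadditive.neg_comp,
      ← Functor.map_comp, Preadditive.comp_neg, ← Category.assoc, comm, Category.assoc]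
    have : u' ≫ v' = 0 := comp_distTriang_mor_zero₁₂ _ hT'
    rw [this, comp_zero, neg_zero, Functor.map_zero, neg_zero]
  rw [z1] at mem
  have z2 : m₁ ≫ m₃ = 0 := comp_distTriang_mor_zero₁₂ _ mem
  have hmono : Mono m₁ := Triangle.mono₁ _ mem rfl
  obtain ⟨s, hs⟩ : ∃ s : X⟦(1 : ℤ)⟧ ⟶ Q, 𝟙 _ = s ≫ m₃ :=
    Triangle.coyoneda_exact₃ _ mem (𝟙 _) comp_zero
  have hn : (s ≫ N) ≫ (Biprod.ofComponents (𝟙 Y) g 0 u' : Y ⊞ X' ⟶ Y ⊞ Y')⟦(1 : ℤ)⟧' =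
      (-u⟦(1 : ℤ)⟧') ≫ (biprod.inl : Y ⟶ Y ⊞ Y')⟦(1 : ℤ)⟧' := by
    rw [Category.assoc, c4, ← Category.assoc, ← hs, Category.id_comp]
  have n1 : (s ≫ N) ≫ (biprod.fst : Y ⊞ X' ⟶ Y)⟦(1 : ℤ)⟧' = -u⟦(1 : ℤ)⟧' := by
    have h1 := congrArg (fun t => t ≫ (biprod.fst : Y ⊞ Y' ⟶ Y)⟦(1 : ℤ)⟧') hn
    simp only [Category.assoc] at h1
    rw [sh_ll, Category.comp_id, ← Functor.map_comp, Biprod.ofComponents_fst, Category.comp_id,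
      comp_zero, add_zero] at h1
    rw [Category.assoc, h1]
  have n2 : ((s ≫ N) ≫ (biprod.snd : Y ⊞ X' ⟶ X')⟦(1 : ℤ)⟧') ≫ u'⟦(1 : ℤ)⟧' =
      f⟦(1 : ℤ)⟧' ≫ u'⟦(1 : ℤ)⟧' := by
    have h1 := congrArg (fun t => t ≫ (biprod.snd : Y ⊞ Y' ⟶ Y')⟦(1 : ℤ)⟧') hn
    simp only [Category.assoc] at h1
    rw [sh_lr, comp_zero, ← Functor.map_comp, Biprod.ofComponents_snd, Functor.map_add,
      Preadditive.comp_add, Functor.map_comp, Functor.map_comp] at h1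
    rw [← Functor.map_comp, ← comm, Functor.map_comp, Category.assoc, Category.assoc]
    have h2 : s ≫ N ≫ (biprod.fst : Y ⊞ X' ⟶ Y)⟦(1 : ℤ)⟧' ≫ g⟦(1 : ℤ)⟧' =
        -(u⟦(1 : ℤ)⟧' ≫ g⟦(1 : ℤ)⟧') := by
      rw [← Category.assoc, ← Category.assoc, n1, Preadditive.neg_comp]
    rw [Preadditive.comp_add, h2, neg_add_eq_zero] at h1
    exact h1.symm
  obtain ⟨k, hk⟩ : ∃ k : X⟦(1 : ℤ)⟧ ⟶ Z',
      (s ≫ N) ≫ (biprod.snd : Y ⊞ X' ⟶ X')⟦(1 : ℤ)⟧' - f⟦(1 : ℤ)⟧' = k ≫ w' :=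
    Triangle.coyoneda_exact₁ _ hT' _ (by
      change _ ≫ u'⟦(1 : ℤ)⟧' = 0
      rw [Preadditive.sub_comp, n2, sub_self])
  have e1 : (s - k ≫ m₁) ≫ m₃ = 𝟙 _ := by
    rw [Preadditive.sub_comp, Category.assoc, z2, comp_zero, sub_zero, ← hs]
  have e2 : (s - k ≫ m₁) ≫ N = (-(u⟦(1 : ℤ)⟧')) ≫ (biprod.inl : Y ⟶ Y ⊞ X')⟦(1 : ℤ)⟧' +
          f⟦(1 : ℤ)⟧' ≫ (biprod.inr : X' ⟶ Y ⊞ X')⟦(1 : ℤ)⟧' := by
    rw [Preadditive.sub_comp, Category.assoc, c2, ← Category.comp_id (s ≫ N), ← sh_tot,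
      Preadditive.comp_add, ← Category.assoc (s ≫ N), ← Category.assoc (s ≫ N), n1,
      ← Category.assoc k, ← hk, Preadditive.sub_comp]
    abel
  obtain ⟨r, hr⟩ : ∃ r : Q ⟶ Z', 𝟙 Q - m₃ ≫ (s - k ≫ m₁) = r ≫ m₁ :=
    Triangle.coyoneda_exact₂ _ mem _ (by
      change _ ≫ m₃ = 0
      rw [Preadditive.sub_comp, Category.assoc, e1, Category.comp_id, Category.id_comp, sub_self])
  have e3 : m₁ ≫ r = 𝟙 _ := by
    rw [← cancel_mono m₁, Category.assoc, ← hr, Preadditive.comp_sub, ← Category.assoc, z2,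
      zero_comp, sub_zero, Category.comp_id, Category.id_comp]
  have e4 : (s - k ≫ m₁) ≫ r = 0 := by
    rw [← cancel_mono m₁, Category.assoc, ← hr, Preadditive.comp_sub, ← Category.assoc, e1,
      Category.id_comp, Category.comp_id, sub_self, zero_comp]
  have c1' : v' ≫ m₁ = biprod.inr ≫ M := by
    have := congrArg (fun t => biprod.inr ≫ t) c1
    simpa using this
  have c1'' : v ≫ biprod.inl ≫ M = g ≫ v' ≫ m₁ := by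
    have := congrArg (fun t => biprod.inl ≫ t) c1
    simpa using this.symm
  have c3' : biprod.inl ≫ M ≫ m₃ = -w := by
    rw [c3]
    simp
  let Θ : X⟦(1 : ℤ)⟧ ⊞ Z' ≅ Q :=
    { hom := biprod.desc (s - k ≫ m₁) m₁
      inv := biprod.lift m₃ r
      hom_inv_id := by
        apply biprod.hom_ext <;> apply biprod.hom_ext' <;>
        simp only [Category.assoc, biprod.lift_fst, biprod.lift_snd, biprod.inl_desc_assoc,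
          biprod.inr_desc_assoc, e1, e3, e4, z2, Category.id_comp, biprod.inl_fst, biprod.inl_snd,
          biprod.inr_fst, biprod.inr_snd]
      inv_hom_id := by
        rw [biprod.lift_desc, ← hr, add_sub_cancel] }
  have hM : Biprod.ofComponents (-w) (biprod.inl ≫ M ≫ r) 0 v' ≫
      biprod.desc (s - k ≫ m₁) m₁ = M := by
    apply biprod.hom_ext'
    · have hr' : m₃ ≫ (s - k ≫ m₁) + r ≫ m₁ = 𝟙 Q := by rw [← hr, add_sub_cancel]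
      rw [inl_ofC, biprod.inl_desc, biprod.inr_desc, ← c3']
      calc _ = biprod.inl ≫ M ≫ (m₃ ≫ (s - k ≫ m₁) + r ≫ m₁) := by
            simp only [Category.assoc, Preadditive.comp_add]
        _ = _ := by rw [hr', Category.comp_id]
    · rw [inr_ofC, biprod.inr_desc, zero_comp, zero_add, c1']
  have hmem : Triangle.mk (Biprod.ofComponents (-v) g 0 u' : Y ⊞ X' ⟶ Z ⊞ Y')
        (Biprod.ofComponents (-w) (biprod.inl ≫ M ≫ r) 0 v')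
        (biprod.desc ((-(u⟦(1 : ℤ)⟧')) ≫ (biprod.inl : Y ⟶ Y ⊞ X')⟦(1 : ℤ)⟧' +
          f⟦(1 : ℤ)⟧' ≫ (biprod.inr : X' ⟶ Y ⊞ X')⟦(1 : ℤ)⟧')
          (w' ≫ (biprod.inr : X' ⟶ Y ⊞ X')⟦(1 : ℤ)⟧')) ∈ distTriang C := by
    refine isomorphic_distinguished _ hL _ (Triangle.isoMk _ _ (Iso.refl _) (Iso.refl _) Θ ?_ ?_ ?_)
    · change Biprod.ofComponents (-v) g 0 u' ≫ 𝟙 _ = 𝟙 _ ≫ Biprod.ofComponents (-v) g 0 u'
      simp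
    · change Biprod.ofComponents (-w) (biprod.inl ≫ M ≫ r) 0 v' ≫
        biprod.desc (s - k ≫ m₁) m₁ = 𝟙 _ ≫ M
      rw [hM, Category.id_comp]
    · change biprod.desc _ _ ≫ (𝟙 _)⟦(1 : ℤ)⟧' = biprod.desc (s - k ≫ m₁) m₁ ≫ N
      rw [CategoryTheory.Functor.map_id, Category.comp_id]
      apply biprod.hom_ext'
      · rw [biprod.inl_desc, biprod.inl_desc_assoc, e2]
      · rw [biprod.inr_desc, biprod.inr_desc_assoc, c2]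
  refine ⟨biprod.inl ≫ M ≫ r, ?_, ?_, hmem⟩
  · have := congrArg (fun t => t ≫ r) c1''
    simpa only [Category.assoc, e3, Category.comp_id] using this
  · have h1 : Biprod.ofComponents (-w) (biprod.inl ≫ M ≫ r) 0 v' ≫
      (biprod.desc ((-(u⟦(1 : ℤ)⟧')) ≫ (biprod.inl : Y ⟶ Y ⊞ X')⟦(1 : ℤ)⟧' +
          f⟦(1 : ℤ)⟧' ≫ (biprod.inr : X' ⟶ Y ⊞ X')⟦(1 : ℤ)⟧')
          (w' ≫ (biprod.inr : X' ⟶ Y ⊞ X')⟦(1 : ℤ)⟧')) = 0 := comp_distTriang_mor_zero₂₃ _ hmem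
    have h2 := congrArg (fun t => biprod.inl ≫ t ≫ (biprod.snd : Y ⊞ X' ⟶ X')⟦(1 : ℤ)⟧') h1
    simp only [Category.assoc, zero_comp, comp_zero, inl_ofC, biprod.inl_desc_assoc,
      biprod.inr_desc_assoc, Preadditive.add_comp, Preadditive.comp_add, sh_lr, sh_rr,
      Category.comp_id, zero_add, Preadditive.neg_comp, neg_zero] at h2
    rw [neg_add_eq_zero] at h2
    simpa only [Category.assoc] using h2

end Pool.Agent.R707
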