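import Mathlib

set_option autoImplicit false

namespace Pool.Agent.R707.PMD

open Set

/-- the arithmetic at the heart of the argument -/
lemma nt (m K R N : ℕ) (hm : 1 ≤ m) (hK : 2 ≤ K) (h1 : R * m + 1 = K * m + R)
    (h2 : N * K = (1 + R * (K - 1)) * R) : m = K := by
  obtain ⟨p, rfl⟩ : ∃ p, m = p + 1 := ⟨m - 1, by omega⟩
  obtain ⟨q, rfl⟩ : ∃ q, K = q + 1 := ⟨K - 1, by omega⟩
  have e1 : (q : ℤ) = ((R : ℤ) - (q + 1)) * p := by
    have : ((R * (p + 1) + 1 : ℕ) : ℤ) = (((q + 1) * (p + 1) + R : ℕ) : ℤ) := by exact_mod_cast h1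
    push_cast at this
    linarith
  set u : ℤ := (R : ℤ) - (q + 1) with hu
  have hR : (R : ℤ) = q + 1 + u := by rw [hu]; ring
  have hp0 : (0 : ℤ) ≤ p := by positivity
  have hq1 : (1 : ℤ) ≤ q := by exact_mod_cast (by omega : 1 ≤ q)
  have hp1 : (1 : ℤ) ≤ p := by
    rcases Nat.eq_zero_or_pos p with h | h
    · rw [h] at e1; simp at e1; omega
    · exact_mod_cast h
  have hu1 : (1 : ℤ) ≤ u := by
    by_contra hc
    have : u ≤ 0 := by omega
    nlinarith
  have e2 : (N : ℤ) * (q + 1) = (1 + (R : ℤ) * q) * R := by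
    have : ((N * (q + 1) : ℕ) : ℤ) = (((1 + R * (q + 1 - 1)) * R : ℕ) : ℤ) := by exact_mod_cast h2
    push_cast at this
    simpa using this
  -- K divides u (u-1)
  have d1 : ((q : ℤ) + 1) ∣ u * (u - 1) := by
    refine ⟨(R : ℤ) * R - N - 2 * R + (q + 1) + 1, ?_⟩
    have : (u : ℤ) = R - (q + 1) := hu
    rw [this]
    linear_combination e2
  have cop : IsCoprime ((q : ℤ) + 1) u := ⟨1, -p, by linear_combination e1⟩
  have d2 : ((q : ℤ) + 1) ∣ u - 1 := cop.dvd_of_dvd_mul_left d1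
  have hle : u ≤ q := by nlinarith
  have h0 : u - 1 = 0 := Int.eq_zero_of_abs_lt_dvd d2 (by rw [abs_of_nonneg (by omega)]; omega)
  have hu' : u = 1 := by omega
  rw [hu'] at e1
  have : (q : ℤ) = p := by linarith
  have : q = p := by exact_mod_cast this
  omega

noncomputable def rk {n : ℕ} (M : Matroid (Fin n)) (X : Set (Fin n)) : ℕ := (M.eRk X).toNat

variable {n : ℕ} (M : Matroid (Fin n))

lemma eRk_eq (X : Set (Fin n)) : M.eRk X = (rk M X : ℕ∞) := by
  unfold rk
  refine (ENat.natCast_toNat ?_).symm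
  exact (M.isRkFinite_of_finite (Set.toFinite X)).eRk_lt_top.ne

lemma rk_mono {X Y : Set (Fin n)} (h : X ⊆ Y) : rk M X ≤ rk M Y := by
  have := M.eRk_mono h
  simp only [eRk_eq] at this
  exact_mod_cast this

lemma rk_le (X : Set (Fin n)) : rk M X ≤ X.ncard := by
  have := M.eRk_le_encard X
  rw [eRk_eq, ← (Set.toFinite X).cast_ncard_eq] at this
  exact_mod_cast this

lemma rk_closure (X : Set (Fin n)) : rk M (M.closure X) = rk M X := by
  unfold rk; rw [M.eRk_closure_eq]

variable (hE : M.E = univ)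
include hE

lemma flat_eq {A C : Set (Fin n)} (hA : M.IsFlat A) (hC : M.IsFlat C) (h : A ⊆ C)
    (hr : rk M C ≤ rk M A) : A = C := by
  have h1 := (M.isRkFinite_of_finite (Set.toFinite A)).closure_eq_closure_of_subset_of_eRk_ge_eRk h
    (by rw [eRk_eq, eRk_eq]; exact_mod_cast hr)
  rwa [hA.closure, hC.closure] at h1

lemma sub_closure (X : Set (Fin n)) : X ⊆ M.closure X :=
  M.subset_closure X (by rw [hE]; exact subset_univ _)

lemma closure_sub {X H : Set (Fin n)} (hH : M.IsFlat H) (h : X ⊆ H) : M.closure X ⊆ H := by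
  have := M.closure_subset_closure h
  rwa [hH.closure] at this

lemma exists_cov {A : Set (Fin n)} (hA : M.IsFlat A) {z : Fin n} (hz : z ∉ A) :
    ∃ C, M.IsFlat C ∧ A ⊆ C ∧ z ∈ C ∧ rk M C = rk M A + 1 := by
  refine ⟨M.closure (insert z A), M.isFlat_closure _, ?_, ?_, ?_⟩
  · exact (subset_insert z A).trans (sub_closure M hE _)
  · exact sub_closure M hE _ (mem_insert z A)
  · rw [rk_closure]
    have : M.eRk (insert z A) = M.eRk A + 1 :=
      M.eRk_insert_eq_add_one ⟨by rw [hE]; trivial, by rwa [hA.closure]⟩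
    rw [eRk_eq, eRk_eq] at this
    exact_mod_cast this

/-- if `C` covers `A`, `z ∈ C \ A`, then `C` is inside every flat containing `A` and `z` -/
lemma cov_sub {A C H : Set (Fin n)} (hA : M.IsFlat A) (hC : M.IsFlat C) (hAC : A ⊆ C)
    (hr : rk M C = rk M A + 1) {z : Fin n} (hzC : z ∈ C) (hzA : z ∉ A) (hH : M.IsFlat H)
    (hAH : A ⊆ H) (hzH : z ∈ H) : C ⊆ H := by
  have hz : M.eRk (insert z A) = M.eRk A + 1 :=
    M.eRk_insert_eq_add_one ⟨by rw [hE]; trivial, by rwa [hA.closure]⟩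
  have hz' : rk M (insert z A) = rk M A + 1 := by
    rw [eRk_eq, eRk_eq] at hz
    exact_mod_cast hz
  have e : M.closure (insert z A) = C := by
    refine flat_eq M hE (M.isFlat_closure _) hC (closure_sub M hE hC (insert_subset hzC hAC)) ?_
    rw [rk_closure, hz', hr]
  rw [← e]
  exact closure_sub M hE hH (insert_subset hzH hAH)

omit hE in
open Classical in
/-- the flats covering `A` -/
noncomputable def Cov (A : Set (Fin n)) : Finset (Set (Fin n)) :=
  Finset.univ.filter (fun C => M.IsFlat C ∧ A ⊆ C ∧ rk M C = rk M A + 1)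

omit hE in
lemma mem_Cov {A C : Set (Fin n)} :
    C ∈ Cov M A ↔ M.IsFlat C ∧ A ⊆ C ∧ rk M C = rk M A + 1 := by
  simp [Cov]

open Classical in
omit hE in
lemma ncard_eq_sum (S : Set (Fin n)) : S.ncard = ∑ z : Fin n, if z ∈ S then 1 else 0 := by
  rw [Set.ncard_eq_toFinset_card', Finset.card_eq_sum_ones, ← Finset.sum_filter]
  congr 1
  ext z; simp

lemma sum_cov {A : Set (Fin n)} (hA : M.IsFlat A) (X : Set (Fin n)) :
    ∑ C ∈ Cov M A, ((X ∩ C) \ A).ncard = (X \ A).ncard := by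
  classical
  simp only [ncard_eq_sum]
  rw [Finset.sum_comm]
  refine Finset.sum_congr rfl (fun z _ => ?_)
  by_cases hz : z ∈ X \ A
  · obtain ⟨C, hC, hAC, hzC, hr⟩ := exists_cov M hE hA hz.2
    rw [if_pos hz, Finset.sum_eq_single C]
    · rw [if_pos ⟨⟨hz.1, hzC⟩, hz.2⟩]
    · intro D hD hDC
      rw [if_neg]
      rintro ⟨⟨_, hzD⟩, _⟩
      rw [mem_Cov] at hD
      apply hDC
      have h1 : D ⊆ C := cov_sub M hE hA hD.1 hD.2.1 hD.2.2 hzD hz.2 hC hAC hzC
      exact flat_eq M hE hD.1 hC h1 (by rw [hr, hD.2.2])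
    · intro h
      exact absurd ((mem_Cov M).2 ⟨hC, hAC, hr⟩) h
  · rw [if_neg hz]
    refine Finset.sum_eq_zero (fun C _ => if_neg ?_)
    rintro ⟨⟨h1, _⟩, h2⟩
    exact hz ⟨h1, h2⟩

open Classical in
/-- number of covers of `A` inside a flat `H`, when all of them have `A.ncard + w` points -/
lemma count_in {A H : Set (Fin n)} (hA : M.IsFlat A) (hH : M.IsFlat H) (hAH : A ⊆ H) (w : ℕ)
    (hw : ∀ C ∈ Cov M A, C.ncard = A.ncard + w) :
    ((Cov M A).filter (fun C => C ⊆ H)).card * w + A.ncard = H.ncard := by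
  have h := sum_cov M hE hA H
  have h2 : ∑ C ∈ Cov M A, ((H ∩ C) \ A).ncard =
      ∑ C ∈ Cov M A, if C ⊆ H then w else 0 := by
    refine Finset.sum_congr rfl (fun C hC => ?_)
    have hC' := (mem_Cov M).1 hC
    split_ifs with hCH
    · rw [inter_eq_self_of_subset_right hCH, Set.ncard_sdiff hC'.2.1 (Set.toFinite _), hw C hC]
      omega
    · rw [Set.ncard_eq_zero (Set.toFinite _)]
      by_contra hne
      obtain ⟨z, ⟨hzH, hzC⟩, hzA⟩ := Set.nonempty_iff_ne_empty.2 hne
      exact hCH (cov_sub M hE hA hC'.1 hC'.2.1 hC'.2.2 hzC hzA hH hAH hzH)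
  rw [h2, ← Finset.sum_filter, Finset.sum_const, smul_eq_mul, Set.ncard_sdiff hAH (Set.toFinite _)] at h
  have := Set.ncard_le_ncard hAH (Set.toFinite _)
  omega

open Classical in
/-- The local structure above a flat `F ⊆ B` of corank three.  `F` has rank `f` and `φ` points,
flats of rank `f+1` have `φ+w` points, hyperplanes (rank `f+2`) have `k` points, and every
hyperplane through `F` which meets `B` in more than `F` meets it in exactly `φ+w` points. -/
theorem core (f φ w k : ℕ) (hr : rk M univ = f + 3)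
    (hs : ∀ P, M.IsFlat P → rk M P = f + 1 → P.ncard = φ + w)
    (hk : ∀ H, M.IsFlat H → rk M H = f + 2 → H.ncard = k)
    (B F : Set (Fin n)) (hF : M.IsFlat F) (hFf : rk M F = f) (hFφ : F.ncard = φ) (hFB : F ⊆ B)
    (hB : B.ncard = k)
    (hT : ∀ H, M.IsFlat H → rk M H = f + 2 → F ⊆ H → φ < (B ∩ H).ncard →
      (B ∩ H).ncard = φ + w) :
    ∃ K β, 2 ≤ K ∧ K * w + φ = k ∧ K * β = w ∧ 1 ≤ w ∧
      K * K * w + φ = (univ : Set (Fin n)).ncard := by
  -- a first flat of rank f+1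
  obtain ⟨z1, hz1⟩ : ∃ z, z ∉ F := by
    by_contra hc
    push Not at hc
    have : F = univ := eq_univ_of_forall hc
    rw [this] at hFf; omega
  obtain ⟨P1, hP1, hFP1, hzP1, hrP1⟩ := exists_cov M hE hF hz1
  rw [hFf] at hrP1
  obtain ⟨z2, hz2⟩ : ∃ z, z ∉ P1 := by
    by_contra hc
    push Not at hc
    have : P1 = univ := eq_univ_of_forall hc
    rw [this] at hrP1; omega
  obtain ⟨H2, hH2, hPH2, hzH2, hrH2⟩ := exists_cov M hE hP1 hz2
  rw [hrP1] at hrH2
  have hw1 : 1 ≤ w := by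
    have h1 := hs P1 hP1 hrP1
    have h2 := Set.ncard_lt_ncard (ssubset_of_subset_of_ne hFP1 (fun h => hz1 (h ▸ hzP1)))
      (Set.toFinite _)
    omega
  have hkw : φ + w < k := by
    have h1 := hk H2 hH2 hrH2
    have h2 := Set.ncard_lt_ncard (ssubset_of_subset_of_ne hPH2 (fun h => hz2 (h ▸ hzH2)))
      (Set.toFinite _)
    have h3 := hs P1 hP1 hrP1
    omega
  -- a point of B outside F and the flat it generates
  obtain ⟨z0, hz0B, hz0F⟩ : ∃ z ∈ B, z ∉ F :=
    Set.exists_mem_notMem_of_ncard_lt_ncard (by omega) (Set.toFinite _)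
  obtain ⟨P0, hP0, hFP0, hzP0, hrP0⟩ := exists_cov M hE hF hz0F
  have hP0c : P0 ∈ Cov M F := (mem_Cov M).2 ⟨hP0, hFP0, hrP0⟩
  rw [hFf] at hrP0
  have huniv : M.IsFlat univ := by rw [← hE]; exact M.ground_isFlat
  have hb : ∀ P, F ⊆ P → φ ≤ (B ∩ P).ncard := fun P hP => by
    rw [← hFφ]; exact Set.ncard_le_ncard (subset_inter hFB hP) (Set.toFinite _)
  have hb0 : φ < (B ∩ P0).ncard := by
    rw [← hFφ]
    refine Set.ncard_lt_ncard (ssubset_of_subset_of_ne (subset_inter hFB hFP0) ?_) (Set.toFinite _)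
    intro h
    exact hz0F (h ▸ ⟨hz0B, hzP0⟩)
  -- covers of rank f+1 flats
  have hCovP : ∀ P ∈ Cov M F, ∀ H ∈ Cov M P, H.ncard = k ∧ rk M H = f + 2 ∧ M.IsFlat H ∧ P ⊆ H
      ∧ F ⊆ H := by
    intro P hP H hH
    rw [mem_Cov] at hP hH
    have : rk M H = f + 2 := by omega
    exact ⟨hk H hH.1 this, this, hH.1, hH.2.1, hP.2.1.trans hH.2.1⟩
  have hPs : ∀ P ∈ Cov M F, P.ncard = φ + w ∧ M.IsFlat P ∧ F ⊆ P := by
    intro P hP
    rw [mem_Cov] at hP
    exact ⟨hs P hP.1 (by omega), hP.1, hP.2.1⟩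
  have hRa : ∀ P ∈ Cov M F, (Cov M P).card * (k - (φ + w)) + (φ + w) = (univ : Set (Fin n)).ncard := by
    intro P hP
    have h1 := count_in M hE (hPs P hP).2.1 huniv (subset_univ _) (k - (φ + w)) (by
      intro C hC
      rw [(hPs P hP).1, (hCovP P hP C hC).1]; omega)
    rw [(hPs P hP).1] at h1
    rw [← h1]
    congr 3
    rw [Finset.filter_true_of_mem (fun _ _ => subset_univ _)]
  obtain ⟨R, hR⟩ : ∃ R, R = (Cov M P0).card := ⟨_, rfl⟩
  have hRc : ∀ P ∈ Cov M F, (Cov M P).card = R := by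
    intro P hP
    have h1 := hRa P hP
    have h2 := hRa P0 hP0c
    have h3 : (Cov M P).card * (k - (φ + w)) = (Cov M P0).card * (k - (φ + w)) := by omega
    rw [hR]
    exact Nat.eq_of_mul_eq_mul_right (by omega) h3
  -- number of points of B in the flats of rank f+1
  have hRb : ∀ P ∈ Cov M F, φ < (B ∩ P).ncard →
      (B ∩ P).ncard < φ + w ∧ R * (φ + w - (B ∩ P).ncard) + (B ∩ P).ncard = k := by
    intro P hP hbP
    have h1 := sum_cov M hE (hPs P hP).2.1 B
    have h2 : ∀ H ∈ Cov M P, ((B ∩ H) \ P).ncard = φ + w - (B ∩ P).ncard := by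
      intro H hH
      obtain ⟨c1, c2, c3, c4, c5⟩ := hCovP P hP H hH
      have e : (B ∩ H) \ P = (B ∩ H) \ (B ∩ P) := by
        ext x; simp only [mem_sdiff, mem_inter_iff]; tauto
      have hle : (B ∩ P).ncard ≤ (B ∩ H).ncard :=
        Set.ncard_le_ncard (inter_subset_inter_right B c4) (Set.toFinite _)
      rw [e, Set.ncard_sdiff (inter_subset_inter_right B c4) (Set.toFinite _),
        hT H c3 c2 c5 (by omega)]
    rw [Finset.sum_congr rfl h2, Finset.sum_const, smul_eq_mul, hRc P hP] at h1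
    have e : B \ P = B \ (B ∩ P) := by ext x; simp
    rw [e, Set.ncard_sdiff inter_subset_left (Set.toFinite _), hB] at h1
    have h3 : (B ∩ P).ncard ≤ φ + w := by
      rw [← (hPs P hP).1]; exact Set.ncard_le_ncard inter_subset_right (Set.toFinite _)
    have h4 : (B ∩ P).ncard ≤ k := by
      rw [← hB]; exact Set.ncard_le_ncard inter_subset_left (Set.toFinite _)
    have h5 : (B ∩ P).ncard ≠ φ + w := by
      intro h; rw [h] at h1; simp at h1; omega
    exact ⟨by omega, by omega⟩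
  obtain ⟨b, hbdef⟩ : ∃ b, b = (B ∩ P0).ncard := ⟨_, rfl⟩
  obtain ⟨hb1, hb2⟩ := hRb P0 hP0c hb0
  rw [← hbdef] at hb1 hb2 hb0
  have hbc : ∀ P ∈ Cov M F, φ < (B ∩ P).ncard → (B ∩ P).ncard = b := by
    intro P hP hbP
    obtain ⟨g1, g2⟩ := hRb P hP hbP
    generalize (B ∩ P).ncard = b' at g1 g2 hbP
    by_contra hne
    have hR1 : R ≠ 1 := by rintro rfl; omega
    obtain ⟨x, hx⟩ : ∃ x, φ + w = b + x := ⟨φ + w - b, by omega⟩
    obtain ⟨y, hy⟩ : ∃ y, φ + w = b' + y := ⟨φ + w - b', by omega⟩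
    have e1 : φ + w - b = x := by omega
    have e2 : φ + w - b' = y := by omega
    rw [e1] at hb2
    rw [e2] at g2
    have hxy : x ≠ y := by omega
    have : (R : ℤ) * (x - y) = x - y := by
      have q1 : (R : ℤ) * x + b = k := by exact_mod_cast hb2
      have q2 : (R : ℤ) * y + b' = k := by exact_mod_cast g2
      have q3 : (b : ℤ) + x = b' + y := by exact_mod_cast (by omega : b + x = b' + y)
      linear_combination q1 - q2 - q3
    have hne' : ((x : ℤ) - y) ≠ 0 := by
      intro h; apply hxy; exact_mod_cast (sub_eq_zero.1 h)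
    have : (R : ℤ) = 1 := by
      apply mul_right_cancel₀ hne'
      rw [this, one_mul]
    exact hR1 (by exact_mod_cast this)
  -- a hyperplane through P0
  obtain ⟨z3, hz3⟩ : ∃ z, z ∉ P0 := by
    by_contra hc
    push Not at hc
    have : P0 = univ := eq_univ_of_forall hc
    rw [this] at hrP0; omega
  obtain ⟨H1, hH1, hPH1, hzH1, hrH1⟩ := exists_cov M hE hP0 hz3
  rw [hrP0] at hrH1
  have hFH1 : F ⊆ H1 := hFP0.trans hPH1
  have hbH1 : (B ∩ H1).ncard = φ + w := by
    refine hT H1 hH1 hrH1 hFH1 ?_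
    have : (B ∩ P0).ncard ≤ (B ∩ H1).ncard :=
      Set.ncard_le_ncard (inter_subset_inter_right B hPH1) (Set.toFinite _)
    omega
  -- K
  have hKH : ∀ H, M.IsFlat H → rk M H = f + 2 → F ⊆ H →
      ((Cov M F).filter (fun C => C ⊆ H)).card * w + φ = k := by
    intro H hH hrH hFH
    have := count_in M hE hF hH hFH w (by intro C hC; rw [hFφ]; exact (hPs C hC).1)
    rw [hFφ, hk H hH hrH] at this
    exact this
  obtain ⟨K, hKdef⟩ : ∃ K, K = ((Cov M F).filter (fun C => C ⊆ H1)).card := ⟨_, rfl⟩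
  have hK := hKH H1 hH1 hrH1 hFH1
  rw [← hKdef] at hK
  have hKc : ∀ H, M.IsFlat H → rk M H = f + 2 → F ⊆ H →
      ((Cov M F).filter (fun C => C ⊆ H)).card = K := by
    intro H hH hrH hFH
    have h1 := hKH H hH hrH hFH
    have h2 : ((Cov M F).filter (fun C => C ⊆ H)).card * w = K * w := by omega
    exact Nat.eq_of_mul_eq_mul_right hw1 h2
  -- m
  obtain ⟨m, hmdef⟩ : ∃ m, m = ((Cov M F).filter (fun C => C ⊆ H1 ∧ φ < (B ∩ C).ncard)).card :=
    ⟨_, rfl⟩
  have hm : m * (b - φ) = w := by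
    have h1 := sum_cov M hE hF (B ∩ H1)
    have h2 : ∑ C ∈ Cov M F, ((B ∩ H1 ∩ C) \ F).ncard =
        ∑ C ∈ Cov M F, if (C ⊆ H1 ∧ φ < (B ∩ C).ncard) then (b - φ) else 0 := by
      refine Finset.sum_congr rfl (fun C hC => ?_)
      split_ifs with hc
      · have e : (B ∩ H1 ∩ C) = B ∩ C := by
          rw [inter_assoc, inter_eq_self_of_subset_right hc.1]
        rw [e, Set.ncard_sdiff (subset_inter hFB (hPs C hC).2.2) (Set.toFinite _), hFφ,
          hbc C hC hc.2]
      · rw [Set.ncard_eq_zero (Set.toFinite _)]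
        by_contra hne
        obtain ⟨z, ⟨⟨hzB, hzH⟩, hzC⟩, hzF⟩ := Set.nonempty_iff_ne_empty.2 hne
        have hC' := (mem_Cov M).1 hC
        refine hc ⟨cov_sub M hE hF hC'.1 hC'.2.1 hC'.2.2 hzC hzF hH1 hFH1 hzH, ?_⟩
        rw [← hFφ]
        refine Set.ncard_lt_ncard (ssubset_of_subset_of_ne
          (subset_inter hFB hC'.2.1) ?_) (Set.toFinite _)
        intro h
        exact hzF (h ▸ ⟨hzB, hzC⟩)
    rw [h2, ← Finset.sum_filter, Finset.sum_const, smul_eq_mul, ← hmdef,
      Set.ncard_sdiff (subset_inter hFB hFH1) (Set.toFinite _), hFφ, hbH1] at h1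
    omega
  -- V
  obtain ⟨V, hVdef⟩ : ∃ V, V = (Cov M F).card := ⟨_, rfl⟩
  have hV : V * w + φ = (univ : Set (Fin n)).ncard := by
    have h1 := count_in M hE hF huniv (subset_univ _) w
      (by intro C hC; rw [hFφ]; exact (hPs C hC).1)
    rw [hFφ, Finset.filter_true_of_mem (fun _ _ => subset_univ _), ← hVdef] at h1
    exact h1
  -- N
  obtain ⟨Hs, hHs⟩ : ∃ Hs : Finset (Set (Fin n)), Hs =
      Finset.univ.filter (fun H => M.IsFlat H ∧ F ⊆ H ∧ rk M H = f + 2) := ⟨_, rfl⟩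
  have hN : Hs.card * K = V * R := by
    have h1 := Finset.sum_card_bipartiteAbove_eq_sum_card_bipartiteBelow
      (s := Hs) (t := Cov M F) (fun (H P : Set (Fin n)) => P ⊆ H)
    have h2 : ∀ H ∈ Hs, (Finset.bipartiteAbove (fun (H P : Set (Fin n)) => P ⊆ H) (Cov M F) H).card = K := by
      intro H hH
      rw [hHs, Finset.mem_filter] at hH
      exact hKc H hH.2.1 hH.2.2.2 hH.2.2.1
    have h3 : ∀ P ∈ Cov M F, (Finset.bipartiteBelow (fun (H P : Set (Fin n)) => P ⊆ H) Hs P).card = R := by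
      intro P hP
      rw [← hRc P hP]
      congr 1
      ext H
      rw [Finset.mem_bipartiteBelow, hHs, Finset.mem_filter, mem_Cov]
      have hP' := (mem_Cov M).1 hP
      constructor
      · rintro ⟨⟨-, a, b, c⟩, d⟩
        exact ⟨a, d, by omega⟩
      · rintro ⟨a, b, c⟩
        exact ⟨⟨Finset.mem_univ _, a, hP'.2.1.trans b, by omega⟩, b⟩
    rw [Finset.sum_congr rfl h2, Finset.sum_congr rfl h3, Finset.sum_const, Finset.sum_const,
      smul_eq_mul, smul_eq_mul, ← hVdef] at h1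
    exact h1
  -- arithmetic
  have hK2 : 2 ≤ K := by
    by_contra hc
    have : K ≤ 1 := by omega
    have : K * w ≤ 1 * w := Nat.mul_le_mul_right w this
    omega
  obtain ⟨β, hβ⟩ : ∃ β, b = φ + β := ⟨b - φ, by omega⟩
  have hβ1 : 1 ≤ β := by omega
  have hmβ : m * β = w := by rw [← hm]; congr 1; omega
  have hm1 : 1 ≤ m := by
    rcases Nat.eq_zero_or_pos m with h | h
    · rw [h] at hmβ; omega
    · exact h
  have key1 : R * m + 1 = K * m + R := by
    have e : φ + w - b = w - β := by omega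
    rw [e, hβ] at hb2
    have hβw : β ≤ w := by omega
    have q1 : (R : ℤ) * (w - β) + (φ + β) = K * w + φ := by
      have : R * (w - β) + (φ + β) = K * w + φ := by omega
      have t := congrArg (Nat.cast (R := ℤ)) this
      push_cast [Nat.cast_sub hβw] at t
      exact t
    have q2 : (m : ℤ) * β = w := by exact_mod_cast hmβ
    have q3 : ((R : ℤ) * m + 1) * β = (K * m + R) * β := by
      linear_combination q1 + (R - K : ℤ) * q2
    have hβ0 : (β : ℤ) ≠ 0 := by exact_mod_cast (by omega : β ≠ 0)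
    exact_mod_cast mul_right_cancel₀ hβ0 q3
  have key2 : Hs.card * K = (1 + R * (K - 1)) * R := by
    rw [hN]
    congr 1
    have h1 := hRa P0 hP0c
    rw [← hR, ← hV] at h1
    have hK1 : 1 ≤ K := by omega
    have e : k - (φ + w) = (K - 1) * w := by
      have : (K - 1) * w + w = K * w := by
        conv_rhs => rw [← Nat.sub_add_cancel hK1]
        ring
      omega
    rw [e] at h1
    have : (1 + R * (K - 1)) * w = V * w := by
      have : R * ((K - 1) * w) + w = V * w := by omega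
      rw [← this]; ring
    exact (Nat.eq_of_mul_eq_mul_right hw1 this).symm
  have hmK := nt m K R Hs.card hm1 hK2 key1 key2
  have hRK : R = K + 1 := by
    rw [hmK] at key1
    obtain ⟨c, rfl⟩ : ∃ c, K = c + 1 := ⟨K - 1, by omega⟩
    have hc : 0 < c := by omega
    have : R * c = (c + 1 + 1) * c := by
      clear * - key1
      linarith
    exact Nat.eq_of_mul_eq_mul_right hc this
  refine ⟨K, β, hK2, hK, by rw [← hmK]; exact hmβ, hw1, ?_⟩
  have h1 := hRa P0 hP0c
  rw [← hR, hRK] at h1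
  have hK1 : 1 ≤ K := by omega
  obtain ⟨c, rfl⟩ : ∃ c, K = c + 1 := ⟨K - 1, by omega⟩
  have e : k - (φ + w) = c * w := by
    have : (c + 1) * w = c * w + w := by ring
    omega
  rw [e] at h1
  rw [← h1]
  ring

omit hE in
/-- the second piece of arithmetic -/
lemma nt2 (q K N : ℕ) (hq : 1 ≤ q) (hK : 2 ≤ K)
    (h : N * (1 + q * K) = (1 + q * K * K) * (K * (K + 1))) : q = 1 := by
  have h1 : ((1 : ℤ) + q * K) ∣ (K : ℤ) * (((K : ℤ) - 1) * (K + 1)) := by
    refine ⟨(K * (K + 1) * K - N : ℤ), ?_⟩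
    have t : (N : ℤ) * (1 + q * K) = (1 + q * K * K) * (K * (K + 1)) := by exact_mod_cast h
    linear_combination t
  have cop : IsCoprime ((1 : ℤ) + q * K) (K : ℤ) := ⟨1, -q, by ring⟩
  obtain ⟨s, hs⟩ := cop.dvd_of_dvd_mul_left h1
  have hK' : (2 : ℤ) ≤ K := by exact_mod_cast hK
  have hq' : (1 : ℤ) ≤ q := by exact_mod_cast hq
  have hpos : (0 : ℤ) < ((K : ℤ) - 1) * (K + 1) := by nlinarith
  have hs1 : 0 < s := by
    rw [hs] at hpos
    have h3 : (0 : ℤ) < 1 + q * K := by nlinarith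
    by_contra hc
    have : s ≤ 0 := by omega
    nlinarith
  have d : (K : ℤ) ∣ s + 1 := ⟨K - s * q, by linear_combination (-1 : ℤ) * hs⟩
  have hle : (K : ℤ) ≤ s + 1 := Int.le_of_dvd (by omega) d
  by_contra hne
  have hq2 : (2 : ℤ) ≤ q := by
    have : 2 ≤ q := by omega
    exact_mod_cast this
  have : ((K : ℤ) - 1) * (K + 1) ≥ (1 + 2 * K) * (K - 1) := by
    rw [hs]
    have a1 : (1 + 2 * (K : ℤ)) ≤ 1 + q * K := by nlinarith
    have a2 : (K : ℤ) - 1 ≤ s := by omega
    nlinarith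
  nlinarith

variable (hsame : ∀ F₁ F₂ : Set (Fin n), M.IsFlat F₁ → M.IsFlat F₂ → rk M F₁ = rk M F₂ →
  F₁.ncard = F₂.ncard)

omit hE in
include hsame in
lemma exists_size : ∃ α : ℕ → ℕ, ∀ F, M.IsFlat F → F.ncard = α (rk M F) := by
  classical
  refine ⟨fun i => if h : ∃ F, M.IsFlat F ∧ rk M F = i then (Classical.choose h).ncard else 0, ?_⟩
  intro F hF
  have h : ∃ G, M.IsFlat G ∧ rk M G = rk M F := ⟨F, hF, rfl⟩
  simp only [dif_pos h]
  have := Classical.choose_spec h
  exact hsame F _ hF this.1 this.2.symm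

/-- there are flats of each rank up to the rank of the matroid -/
lemma exists_flat (r : ℕ) (hr : rk M univ = r) (i : ℕ) (hi : i ≤ r) :
    ∃ F, M.IsFlat F ∧ rk M F = i := by
  induction i with
  | zero =>
    refine ⟨M.closure ∅, M.isFlat_closure _, ?_⟩
    rw [rk_closure]
    have := rk_le M (∅ : Set (Fin n))
    simpa using this
  | succ i ih =>
    obtain ⟨F, hF, hFi⟩ := ih (by omega)
    obtain ⟨z, hz⟩ : ∃ z, z ∉ F := by
      by_contra hc
      push Not at hc
      have : F = univ := eq_univ_of_forall hc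
      rw [this] at hFi; omega
    obtain ⟨C, hC, -, -, hCr⟩ := exists_cov M hE hF hz
    exact ⟨C, hC, by omega⟩

lemma exists_above {r : ℕ} (hr : rk M univ = r) {A : Set (Fin n)} (hA : M.IsFlat A)
    (h : rk M A < r) : ∃ C, C ∈ Cov M A := by
  obtain ⟨z, hz⟩ : ∃ z, z ∉ A := by
    by_contra hc
    push Not at hc
    have : A = univ := eq_univ_of_forall hc
    rw [this] at h; omega
  obtain ⟨C, hC, h1, -, hCr⟩ := exists_cov M hE hA hz
  exact ⟨C, (mem_Cov M).2 ⟨hC, h1, hCr⟩⟩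

open Classical in
/-- Fisher type inequality -/
lemma fisher {G P H : Set (Fin n)} (hG : M.IsFlat G) (hP : M.IsFlat P) (hH : M.IsFlat H)
    (hGP : G ⊆ P) (hPH : P ⊆ H) (hr1 : rk M P = rk M G + 2) (hr2 : rk M H = rk M G + 3) :
    ∃ A ∈ Cov M G, A ⊆ H ∧ ((Cov M G).filter (fun C => C ⊆ P)).card ≤
      ((Cov M A).filter (fun C => C ⊆ H)).card := by
  obtain ⟨z, hzH, hzP⟩ : ∃ z ∈ H, z ∉ P := by
    by_contra hc
    push Not at hc
    have := rk_mono M (show H ⊆ P from hc)
    omega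
  obtain ⟨A, hA, hGA, hzA, hAr⟩ := exists_cov M hE hG (fun h => hzP (hGP h) : z ∉ G)
  have hAH : A ⊆ H := cov_sub M hE hG hA hGA hAr hzA (fun h => hzP (hGP h)) hH (hGP.trans hPH) hzH
  refine ⟨A, (mem_Cov M).2 ⟨hA, hGA, hAr⟩, hAH, ?_⟩
  -- the flat generated by `Y` and `z`
  have hQ : ∀ Y ∈ (Cov M G).filter (fun C => C ⊆ P), ∃ Q, M.IsFlat Q ∧ Y ⊆ Q ∧ z ∈ Q ∧
      rk M Q = rk M G + 2 ∧ A ⊆ Q ∧ Q ⊆ H := by
    intro Y hY
    rw [Finset.mem_filter, mem_Cov] at hY
    obtain ⟨⟨h1, h2, h3⟩, h4⟩ := hY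
    obtain ⟨Q, q1, q2, q3, q4⟩ := exists_cov M hE h1 (fun h => hzP (h4 h) : z ∉ Y)
    refine ⟨Q, q1, q2, q3, by omega, ?_, ?_⟩
    · exact cov_sub M hE hG hA hGA hAr hzA (fun h => hzP (hGP h)) q1 (h2.trans q2) q3
    · exact cov_sub M hE h1 q1 q2 q4 q3 (fun h => hzP (h4 h)) hH (h4.trans hPH) hzH
  choose! Q hQ using hQ
  refine Finset.card_le_card_of_injOn Q ?_ ?_
  · intro Y hY
    obtain ⟨q1, q2, q3, q4, q5, q6⟩ := hQ Y hY
    simp only [Finset.coe_filter, mem_ofPred_eq, mem_Cov]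
    exact ⟨⟨q1, q5, by omega⟩, q6⟩
  · intro Y hY Y' hY' hEq
    obtain ⟨q1, q2, q3, q4, q5, q6⟩ := hQ Y hY
    obtain ⟨q1', q2', q3', q4', q5', q6'⟩ := hQ Y' hY'
    have hY0 := hY
    have hY0' := hY'
    simp only [Finset.coe_filter, mem_ofPred_eq, mem_Cov] at hY0 hY0'
    by_contra hne
    obtain ⟨y, hyY', hyY⟩ : ∃ y ∈ Y', y ∉ Y := by
      by_contra hc
      push Not at hc
      exact hne (flat_eq M hE hY0'.1.1 hY0.1.1 hc (by omega)).symm
    obtain ⟨C, c1, c2, c3, c4⟩ := exists_cov M hE hY0.1.1 hyY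
    have hCP : C ⊆ P := cov_sub M hE hY0.1.1 c1 c2 c4 c3 hyY hP hY0.2 (hY0'.2 hyY')
    have hCP' : C = P := flat_eq M hE c1 hP hCP (by omega)
    have hCQ : C ⊆ Q Y := cov_sub M hE hY0.1.1 c1 c2 c4 c3 hyY q1 q2 (by rw [hEq]; exact q2' hyY')
    have : C = Q Y := flat_eq M hE c1 q1 hCQ (by omega)
    apply hzP
    rw [← hCP', this]
    exact q3

open Classical in
omit hE in
/-- flats of rank `g` above `A` -/
noncomputable def Hyp (g : ℕ) (A : Set (Fin n)) : Finset (Set (Fin n)) :=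
  Finset.univ.filter (fun H => M.IsFlat H ∧ A ⊆ H ∧ rk M H = g)

open Classical in
omit hE in
lemma dc (g x c : ℕ) {A : Set (Fin n)}
    (hx : ∀ H, M.IsFlat H → rk M H = g → A ⊆ H →
      ((Cov M A).filter (fun C => C ⊆ H)).card = x)
    (hc : ∀ P ∈ Cov M A, (Hyp M g P).card = c) :
    (Hyp M g A).card * x = (Cov M A).card * c := by
  have h1 := Finset.sum_card_bipartiteAbove_eq_sum_card_bipartiteBelow
    (s := Hyp M g A) (t := Cov M A) (fun (H P : Set (Fin n)) => P ⊆ H)
  have h2 : ∀ H ∈ Hyp M g A,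
      (Finset.bipartiteAbove (fun (H P : Set (Fin n)) => P ⊆ H) (Cov M A) H).card = x := by
    intro H hH
    rw [Hyp, Finset.mem_filter] at hH
    exact hx H hH.2.1 hH.2.2.2 hH.2.2.1
  have h3 : ∀ P ∈ Cov M A,
      (Finset.bipartiteBelow (fun (H P : Set (Fin n)) => P ⊆ H) (Hyp M g A) P).card = c := by
    intro P hP
    rw [← hc P hP]
    congr 1
    ext H
    rw [Finset.mem_bipartiteBelow, Hyp, Hyp, Finset.mem_filter, Finset.mem_filter]
    have hP' := (mem_Cov M).1 hP
    constructor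
    · rintro ⟨⟨-, a, b, c⟩, d⟩
      exact ⟨Finset.mem_univ _, a, d, c⟩
    · rintro ⟨-, a, b, c⟩
      exact ⟨⟨Finset.mem_univ _, a, hP'.2.1.trans b, c⟩, b⟩
  rw [Finset.sum_congr rfl h2, Finset.sum_congr rfl h3, Finset.sum_const, Finset.sum_const,
    smul_eq_mul, smul_eq_mul] at h1
  exact h1

lemma step (r : ℕ) (hr : rk M univ = r) (α : ℕ → ℕ) (hα : ∀ F, M.IsFlat F → F.ncard = α (rk M F))
    (i : ℕ) (hi : i + 3 ≤ r) (h : α (i + 3) + α (i + 1) = α (i + 2) + α (i + 2)) :
    α (i + 2) + α i = α (i + 1) + α (i + 1) := by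
  classical
  obtain ⟨G, hG, hGi⟩ := exists_flat M hE r hr i (by omega)
  obtain ⟨P1, hP1⟩ := exists_above M hE hr hG (by omega)
  rw [mem_Cov] at hP1
  obtain ⟨P, hP⟩ := exists_above M hE hr hP1.1 (by omega)
  rw [mem_Cov] at hP
  obtain ⟨H, hH⟩ := exists_above M hE hr hP.1 (by omega)
  rw [mem_Cov] at hH
  obtain ⟨A, hA, hAH, hle⟩ := fisher M hE hG hP.1 hH.1 (hP1.2.1.trans hP.2.1) hH.2.1
    (by omega) (by omega)
  have hA' := (mem_Cov M).1 hA
  have lt : ∀ {X Y : Set (Fin n)}, M.IsFlat X → M.IsFlat Y → X ⊆ Y → rk M X < rk M Y →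
      α (rk M X) < α (rk M Y) := by
    intro X Y hX hY hXY hlt
    rw [← hα X hX, ← hα Y hY]
    exact Set.ncard_lt_ncard (ssubset_of_subset_of_ne hXY (fun h => by rw [h] at hlt; omega))
      (Set.toFinite _)
  have l1 := lt hG hP1.1 hP1.2.1 (by omega)
  have l2 := lt hP1.1 hP.1 hP.2.1 (by omega)
  have l3 := lt hP.1 hH.1 hH.2.1 (by omega)
  have rP1 : rk M P1 = i + 1 := by omega
  have rP : rk M P = i + 2 := by omega
  have rH : rk M H = i + 3 := by omega
  have rA : rk M A = i + 1 := by omega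
  rw [hGi, rP1] at l1
  rw [rP1, rP] at l2
  rw [rP, rH] at l3
  have c1 := count_in M hE hG hP.1 (hP1.2.1.trans hP.2.1) (α (i + 1) - α i) (by
    intro C hC
    have := (mem_Cov M).1 hC
    rw [hα C this.1, hα G hG, this.2.2, hGi]; omega)
  have c2 := count_in M hE hA'.1 hH.1 hAH (α (i + 2) - α (i + 1)) (by
    intro C hC
    have := (mem_Cov M).1 hC
    rw [hα C this.1, hα A hA'.1, this.2.2, rA, show i + 1 + 1 = i + 2 from rfl]; omega)
  rw [hα G hG, hα P hP.1, hGi, rP] at c1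
  rw [hα A hA'.1, hα H hH.1, rA, rH] at c2
  generalize ((Cov M G).filter (fun C => C ⊆ P)).card = x at c1 hle
  generalize ((Cov M A).filter (fun C => C ⊆ H)).card = y at c2 hle
  obtain ⟨a, ha⟩ : ∃ a, α (i + 1) = α i + a := ⟨α (i + 1) - α i, by omega⟩
  obtain ⟨b, hb⟩ : ∃ b, α (i + 2) = α (i + 1) + b := ⟨α (i + 2) - α (i + 1), by omega⟩
  have hb0 : 0 < b := by omega
  have ha0 : 0 < a := by omega
  have e1 : α (i + 1) - α i = a := by omega
  have e2 : α (i + 2) - α (i + 1) = b := by omega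
  rw [e1] at c1
  rw [e2] at c2
  have hy : y * b = 2 * b := by omega
  have hy2 : y = 2 := Nat.eq_of_mul_eq_mul_right hb0 hy
  have hx : x * a = a + b := by omega
  have hx2 : x ≤ 2 := by omega
  have : x * a ≤ 2 * a := Nat.mul_le_mul_right a hx2
  have hx3 : 2 ≤ x := by
    by_contra hc
    have h1 : x ≤ 1 := by omega
    have : x * a ≤ 1 * a := Nat.mul_le_mul_right a h1
    omega
  have hx4 : x = 2 := by omega
  rw [hx4] at hx
  omega

open Classical in
include hsame in
/-- No `k`-subset containing a flat of rank `r-3` meets all hyperplanes in sizes of lower flats. -/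
theorem main (f : ℕ) (hr : rk M univ = f + 3)
    (h0 : ∀ F, M.IsFlat F → rk M F = 0 → F.ncard = 0)
    (h1 : ∀ F, M.IsFlat F → rk M F = 1 → F.ncard = 1)
    (B F H₀ : Set (Fin n)) (hF : M.IsFlat F) (hFf : rk M F = f) (hFB : F ⊆ B)
    (hH₀ : M.IsFlat H₀) (hrH₀ : rk M H₀ = f + 2) (hB : B.ncard = H₀.ncard)
    (hneg : ∀ H, M.IsFlat H → rk M H = f + 2 →
      ∃ F', M.IsFlat F' ∧ rk M F' ≤ f + 1 ∧ (B ∩ H).ncard = F'.ncard) : False := by
  obtain ⟨α, hα⟩ := exists_size M hsame
  have huniv : M.IsFlat univ := by rw [← hE]; exact M.ground_isFlat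
  have hv : (univ : Set (Fin n)).ncard = α (f + 3) := by rw [hα _ huniv, hr]
  have hlt : ∀ i, i < f + 3 → α i < α (i + 1) := by
    intro i hi
    obtain ⟨G, hG, hGi⟩ := exists_flat M hE _ hr i (by omega)
    obtain ⟨C, hC⟩ := exists_above M hE hr hG (by omega)
    rw [mem_Cov] at hC
    rw [← hGi, ← hC.2.2, ← hα G hG, ← hα C hC.1]
    exact Set.ncard_lt_ncard (ssubset_of_subset_of_ne hC.2.1
      (fun h => by have := hC.2.2; rw [← h] at this; omega)) (Set.toFinite _)
  have hmono : ∀ j, j ≤ f → ∀ i, i ≤ j → α i ≤ α j := by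
    intro j
    induction j with
    | zero => intro _ i hi; rw [Nat.le_zero.1 hi]
    | succ j ih =>
      intro hj i hi
      rcases Nat.lt_or_ge i (j + 1) with h | h
      · exact (ih (by omega) i (by omega)).trans (hlt j (by omega)).le
      · rw [show i = j + 1 by omega]
  have hk : H₀.ncard = α (f + 2) := by rw [hα _ hH₀, hrH₀]
  have l0 := hlt f (by omega)
  have l1 := hlt (f + 1) (by omega)
  have l2 := hlt (f + 2) (by omega)
  obtain ⟨w, hw⟩ : ∃ w, α (f + 1) = α f + w := ⟨α (f + 1) - α f, by omega⟩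
  have hs : ∀ P, M.IsFlat P → rk M P = f + 1 → P.ncard = α f + w := by
    intro P hP hrP; rw [hα P hP, hrP, hw]
  have hkk : ∀ H, M.IsFlat H → rk M H = f + 2 → H.ncard = α (f + 2) := by
    intro P hP hrP; rw [hα P hP, hrP]
  obtain ⟨K, β, hK2, hKk, hKβ, hw1, hKv⟩ := core M hE f (α f) w (α (f + 2)) hr hs hkk B F hF hFf
    (by rw [hα F hF, hFf]) hFB (by rw [hB, hk]) (by
      intro H hH hrH hFH hgt
      obtain ⟨F', hF', hrF', hc⟩ := hneg H hH hrH
      rw [hc, hα F' hF'] at hgt ⊢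
      rcases Nat.lt_or_ge (rk M F') (f + 1) with h | h
      · have := hmono f le_rfl (rk M F') (by omega)
        omega
      · rw [show rk M F' = f + 1 by omega, hw])
  -- it is enough to see that `w = 1`
  suffices hw' : w = 1 by
    rw [hw'] at hKβ
    have := Nat.eq_one_of_mul_eq_one_right hKβ
    omega
  have a0 : α 0 = 0 := by
    obtain ⟨G, hG, hGi⟩ := exists_flat M hE _ hr 0 (by omega)
    have h2 := hα G hG
    rw [hGi] at h2; rw [← h2]; exact h0 G hG hGi
  have a1 : α 1 = 1 := by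
    obtain ⟨G, hG, hGi⟩ := exists_flat M hE _ hr 1 (by omega)
    have h2 := hα G hG
    rw [hGi] at h2; rw [← h2]; exact h1 G hG hGi
  rcases Nat.eq_zero_or_pos f with hf | hf
  · subst hf
    rw [show (0 : ℕ) + 1 = 1 from rfl] at hw
    omega
  obtain ⟨g, rfl⟩ : ∃ g, f = g + 1 := ⟨f - 1, by omega⟩
  -- the number of hyperplanes above a flat of rank f
  have hKK : 0 < K := by omega
  have hN : ∀ A, M.IsFlat A → rk M A = g + 1 → (Hyp M (g + 1 + 2) A).card = K * (K + 1) := by
    intro A hA hrA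
    have hAc : A.ncard = α (g + 1) := by rw [hα A hA, hrA]
    have hCA : ∀ C ∈ Cov M A, C.ncard = A.ncard + w := by
      intro C hC
      have := (mem_Cov M).1 hC
      rw [hAc, hs C this.1 (by omega)]
    have d1 := dc M (g + 1 + 2) K (K + 1) (A := A) (by
      intro H hH hrH hAH
      have := count_in M hE hA hH hAH w hCA
      rw [hAc, hkk H hH hrH] at this
      have e : ((Cov M A).filter (fun C => C ⊆ H)).card * w = K * w := by omega
      exact Nat.eq_of_mul_eq_mul_right hw1 e) (by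
      intro P hP
      have hP' := (mem_Cov M).1 hP
      have hPr : rk M P = g + 1 + 1 := by omega
      have hPc : P.ncard = α (g + 1) + w := hs P hP'.1 hPr
      have eH : Hyp M (g + 1 + 2) P = Cov M P := by
        ext H
        rw [mem_Cov, Hyp, Finset.mem_filter]
        constructor
        · rintro ⟨-, a, b, c⟩; exact ⟨a, b, by omega⟩
        · rintro ⟨a, b, c⟩; exact ⟨Finset.mem_univ _, a, b, by omega⟩
      rw [eH]
      have c1 := count_in M hE hP'.1 huniv (subset_univ _) (α (g + 1 + 2) - (α (g + 1) + w)) (by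
        intro C hC
        have := (mem_Cov M).1 hC
        have l1' : α (g + 1 + 1) < α (g + 1 + 2) := hlt (g + 1 + 1) (by omega)
        rw [hPc, hkk C this.1 (by omega)]; omega)
      rw [Finset.filter_true_of_mem (fun _ _ => subset_univ _), hPc, ← hKv] at c1
      obtain ⟨c, rfl⟩ : ∃ c, K = c + 1 := ⟨K - 1, by omega⟩
      have e : α (g + 1 + 2) - (α (g + 1) + w) = c * w := by
        have : (c + 1) * w = c * w + w := by ring
        omega
      rw [e] at c1
      have e2 : (Cov M P).card * (c * w) = (c + 1 + 1) * (c * w) := by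
        have : (c + 1) * (c + 1) * w = (c + 1 + 1) * (c * w) + w := by ring
        omega
      exact Nat.eq_of_mul_eq_mul_right (Nat.mul_pos (by omega) hw1) e2)
    have c2 := count_in M hE hA huniv (subset_univ _) w hCA
    rw [Finset.filter_true_of_mem (fun _ _ => subset_univ _), hAc, ← hKv] at c2
    have c3 : (Cov M A).card = K * K := by
      have e : (Cov M A).card * w = K * K * w := by omega
      exact Nat.eq_of_mul_eq_mul_right hw1 e
    rw [c3] at d1
    have e : (Hyp M (g + 1 + 2) A).card * K = K * (K + 1) * K := by rw [d1]; ring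
    exact Nat.eq_of_mul_eq_mul_right hKK e
  -- the flats of rank f-1
  obtain ⟨w0, hw0⟩ : ∃ w0, α (g + 1) = α g + w0 := ⟨α (g + 1) - α g, by
    have := hlt g (by omega); omega⟩
  have hw00 : 0 < w0 := by have := hlt g (by omega); omega
  obtain ⟨G, hG, hGg⟩ := exists_flat M hE _ hr g (by omega)
  have hGc : G.ncard = α g := by rw [hα G hG, hGg]
  have hCG : ∀ C ∈ Cov M G, C.ncard = G.ncard + w0 := by
    intro C hC
    have := (mem_Cov M).1 hC
    rw [hGc, hα C this.1, this.2.2, hGg, hw0]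
  obtain ⟨A1, hA1⟩ := exists_above M hE hr hG (by omega)
  rw [mem_Cov] at hA1
  obtain ⟨P1, hP1⟩ := exists_above M hE hr hA1.1 (by omega)
  rw [mem_Cov] at hP1
  have cq := count_in M hE hG hP1.1 (hA1.2.1.trans hP1.2.1) w0 hCG
  rw [hGc, hs P1 hP1.1 (by omega)] at cq
  obtain ⟨q, hq⟩ : ∃ q, ((Cov M G).filter (fun C => C ⊆ P1)).card = q + 1 := by
    refine ⟨((Cov M G).filter (fun C => C ⊆ P1)).card - 1, ?_⟩
    have : ((Cov M G).filter (fun C => C ⊆ P1)).card ≠ 0 := by
      intro h; rw [h] at cq; omega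
    omega
  rw [hq] at cq
  have hqw : q * w0 = w := by
    have : (q + 1) * w0 = q * w0 + w0 := by ring
    omega
  have hq1 : 1 ≤ q := by
    rcases Nat.eq_zero_or_pos q with h | h
    · rw [h] at hqw; omega
    · exact h
  have d2 := dc M (g + 1 + 2) (1 + q * K) (K * (K + 1)) (A := G) (by
    intro H hH hrH hGH
    have := count_in M hE hG hH hGH w0 hCG
    rw [hGc, hkk H hH hrH, ← hKk, ← hqw] at this
    have e : ((Cov M G).filter (fun C => C ⊆ H)).card * w0 = (1 + q * K) * w0 := by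
      have : (1 + q * K) * w0 = w0 + K * (q * w0) := by ring
      omega
    exact Nat.eq_of_mul_eq_mul_right hw00 e) (by
    intro P hP
    have hP' := (mem_Cov M).1 hP
    exact hN P hP'.1 (by omega))
  have c4 : (Cov M G).card = 1 + q * K * K := by
    have c5 := count_in M hE hG huniv (subset_univ _) w0 hCG
    rw [Finset.filter_true_of_mem (fun _ _ => subset_univ _), hGc, ← hKv, ← hqw] at c5
    have e : (Cov M G).card * w0 = (1 + q * K * K) * w0 := by
      have : (1 + q * K * K) * w0 = w0 + K * K * (q * w0) := by ring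
      omega
    exact Nat.eq_of_mul_eq_mul_right hw00 e
  rw [c4] at d2
  have hqq := nt2 q K _ hq1 hK2 d2
  rw [hqq, one_mul] at hqw
  -- descend to rank 0
  have hdesc : ∀ t, t ≤ g → α (g - t + 2) + α (g - t) = α (g - t + 1) + α (g - t + 1) := by
    intro t
    induction t with
    | zero =>
      intro _
      rw [Nat.sub_zero, show g + 2 = g + 1 + 1 from rfl, hw, hw0]; omega
    | succ t ih =>
      intro ht
      have h2 := ih (by omega)
      obtain ⟨i, hi⟩ : ∃ i, g - (t + 1) = i := ⟨_, rfl⟩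
      have hi' : g - t = i + 1 := by omega
      rw [hi'] at h2
      rw [hi]
      exact step M hE _ hr α hα i (by omega) h2
  have hasc : ∀ j, j ≤ g + 1 → α (j + 1) = α j + 1 := by
    intro j
    induction j with
    | zero => intro _; rw [a0, show 0 + 1 = 1 from rfl, a1]
    | succ j ih =>
      intro hj
      have h2 := ih (by omega)
      have h3 := hdesc (g - j) (by omega)
      rw [show g - (g - j) = j by omega] at h3
      have : α (j + 1 + 1) = α (j + 2) := rfl
      omega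
  have := hasc (g + 1) le_rfl
  omega

end Pool.Agent.R707.PMD
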