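import Mathlib

set_option autoImplicit false

/-!
# Parikh's theorem for Mathlib's context-free languages
(Verma–Seidl–Schwentick: rule vectors with flow equations and connectivity are realisable.)
-/

namespace Pool.Agent.R707.PKB

open Finset

open scoped Pointwise

set_option linter.unusedSectionVars false

section Comb

variable {N ι : Type} [Fintype ι] [DecidableEq N] [DecidableEq ι] (lhs : ι → N) (out : ι → N → ℕ)

inductive Der : (N → ℕ) → (ι → ℕ) → Prop
  | nil : Der 0 0
  | step (v : N → ℕ) (x : ι → ℕ) (r : ι) (h : Der (v + out r) x) :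
      Der (v + Pi.single (lhs r) 1) (x + Pi.single r 1)

def Kir (v : N → ℕ) (x : ι → ℕ) : Prop :=
  ∀ A, v A + ∑ r, x r * out r A = ∑ r, if lhs r = A then x r else 0

def Edge (x : ι → ℕ) (B C : N) : Prop := ∃ r, 0 < x r ∧ lhs r = B ∧ 0 < out r C

def EdgeNe (x : ι → ℕ) (A B C : N) : Prop := ∃ r, 0 < x r ∧ lhs r = B ∧ 0 < out r C ∧ lhs r ≠ A

def Conn (v : N → ℕ) (x : ι → ℕ) : Prop :=
  ∀ r, 0 < x r → ∃ T, 0 < v T ∧ Relation.ReflTransGen (Edge lhs out x) T (lhs r)

theorem cut (x : ι → ℕ) (A B : N) (h : Relation.ReflTransGen (Edge lhs out x) B A) :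
    Relation.ReflTransGen (EdgeNe lhs out x A) B A := by
  induction h using Relation.ReflTransGen.head_induction_on with
  | refl => exact Relation.ReflTransGen.refl
  | head h1 h0 ih =>
    rename_i B' C
    by_cases hB : B' = A
    · rw [hB]
    · obtain ⟨r, h2, h3, h4⟩ := h1
      exact Relation.ReflTransGen.head ⟨r, h2, h3, h4, by rw [h3]; exact hB⟩ ih

theorem sum_out (y : ι → ℕ) (r : ι) (B : N) :
    ∑ s, (y + Pi.single r 1 : ι → ℕ) s * out s B = (∑ s, y s * out s B) + out r B := by
  simp only [Pi.add_apply, add_mul, Finset.sum_add_distrib]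
  congr 1
  rw [Finset.sum_eq_single r]
  · simp
  · intro b _ hb
    simp [Pi.single_eq_of_ne hb]
  · intro h; exact absurd (Finset.mem_univ r) h

theorem sum_lhs (y : ι → ℕ) (r : ι) (B : N) :
    (∑ s, if lhs s = B then (y + Pi.single r 1 : ι → ℕ) s else 0) =
      (∑ s, if lhs s = B then y s else 0) + (Pi.single (lhs r) 1 : N → ℕ) B := by
  have h1 : ∀ s, (if lhs s = B then (y + Pi.single r 1 : ι → ℕ) s else 0) =
      (if lhs s = B then y s else 0) + (if lhs s = B then (Pi.single r 1 : ι → ℕ) s else 0) := by
    intro s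
    split_ifs <;> simp
  simp only [h1, Finset.sum_add_distrib]
  congr 1
  rw [Finset.sum_eq_single r]
  · by_cases h : lhs r = B
    · subst h; simp
    · rw [if_neg h, Pi.single_eq_of_ne (Ne.symm h)]
  · intro b _ hb
    split_ifs
    · exact Pi.single_eq_of_ne hb 1
    · rfl
  · intro h; exact absurd (Finset.mem_univ r) h

theorem kir_step (w : N → ℕ) (y : ι → ℕ) (r : ι) :
    Kir lhs out (w + Pi.single (lhs r) 1) (y + Pi.single r 1) ↔ Kir lhs out (w + out r) y := by
  unfold Kir
  refine forall_congr' fun B => ?_
  rw [sum_out, sum_lhs]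
  simp only [Pi.add_apply]
  constructor <;> intro h <;> omega

theorem edge_mono (x y : ι → ℕ) (h : ∀ s, x s ≤ y s) (B C : N) (h1 : Edge lhs out x B C) :
    Edge lhs out y B C := by
  obtain ⟨r, h2, h3, h4⟩ := h1
  exact ⟨r, lt_of_lt_of_le h2 (h r), h3, h4⟩

theorem conn_step (w : N → ℕ) (y : ι → ℕ) (r : ι)
    (hc : Conn lhs out (w + Pi.single (lhs r) 1) (y + Pi.single r 1))
    (hA : (∀ s, lhs s = lhs r → y s = 0) ∨ ∃ T, 0 < (w + out r) T ∧
      Relation.ReflTransGen (EdgeNe lhs out (y + Pi.single r 1) (lhs r)) T (lhs r)) :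
    Conn lhs out (w + out r) y := by
  have hE : ∀ B C, EdgeNe lhs out (y + Pi.single r 1) (lhs r) B C → Edge lhs out y B C := by
    rintro B C ⟨s, h1, h2, h3, h4⟩
    have hs : s ≠ r := by rintro rfl; exact h4 rfl
    refine ⟨s, ?_, h2, h3⟩
    simpa [Pi.single_eq_of_ne hs] using h1
  have hA' : (∀ s, lhs s = lhs r → y s = 0) ∨ ∃ T, 0 < (w + out r) T ∧
      Relation.ReflTransGen (Edge lhs out y) T (lhs r) := by
    rcases hA with h | ⟨T, h1, h2⟩
    · exact Or.inl h
    · exact Or.inr ⟨T, h1, Relation.ReflTransGen.mono hE _ _ h2⟩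
  have key : ∀ T C, 0 < (w + Pi.single (lhs r) 1 : N → ℕ) T →
      Relation.ReflTransGen (Edge lhs out (y + Pi.single r 1)) T C →
      (∃ T', 0 < (w + out r) T' ∧ Relation.ReflTransGen (Edge lhs out y) T' C) ∨
      (C = lhs r ∧ ∀ s, lhs s = lhs r → y s = 0) := by
    intro T C hT h
    induction h with
    | refl =>
      by_cases hTr : T = lhs r
      · subst hTr
        rcases hA' with h | h
        · exact Or.inr ⟨rfl, h⟩
        · exact Or.inl h
      · left
        refine ⟨T, ?_, Relation.ReflTransGen.refl⟩
        have : 0 < w T := by simpa [Pi.single_eq_of_ne hTr] using hT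
        simp only [Pi.add_apply]
        omega
    | tail h0 h2 ih =>
      rename_i B C
      obtain ⟨s, hs1, hs2, hs3⟩ := h2
      by_cases hsr : s = r
      · subst hsr
        left
        refine ⟨C, ?_, Relation.ReflTransGen.refl⟩
        simp only [Pi.add_apply]
        omega
      · have hy : 0 < y s := by simpa [Pi.single_eq_of_ne hsr] using hs1
        rcases ih with ⟨T', h3, h4⟩ | ⟨h3, h4⟩
        · exact Or.inl ⟨T', h3, h4.tail ⟨s, hy, hs2, hs3⟩⟩
        · exfalso
          have := h4 s (by rw [hs2, h3])
          omega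
  intro s hs
  obtain ⟨T, h1, h2⟩ := hc s (by simp only [Pi.add_apply]; omega)
  rcases key T (lhs s) h1 h2 with h | ⟨h3, h4⟩
  · exact h
  · exfalso
    have := h4 s h3
    omega

theorem der_of (n : ℕ) : ∀ (v : N → ℕ) (x : ι → ℕ), ∑ r, x r = n → Kir lhs out v x →
    Conn lhs out v x → Der lhs out v x := by
  induction n with
  | zero =>
    intro v x hn hk _
    have hx : x = 0 := by
      funext r
      exact (Finset.sum_eq_zero_iff.1 hn) r (Finset.mem_univ r)
    subst hx
    have hv : v = 0 := by
      funext A
      have := hk A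
      simpa using this
    subst hv
    exact Der.nil
  | succ n ih =>
    intro v x hn hk hc
    obtain ⟨r0, hr0⟩ : ∃ r, 0 < x r := by
      by_contra hcon
      push Not at hcon
      have : ∑ r, x r = 0 := Finset.sum_eq_zero fun r _ => Nat.le_zero.1 (hcon r)
      omega
    obtain ⟨A, hA, _⟩ := hc r0 hr0
    have hany : ∃ r, lhs r = A ∧ 0 < x r := by
      by_contra hcon
      push Not at hcon
      have h1 : (∑ r, if lhs r = A then x r else 0) = 0 := by
        refine Finset.sum_eq_zero fun r _ => ?_
        split_ifs with h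
        · exact Nat.le_zero.1 (hcon r h)
        · rfl
      have := hk A
      omega
    -- the choice of the rule
    have hch : ∃ r, lhs r = A ∧ 0 < x r ∧
        ((∀ s, lhs s = A → (x - Pi.single r 1 : ι → ℕ) s = 0) ∨
          ∃ T, 0 < ((v - Pi.single A 1 : N → ℕ) + out r) T ∧
            Relation.ReflTransGen (EdgeNe lhs out x A) T A) := by
      by_cases h2 : 2 ≤ v A
      · obtain ⟨r, h3, h4⟩ := hany
        refine ⟨r, h3, h4, Or.inr ⟨A, ?_, Relation.ReflTransGen.refl⟩⟩
        simp only [Pi.add_apply, Pi.sub_apply, Pi.single_eq_same]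
        omega
      · by_cases h5 : (∑ r, if lhs r = A then x r else 0) = 1
        · obtain ⟨r, h3, h4⟩ := hany
          refine ⟨r, h3, h4, Or.inl ?_⟩
          intro s hs
          have h6 : x s ≤ 1 := by
            have h7 := Finset.single_le_sum (f := fun r => if lhs r = A then x r else 0)
              (fun i _ => Nat.zero_le _) (Finset.mem_univ s)
            simp only [hs, if_true] at h7
            omega
          by_cases hsr : s = r
          · subst hsr
            simp only [Pi.sub_apply, Pi.single_eq_same]
            omega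
          · have h7 : (if lhs s = A then x s else 0) + (if lhs r = A then x r else 0) ≤
                ∑ r, if lhs r = A then x r else 0 := by
              rw [← Finset.sum_pair (f := fun r => if lhs r = A then x r else 0) hsr]
              exact Finset.sum_le_sum_of_subset (Finset.subset_univ _)
            rw [if_pos hs, if_pos h3] at h7
            simp only [Pi.sub_apply, Pi.single_eq_of_ne hsr]
            omega
        · have hkA := hk A
          have h6 : 0 < ∑ r, x r * out r A := by
            have h7 : 0 < v A := hA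
            have h8 : v A = 1 := by omega
            have h9 : 0 < ∑ r, if lhs r = A then x r else 0 := by omega
            omega
          obtain ⟨s0, _, h7⟩ := Finset.exists_ne_zero_of_sum_ne_zero (Nat.pos_iff_ne_zero.1 h6)
          have hs0 : 0 < x s0 := Nat.pos_of_ne_zero fun h => h7 (by rw [h, zero_mul])
          have hs1 : 0 < out s0 A := Nat.pos_of_ne_zero fun h => h7 (by rw [h, mul_zero])
          obtain ⟨T, hT, hpath⟩ := hc s0 hs0
          have hlast : Edge lhs out x (lhs s0) A := ⟨s0, hs0, rfl, hs1⟩
          by_cases hTA : T = A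
          · subst hTA
            have htr : Relation.TransGen (Edge lhs out x) T T :=
              Relation.TransGen.tail' hpath hlast
            obtain ⟨C, ⟨r, h8, h9, h10⟩, h11⟩ := Relation.TransGen.head'_iff.1 htr
            refine ⟨r, h9, h8, Or.inr ⟨C, ?_, cut lhs out x T C h11⟩⟩
            simp only [Pi.add_apply]
            omega
          · obtain ⟨r, h3, h4⟩ := hany
            refine ⟨r, h3, h4, Or.inr ⟨T, ?_, cut lhs out x A T (hpath.tail hlast)⟩⟩
            simp only [Pi.add_apply, Pi.sub_apply, Pi.single_eq_of_ne hTA]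
            omega
    obtain ⟨r, hr, hxr, hprop⟩ := hch
    subst hr
    have hv : v = (v - Pi.single (lhs r) 1) + Pi.single (lhs r) 1 := by
      funext B
      by_cases h : B = lhs r
      · subst h
        simp only [Pi.add_apply, Pi.sub_apply, Pi.single_eq_same]
        omega
      · simp [Pi.single_eq_of_ne h]
    have hx : x = (x - Pi.single r 1) + Pi.single r 1 := by
      funext s
      by_cases h : s = r
      · subst h
        simp only [Pi.add_apply, Pi.sub_apply, Pi.single_eq_same]
        omega
      · simp [Pi.single_eq_of_ne h]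
    rw [hv, hx]
    refine Der.step _ _ r (ih _ _ ?_ ?_ ?_)
    · have h1 : ∑ s, x s = ∑ s, (x - Pi.single r 1 : ι → ℕ) s + 1 := by
        conv_lhs => rw [hx]
        simp only [Pi.add_apply, Finset.sum_add_distrib]
        congr 1
        simp
      omega
    · rw [← kir_step, ← hv, ← hx]
      exact hk
    · apply conn_step
      · rw [← hv, ← hx]
        exact hc
      · rw [← hx]
        exact hprop

theorem of_der (v : N → ℕ) (x : ι → ℕ) (h : Der lhs out v x) :
    Kir lhs out v x ∧ Conn lhs out v x := by
  induction h with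
  | nil =>
    refine ⟨fun A => by simp, fun r hr => ?_⟩
    simp at hr
  | step v x r _ ih =>
    refine ⟨(kir_step lhs out v x r).2 ih.1, fun s hs => ?_⟩
    by_cases hsr : s = r
    · subst hsr
      exact ⟨lhs s, by simp, Relation.ReflTransGen.refl⟩
    · have hx : 0 < x s := by simpa [Pi.single_eq_of_ne hsr] using hs
      obtain ⟨T, h1, h2⟩ := ih.2 s hx
      have h3 : Relation.ReflTransGen (Edge lhs out (x + Pi.single r 1)) T (lhs s) :=
        Relation.ReflTransGen.mono (edge_mono lhs out _ _ (fun s => by simp)) _ _ h2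
      by_cases h4 : 0 < v T
      · exact ⟨T, by simp only [Pi.add_apply]; omega, h3⟩
      · refine ⟨lhs r, by simp, Relation.ReflTransGen.head ⟨r, by simp, rfl, ?_⟩ h3⟩
        simp only [Pi.add_apply] at h1
        omega

theorem der_iff (v : N → ℕ) (x : ι → ℕ) :
    Der lhs out v x ↔ Kir lhs out v x ∧ Conn lhs out v x :=
  ⟨of_der lhs out v x, fun h => der_of lhs out _ v x rfl h.1 h.2⟩

end Comb

section Gram


open Classical

variable {D : Type} (g : ContextFreeGrammar D)

/-- the rules as an index type -/
abbrev I : Type := {r // r ∈ g.rules}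

noncomputable def L (r : I g) : g.NT := r.1.input

noncomputable def O (r : I g) (A : g.NT) : ℕ := r.1.output.count (Symbol.nonterminal A)

noncomputable def Tm (r : I g) (a : D) : ℕ := r.1.output.count (Symbol.terminal a)

noncomputable def nc (u : List (Symbol D g.NT)) (A : g.NT) : ℕ := u.count (Symbol.nonterminal A)

noncomputable def tc (u : List (Symbol D g.NT)) (a : D) : ℕ := u.count (Symbol.terminal a)

theorem nc_append (u v : List (Symbol D g.NT)) : nc g (u ++ v) = nc g u + nc g v := by
  funext A; simp [nc, List.count_append]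

theorem tc_append (u v : List (Symbol D g.NT)) : tc g (u ++ v) = tc g u + tc g v := by
  funext A; simp [tc, List.count_append]

theorem nc_single (A : g.NT) : nc g [Symbol.nonterminal A] = Pi.single A 1 := by
  funext B
  by_cases h : B = A
  · subst h; simp [nc]
  · rw [Pi.single_eq_of_ne h]
    unfold nc
    rw [List.count_eq_zero]
    simp [h]

theorem tc_single (A : g.NT) : tc g [Symbol.nonterminal A] = 0 := by
  funext B
  unfold tc
  simp only [Pi.zero_apply]
  rw [List.count_eq_zero]
  simp

theorem nc_map (w : List D) : nc g (w.map Symbol.terminal) = 0 := by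
  funext B
  unfold nc
  simp only [Pi.zero_apply]
  rw [List.count_eq_zero]
  simp

theorem tc_map (w : List D) (a : D) : tc g (w.map Symbol.terminal) a = w.count a := by
  unfold tc
  induction w with
  | nil => simp
  | cons b w ih =>
    rw [List.map_cons, List.count_cons, List.count_cons, ih]
    congr 1
    by_cases h : b = a
    · simp [h]
    · have h' : (Symbol.terminal b : Symbol D g.NT) ≠ Symbol.terminal a := by
        intro h2; exact h (Symbol.terminal.inj h2)
      simp [h, h']

theorem all_term (u : List (Symbol D g.NT)) (h : nc g u = 0) :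
    ∃ w : List D, u = w.map Symbol.terminal := by
  induction u with
  | nil => exact ⟨[], rfl⟩
  | cons s u ih =>
    have h1 : nc g (s :: u) = nc g [s] + nc g u := by
      rw [← nc_append]; rfl
    rw [h1] at h
    have h2 : nc g u = 0 := by
      funext A
      have := congrFun h A
      simp only [Pi.add_apply, Pi.zero_apply] at this ⊢
      omega
    obtain ⟨w, hw⟩ := ih h2
    cases s with
    | terminal a => exact ⟨a :: w, by rw [hw]; rfl⟩
    | nonterminal A =>
      exfalso
      have := congrFun h A
      rw [nc_single] at this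
      simp at this

theorem exists_der (u : List (Symbol D g.NT)) (w : List D)
    (h : g.Derives u (w.map Symbol.terminal)) :
    ∃ x : I g → ℕ, Der (L g) (O g) (nc g u) x ∧ ∀ a, w.count a = tc g u a + ∑ r, x r * Tm g r a := by
  unfold ContextFreeGrammar.Derives at h
  induction h using Relation.ReflTransGen.head_induction_on with
  | refl =>
    refine ⟨0, ?_, fun a => ?_⟩
    · rw [nc_map]; exact Der.nil
    · rw [tc_map]; simp
  | head h1 h0 ih =>
    rename_i u u'
    obtain ⟨x, hx, hc⟩ := ih
    obtain ⟨r, hr, hrw⟩ := h1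
    obtain ⟨p, q, hu, hu'⟩ := hrw.exists_parts
    refine ⟨x + Pi.single (⟨r, hr⟩ : I g) 1, ?_, ?_⟩
    · have e1 : nc g u = (nc g p + nc g q) + Pi.single (L g ⟨r, hr⟩) 1 := by
        rw [hu, nc_append, nc_append, nc_single]
        show _ = nc g p + nc g q + Pi.single r.input 1
        abel
      have e2 : nc g u' = (nc g p + nc g q) + O g ⟨r, hr⟩ := by
        rw [hu', nc_append, nc_append]
        show nc g p + nc g r.output + nc g q = nc g p + nc g q + nc g r.output
        abel
      rw [e1]
      rw [e2] at hx
      exact Der.step _ _ _ hx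
    · intro a
      rw [hc a, sum_out (Tm g) x ⟨r, hr⟩ a]
      have e1 : tc g u a = tc g p a + tc g q a := by
        rw [hu, tc_append, tc_append, tc_single]
        simp
      have e2 : tc g u' a = tc g p a + Tm g ⟨r, hr⟩ a + tc g q a := by
        rw [hu', tc_append, tc_append]
        rfl
      rw [e1, e2]
      ring

theorem of_der' (v : g.NT → ℕ) (x : I g → ℕ) (h : Der (L g) (O g) v x) :
    ∀ u : List (Symbol D g.NT), nc g u = v → ∃ w : List D, g.Derives u (w.map Symbol.terminal) ∧
      ∀ a, w.count a = tc g u a + ∑ r, x r * Tm g r a := by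
  induction h with
  | nil =>
    intro u hu
    obtain ⟨w, hw⟩ := all_term g u hu
    refine ⟨w, ?_, fun a => ?_⟩
    · rw [hw]
    · rw [hw, tc_map]; simp
  | step v x r _ ih =>
    intro u hu
    have hmem : Symbol.nonterminal (L g r) ∈ u := by
      have h1 : nc g u (L g r) ≠ 0 := by rw [hu]; simp
      unfold nc at h1
      exact List.count_pos_iff.1 (Nat.pos_of_ne_zero h1)
    obtain ⟨p, q, hpq⟩ := List.append_of_mem hmem
    have hpq' : u = p ++ [Symbol.nonterminal r.1.input] ++ q := by
      rw [hpq]; simp [L]
    have h2 : nc g (p ++ r.1.output ++ q) = v + O g r := by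
      have h3 : nc g p + nc g q = v := by
        have h4 : nc g p + nc g q + Pi.single (L g r) 1 = v + Pi.single (L g r) 1 := by
          rw [← hu, hpq', nc_append, nc_append, nc_single]
          show _ = nc g p + Pi.single r.1.input 1 + nc g q
          have : L g r = r.1.input := rfl
          rw [this]
          abel
        exact add_right_cancel h4
      rw [nc_append, nc_append, ← h3]
      show nc g p + nc g r.1.output + nc g q = nc g p + nc g q + nc g r.1.output
      abel
    obtain ⟨w, hw1, hw2⟩ := ih _ h2
    refine ⟨w, ?_, fun a => ?_⟩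
    · refine ContextFreeGrammar.Produces.trans_derives ⟨r.1, r.2, ?_⟩ hw1
      rw [hpq']
      exact ContextFreeRule.rewrites_of_exists_parts r.1 p q
    · rw [hw2 a, sum_out (Tm g) x r a]
      have e1 : tc g u a = tc g p a + tc g q a := by
        rw [hpq', tc_append, tc_append, tc_single]
        simp
      have e2 : tc g (p ++ r.1.output ++ q) a = tc g p a + Tm g r a + tc g q a := by
        rw [tc_append, tc_append]
        rfl
      rw [e1, e2]
      ring

/-- the rule vectors of the derivations of terminal words -/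
def X : Set (I g → ℕ) :=
  {x | Kir (L g) (O g) (Pi.single g.initial 1) x ∧ Conn (L g) (O g) (Pi.single g.initial 1) x}

noncomputable def F : (I g → ℕ) →+ (g.NT → ℕ) where
  toFun x := fun A => ∑ r, x r * O g r A
  map_zero' := by funext A; simp
  map_add' x y := by funext A; simp [add_mul, Finset.sum_add_distrib]

noncomputable def G : (I g → ℕ) →+ (g.NT → ℕ) where
  toFun x := fun A => ∑ r, if L g r = A then x r else 0
  map_zero' := by funext A; simp
  map_add' x y := by
    funext A
    simp only [Pi.add_apply]
    rw [← Finset.sum_add_distrib]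
    refine Finset.sum_congr rfl fun r _ => ?_
    split_ifs <;> simp

noncomputable def H : (I g → ℕ) →+ (D → ℕ) where
  toFun x := fun a => ∑ r, x r * Tm g r a
  map_zero' := by funext A; simp
  map_add' x y := by funext A; simp [add_mul, Finset.sum_add_distrib]

noncomputable def ev (r : I g) : (I g → ℕ) →+ ℕ where
  toFun x := x r
  map_zero' := rfl
  map_add' _ _ := rfl

theorem supp_semi (T : Finset (I g)) :
    IsSemilinearSet {x : I g → ℕ | ∀ r, 0 < x r ↔ r ∈ T} := by
  have h : {x : I g → ℕ | ∀ r, 0 < x r ↔ r ∈ T} = ⋂ r, {x : I g → ℕ | 0 < x r ↔ r ∈ T} := by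
    ext x; simp
  rw [h]
  refine IsSemilinearSet.iInter fun r => ?_
  by_cases hr : r ∈ T
  · have h2 : {x : I g → ℕ | 0 < x r ↔ r ∈ T} = (Pi.single r 1 : I g → ℕ) +ᵥ (Set.univ : Set (I g → ℕ)) := by
      ext x
      simp only [hr, iff_true, Set.mem_setOf_eq]
      constructor
      · intro hx
        refine ⟨x - Pi.single r 1, Set.mem_univ _, ?_⟩
        funext s
        show (Pi.single r 1 : I g → ℕ) s + (x s - (Pi.single r 1 : I g → ℕ) s) = x s
        by_cases h : s = r
        · subst h
          rw [Pi.single_eq_same]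
          omega
        · rw [Pi.single_eq_of_ne h]
          omega
      · rintro ⟨y, _, rfl⟩
        show 0 < (Pi.single r 1 : I g → ℕ) r + y r
        rw [Pi.single_eq_same]
        omega
    rw [h2]
    exact IsSemilinearSet.vadd _ IsSemilinearSet.univ
  · have h2 : {x : I g → ℕ | 0 < x r ↔ r ∈ T} = {x | 0 + ev g r x = 0 + (0 : (I g → ℕ) →+ ℕ) x} := by
      ext x
      simp [hr, ev]
    rw [h2]
    exact isSemilinearSet_setOfPred_eq 0 0 (ev g r) (0 : (I g → ℕ) →+ ℕ)

theorem kir_semi : IsSemilinearSet {x : I g → ℕ | Kir (L g) (O g) (Pi.single g.initial 1) x} := by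
  have h2 : {x : I g → ℕ | Kir (L g) (O g) (Pi.single g.initial 1) x} =
      {x | (Pi.single g.initial 1 : g.NT → ℕ) + F g x = 0 + G g x} := by
    ext x
    simp only [Set.mem_setOf_eq, Kir]
    constructor
    · intro h
      funext A
      simpa [F, G] using h A
    · intro h A
      simpa [F, G] using congrFun h A
  rw [h2]
  exact isSemilinearSet_setOfPred_eq _ _ (F g) (G g)

theorem conn_supp (x y : I g → ℕ) (v : g.NT → ℕ) (h : ∀ r, 0 < x r ↔ 0 < y r)
    (hc : Conn (L g) (O g) v x) : Conn (L g) (O g) v y := by
  intro r hr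
  obtain ⟨T, h1, h2⟩ := hc r ((h r).2 hr)
  refine ⟨T, h1, Relation.ReflTransGen.mono ?_ _ _ h2⟩
  rintro B C ⟨s, h3, h4, h5⟩
  exact ⟨s, (h s).1 h3, h4, h5⟩

theorem X_semi : IsSemilinearSet (X g) := by
  have h : X g = ⋃ T ∈ (Finset.univ.filter fun T : Finset (I g) => Conn (L g) (O g)
      (Pi.single g.initial 1) (fun r => if r ∈ T then 1 else 0)),
      ({x : I g → ℕ | ∀ r, 0 < x r ↔ r ∈ T} ∩
        {x : I g → ℕ | Kir (L g) (O g) (Pi.single g.initial 1) x}) := by
    ext x
    simp only [Set.mem_iUnion, Finset.mem_filter, Finset.mem_univ, true_and, Set.mem_inter_iff,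
      Set.mem_setOf_eq, X]
    constructor
    · rintro ⟨h1, h2⟩
      refine ⟨Finset.univ.filter fun r => 0 < x r, ?_, ?_, h1⟩
      · refine conn_supp g x _ _ (fun r => ?_) h2
        by_cases hx : 0 < x r <;> simp [hx]
      · intro r; simp
    · rintro ⟨T, h1, h2, h3⟩
      refine ⟨h3, conn_supp g _ x _ (fun r => ?_) h1⟩
      rw [h2 r]
      by_cases hx : r ∈ T <;> simp [hx]
  rw [h]
  exact IsSemilinearSet.biUnion_finset fun T _ => (supp_semi g T).inter (kir_semi g)

theorem par_eq : {v : D → ℕ | ∃ w ∈ g.language, ∀ a, v a = w.count a} = H g '' (X g) := by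
  ext v
  simp only [Set.mem_setOf_eq, Set.mem_image]
  constructor
  · rintro ⟨w, hw, hv⟩
    rw [ContextFreeGrammar.mem_language_iff] at hw
    obtain ⟨x, hx, hc⟩ := exists_der g _ w hw
    rw [nc_single] at hx
    refine ⟨x, (der_iff _ _ _ _).1 hx, ?_⟩
    funext a
    rw [hv a, hc a, tc_single]
    simp [H]
  · rintro ⟨x, hx, rfl⟩
    obtain ⟨w, hw, hc⟩ := of_der' g _ x ((der_iff _ _ _ _).2 hx) [Symbol.nonterminal g.initial]
      (nc_single g g.initial)
    refine ⟨w, hw, fun a => ?_⟩
    rw [hc a, tc_single]
    simp [H]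

theorem parikh : IsSemilinearSet {v : D → ℕ | ∃ w ∈ g.language, ∀ a, v a = w.count a} := by
  rw [par_eq]
  exact (X_semi g).image (H g)


/-- Parikh's theorem for Mathlib's context-free languages. -/
theorem parikh' (D : Type) [DecidableEq D] (K : Language D) (hK : K.IsContextFree) :
    IsSemilinearSet {v : D → ℕ | ∃ w ∈ K, ∀ a, v a = w.count a} := by
  obtain ⟨g, rfl⟩ := hK
  have h := parikh g
  have e : {v : D → ℕ | ∃ w ∈ g.language, ∀ a, v a = w.count a} =
      {v : D → ℕ | ∃ w ∈ g.language, ∀ a, v a = @List.count D (@instBEqOfDecidableEq D (Classical.decEq D)) a w} := by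
    ext v
    simp only [Set.mem_ofPred_eq]
    refine exists_congr fun w => and_congr_right fun _ => forall_congr' fun a => ?_
    have : @List.count D instBEqOfDecidableEq a w =
        @List.count D (@instBEqOfDecidableEq D (Classical.decEq D)) a w := by
      congr 2
      exact Subsingleton.elim _ _
    rw [this]
  rw [e]
  exact h

end Gram

end Pool.Agent.R707.PKB
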