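import Mathlib

/-!
The ring `ℤ/64 ×_{ℤ/8} (ℤ/8)[ε]`, that is `ℤ[δ] / (64, 8 δ, δ²)`.
-/

set_option autoImplicit false

noncomputable section

namespace Pool.Agent.R707

lemma fst2 : (2 : DualNumber (ZMod 8)).fst = 2 := rfl
lemma snd2 : (2 : DualNumber (ZMod 8)).snd = 0 := rfl

/-- The ring of the pairs `(a, x)` with `a` in `ℤ/64` and `x` in `(ℤ/8)[ε]` such that the constant
term of `x` is the class of `a`. -/
def ring2 : Subring (ZMod 64 × DualNumber (ZMod 8)) :=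
  RingHom.eqLocus ((ZMod.castHom (by norm_num : 8 ∣ 64) (ZMod 8)).comp
    (RingHom.fst (ZMod 64) (DualNumber (ZMod 8))))
    ((TrivSqZeroExt.fstHom (ZMod 8) (ZMod 8) (ZMod 8)).toRingHom.comp
      (RingHom.snd (ZMod 64) (DualNumber (ZMod 8))))

lemma mem_ring2 (z : ZMod 64 × DualNumber (ZMod 8)) :
    z ∈ ring2 ↔ ZMod.castHom (by norm_num : 8 ∣ 64) (ZMod 8) z.1 = z.2.fst := Iff.rfl

/-- the element `2` -/
def cc : ring2 := 2

/-- the element `2 + ε` -/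
def ff : ring2 := ⟨(2, 2 + DualNumber.eps), by
  rw [mem_ring2]
  simp only [TrivSqZeroExt.fst_add, fst2, DualNumber.fst_eps, add_zero]
  decide⟩

lemma cc_fst : (cc : ZMod 64 × DualNumber (ZMod 8)).1 = 2 := rfl
lemma ff_fst : (ff : ZMod 64 × DualNumber (ZMod 8)).1 = 2 := rfl
lemma cc_snd : (cc : ZMod 64 × DualNumber (ZMod 8)).2 = 2 := rfl
lemma ff_snd : (ff : ZMod 64 × DualNumber (ZMod 8)).2 = 2 + DualNumber.eps := rfl

lemma dual_ext {x y : DualNumber (ZMod 8)} (h1 : x.fst = y.fst) (h2 : x.snd = y.snd) : x = y :=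
  TrivSqZeroExt.ext h1 h2

lemma rel2 : cc ^ 3 * (ff - cc) = 0 := by
  apply Subtype.ext
  apply Prod.ext
  · change (2 : ZMod 64) ^ 3 * (2 - 2) = 0
    decide
  · change (2 : DualNumber (ZMod 8)) ^ 3 * (2 + DualNumber.eps - 2) = 0
    have h8 : (2 : DualNumber (ZMod 8)) ^ 3 = 0 := by
      apply dual_ext
      · simp only [TrivSqZeroExt.fst_pow, fst2, TrivSqZeroExt.fst_zero]
        decide
      · simp [fst2, snd2, pow_succ]
    rw [h8, zero_mul]

lemma dec1 : ∀ a : ZMod 64, 32 * a = 0 →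
    4 * (ZMod.castHom (by norm_num : 8 ∣ 64) (ZMod 8)) a = 0 := by decide +kernel

lemma dec2 : ∀ a : ZMod 64, 4 * a = 0 →
    2 * (ZMod.castHom (by norm_num : 8 ∣ 64) (ZMod 8)) a = 0 := by decide +kernel

lemma key2 (r r' k : ring2) (h1 : cc ^ 3 * ff ^ 2 * r = 0) (h2 : cc ^ 4 * ff * r' = 0)
    (h3 : cc ^ 2 * k = 0) :
    cc * ff ^ 2 * r + cc ^ 2 * ff * r' - cc * ff * (ff - cc) ≠ cc * ff * k := by
  intro h
  obtain ⟨⟨a, x⟩, hr⟩ := r
  obtain ⟨⟨a', x'⟩, hr'⟩ := r'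
  obtain ⟨⟨p, y⟩, hk⟩ := k
  rw [mem_ring2] at hr hr' hk
  simp only at hr hr' hk
  have h1' : (2 : ZMod 64) ^ 3 * 2 ^ 2 * a = 0 := congrArg (fun t : ring2 => t.1.1) h1
  have h2' : (2 : ZMod 64) ^ 4 * 2 * a' = 0 := congrArg (fun t : ring2 => t.1.1) h2
  have h3' : (2 : ZMod 64) ^ 2 * p = 0 := congrArg (fun t : ring2 => t.1.1) h3
  have h3'' : (2 : DualNumber (ZMod 8)) ^ 2 * y = 0 := congrArg (fun t : ring2 => t.1.2) h3
  have h' : 2 * (2 + DualNumber.eps) ^ 2 * x + 2 ^ 2 * (2 + DualNumber.eps) * x' -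
      2 * (2 + DualNumber.eps) * (2 + DualNumber.eps - 2) =
      2 * (2 + DualNumber.eps) * (y : DualNumber (ZMod 8)) :=
    congrArg (fun t : ring2 => t.1.2) h
  have h3s := congrArg TrivSqZeroExt.snd h3''
  have hs := congrArg TrivSqZeroExt.snd h'
  simp [pow_two, fst2, snd2] at h3s hs
  have e1 := dec1 a' (by rw [← h2']; congr 1)
  have e2 := dec2 p (by rw [← h3']; congr 1)
  rw [hr'] at e1
  rw [hk] at e2
  have a1 : (2 * (2 * 2) : ZMod 8) = 0 := by decide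
  have a2 : (2 * (2 + 2) : ZMod 8) = 0 := by decide
  have a3 : (2 * 2 * 2 : ZMod 8) = 0 := by decide
  have a4 : (2 * 2 : ZMod 8) * x'.fst = 0 := by
    rw [← e1]
    congr 1
  rw [a1, a2, a3, a4, h3s, e2] at hs
  simp only [zero_mul, add_zero, zero_sub, neg_eq_zero] at hs
  exact absurd hs (by decide)

end Pool.Agent.R707
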