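import Mathlib

/-! Helper module for the selflessness problem: the integral Heisenberg group, a group `Gam` of
semilinear matrices over `ℤ[Y][T]`, and a tree-like length function on it. -/

open Polynomial Matrix

namespace Pool.Agent.R707.Selfless

/-- The integral Heisenberg group, as pairs (shear of `ℤ²`). -/
@[ext] structure Heis where
  i : ℤ
  j : ℤ
  k : ℤ

namespace Heis

instance : Mul Heis := ⟨fun a b => ⟨a.i + b.i, a.j + b.j + a.k * b.i, a.k + b.k⟩⟩
instance : One Heis := ⟨⟨0, 0, 0⟩⟩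
instance : Inv Heis := ⟨fun a => ⟨-a.i, -a.j + a.k * a.i, -a.k⟩⟩

@[simp] lemma mul_i (a b : Heis) : (a * b).i = a.i + b.i := rfl
@[simp] lemma mul_j (a b : Heis) : (a * b).j = a.j + b.j + a.k * b.i := rfl
@[simp] lemma mul_k (a b : Heis) : (a * b).k = a.k + b.k := rfl
@[simp] lemma one_i : (1 : Heis).i = 0 := rfl
@[simp] lemma one_j : (1 : Heis).j = 0 := rfl
@[simp] lemma one_k : (1 : Heis).k = 0 := rfl
@[simp] lemma inv_i (a : Heis) : (a⁻¹).i = -a.i := rfl
@[simp] lemma inv_j (a : Heis) : (a⁻¹).j = -a.j + a.k * a.i := rfl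
@[simp] lemma inv_k (a : Heis) : (a⁻¹).k = -a.k := rfl

instance : Group Heis where
  mul_assoc a b c := by ext <;> simp <;> ring
  one_mul a := by ext <;> simp
  mul_one a := by ext <;> simp
  inv_mul_cancel a := by ext <;> simp

end Heis

abbrev KK := Polynomial ℤ
abbrev RR := Polynomial KK
abbrev SL := SpecialLinearGroup (Fin 2) RR

/-- coefficientwise translation `Y ↦ Y + m`. -/
noncomputable def th (m : ℤ) : RR →+* RR := Polynomial.mapRingHom (taylorAlgHom m : KK →ₐ[ℤ] KK).toRingHom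

lemma th_apply (m : ℤ) (f : RR) : th m f = f.map (taylorAlgHom m : KK →ₐ[ℤ] KK).toRingHom := rfl

lemma tay_inj (m : ℤ) : Function.Injective (taylorAlgHom m : KK →ₐ[ℤ] KK).toRingHom := by
  intro a b h
  exact taylor_injective m h

lemma th_natDegree (m : ℤ) (f : RR) : (th m f).natDegree = f.natDegree := by
  rw [th_apply]
  exact natDegree_map_eq_of_injective (tay_inj m) f

lemma th_zero (f : RR) : th 0 f = f := by
  rw [th_apply]
  ext n : 1
  rw [coeff_map]
  exact taylor_zero _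

lemma th_add (m n : ℤ) (f : RR) : th m (th n f) = th (m + n) f := by
  simp only [th_apply]
  ext k : 1
  simp only [coeff_map]
  exact taylor_taylor _ _ _

/-- translation on matrices -/
noncomputable def ths (m : ℤ) : SL →* SL := SpecialLinearGroup.map (th m)

lemma ths_apply (m : ℤ) (A : SL) (a b : Fin 2) : (ths m A) a b = th m (A a b) := rfl

lemma ths_zero (A : SL) : ths 0 A = A := by
  ext a b : 2
  rw [ths_apply, th_zero]

lemma ths_add (m n : ℤ) (A : SL) : ths m (ths n A) = ths (m + n) A := by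
  ext a b : 2
  simp only [ths_apply, th_add]

/-- The ambient group. -/
@[ext] structure Gam where
  M : SL
  h : Heis

namespace Gam

noncomputable instance : Mul Gam := ⟨fun a b => ⟨a.M * ths a.h.k b.M, a.h * b.h⟩⟩
noncomputable instance : One Gam := ⟨⟨1, 1⟩⟩
noncomputable instance : Inv Gam := ⟨fun a => ⟨ths (-a.h.k) a.M⁻¹, a.h⁻¹⟩⟩

@[simp] lemma mul_M (a b : Gam) : (a * b).M = a.M * ths a.h.k b.M := rfl
@[simp] lemma mul_h (a b : Gam) : (a * b).h = a.h * b.h := rfl
@[simp] lemma one_M : (1 : Gam).M = 1 := rfl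
@[simp] lemma one_h : (1 : Gam).h = 1 := rfl
@[simp] lemma inv_M (a : Gam) : (a⁻¹).M = ths (-a.h.k) a.M⁻¹ := rfl
@[simp] lemma inv_h (a : Gam) : (a⁻¹).h = a.h⁻¹ := rfl

noncomputable instance : Group Gam where
  mul_assoc a b c := by
    ext1
    · simp only [mul_M, mul_h, map_mul, ths_add, Heis.mul_k, mul_assoc]
    · simp only [mul_h, mul_assoc]
  one_mul a := by
    ext1
    · simp only [mul_M, one_M, one_h, Heis.one_k, ths_zero, one_mul]
    · simp only [mul_h, one_h, one_mul]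
  mul_one a := by
    ext1
    · simp only [mul_M, one_M, map_one, mul_one]
    · simp only [mul_h, one_h, mul_one]
  inv_mul_cancel a := by
    ext1
    · simp only [mul_M, inv_M, inv_h, Heis.inv_k, one_M, ← map_mul, inv_mul_cancel, map_one]
    · simp only [mul_h, inv_h, inv_mul_cancel, one_h]

end Gam

/-- degree of a matrix -/
noncomputable def dg (A : SL) : ℕ :=
  max (max (A 0 0).natDegree (A 0 1).natDegree) (max (A 1 0).natDegree (A 1 1).natDegree)

lemma dg_le_iff (A : SL) (n : ℕ) : dg A ≤ n ↔ ∀ a b, (A a b).natDegree ≤ n := by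
  unfold dg
  simp only [max_le_iff, Fin.forall_fin_two]

lemma le_dg (A : SL) (a b : Fin 2) : (A a b).natDegree ≤ dg A := (dg_le_iff A _).1 le_rfl a b

lemma exists_entry (A : SL) : ∃ a b, A a b ≠ 0 ∧ (A a b).natDegree = dg A := by
  by_cases h0 : dg A = 0
  · have hdet : A.1.det = 1 := A.2
    rw [det_fin_two] at hdet
    by_cases h1 : A 0 0 = 0
    · by_cases h2 : A 0 1 = 0
      · exfalso
        have e1 : A.1 0 0 = 0 := h1
        have e2 : A.1 0 1 = 0 := h2
        rw [e1, e2] at hdet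
        simp at hdet
      · exact ⟨0, 1, h2, le_antisymm (le_dg A 0 1) (by omega)⟩
    · exact ⟨0, 0, h1, le_antisymm (le_dg A 0 0) (by omega)⟩
  · have key : ∃ a b, (A a b).natDegree = dg A := by
      unfold dg
      rcases le_total (max (A 0 0).natDegree (A 0 1).natDegree)
        (max (A 1 0).natDegree (A 1 1).natDegree) with h | h
      · rw [max_eq_right h]
        rcases le_total (A 1 0).natDegree (A 1 1).natDegree with h' | h'
        · exact ⟨1, 1, (max_eq_right h').symm⟩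
        · exact ⟨1, 0, (max_eq_left h').symm⟩
      · rw [max_eq_left h]
        rcases le_total (A 0 0).natDegree (A 0 1).natDegree with h' | h'
        · exact ⟨0, 1, (max_eq_right h').symm⟩
        · exact ⟨0, 0, (max_eq_left h').symm⟩
    obtain ⟨a, b, hab⟩ := key
    refine ⟨a, b, ?_, hab⟩
    intro h
    rw [h, natDegree_zero] at hab
    omega

lemma ths_dg (m : ℤ) (A : SL) : dg (ths m A) = dg A := by
  unfold dg
  simp only [ths_apply, th_natDegree]

lemma inv_entries (A : SL) : (A⁻¹) 0 0 = A 1 1 ∧ (A⁻¹) 0 1 = - A 0 1 ∧ (A⁻¹) 1 0 = - A 1 0 ∧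
    (A⁻¹) 1 1 = A 0 0 := by
  have h := SpecialLinearGroup.SL2_inv_expl A
  rw [h]
  refine ⟨?_, ?_, ?_, ?_⟩ <;> rfl

lemma dg_inv (A : SL) : dg A⁻¹ = dg A := by
  obtain ⟨h1, h2, h3, h4⟩ := inv_entries A
  unfold dg
  rw [h1, h2, h3, h4, natDegree_neg, natDegree_neg]
  omega

lemma mul_entries (A B : SL) (a b : Fin 2) : (A * B) a b = A a 0 * B 0 b + A a 1 * B 1 b := by
  have : (A * B) a b = (A.1 * B.1) a b := rfl
  rw [this, mul_apply, Fin.sum_univ_two]

lemma dg_mul_le (A B : SL) : dg (A * B) ≤ dg A + dg B := by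
  rw [dg_le_iff]
  intro a b
  rw [mul_entries]
  refine (natDegree_add_le _ _).trans ?_
  refine max_le ?_ ?_
  · exact natDegree_mul_le.trans (add_le_add (le_dg A _ _) (le_dg B _ _))
  · exact natDegree_mul_le.trans (add_le_add (le_dg A _ _) (le_dg B _ _))

/-- two by two determinant of a column of `A` and a column of `B` -/
noncomputable def dd (A : SL) (a : Fin 2) (B : SL) (b : Fin 2) : RR := A 0 a * B 1 b - A 1 a * B 0 b

lemma dd_natDegree (A B : SL) (a b : Fin 2) : (dd A a B b).natDegree ≤ dg (A⁻¹ * B) := by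
  obtain ⟨h1, h2, h3, h4⟩ := inv_entries A
  unfold dd
  fin_cases a
  · have : (A⁻¹ * B) 1 b = A 0 0 * B 1 b - A 1 0 * B 0 b := by
      rw [mul_entries, h3, h4]; ring
    show (A 0 0 * B 1 b - A 1 0 * B 0 b).natDegree ≤ _
    rw [← this]; exact le_dg _ _ _
  · have : (A⁻¹ * B) 0 b = -(A 0 1 * B 1 b - A 1 1 * B 0 b) := by
      rw [mul_entries, h1, h2]; ring
    show (A 0 1 * B 1 b - A 1 1 * B 0 b).natDegree ≤ _
    rw [← natDegree_neg, ← this]; exact le_dg _ _ _

lemma exists_dd (A B : SL) : ∃ a b, dd A a B b ≠ 0 ∧ (dd A a B b).natDegree = dg (A⁻¹ * B) := by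
  obtain ⟨h1, h2, h3, h4⟩ := inv_entries A
  obtain ⟨a, b, hne, hd⟩ := exists_entry (A⁻¹ * B)
  fin_cases a
  · have : (A⁻¹ * B) 0 b = - dd A 1 B b := by
      unfold dd; rw [mul_entries, h1, h2]; ring
    refine ⟨1, b, ?_, ?_⟩
    · intro h0; apply hne; show (A⁻¹ * B) 0 b = 0; rw [this, h0, neg_zero]
    · rw [← natDegree_neg, ← this]; exact hd
  · have : (A⁻¹ * B) 1 b = dd A 0 B b := by
      unfold dd; rw [mul_entries, h3, h4]; ring
    refine ⟨0, b, ?_, ?_⟩
    · intro h0; apply hne; show (A⁻¹ * B) 1 b = 0; rw [this, h0]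
    · rw [← this]; exact hd

/-- The four point inequality for the degree, from the three term Pluecker relation. -/
lemma four_SL (A B C : SL) :
    dg (A⁻¹ * B) + dg C ≤ max (dg (A⁻¹ * C) + dg B) (dg (B⁻¹ * C) + dg A) := by
  obtain ⟨a, b, hne, hd⟩ := exists_dd A B
  obtain ⟨k, l, hC, hdC⟩ := exists_entry C
  have hid : dd A a B b * C k l = dd A a C l * B k b - dd B b C l * A k a := by
    unfold dd
    fin_cases k
    · show (A 0 a * B 1 b - A 1 a * B 0 b) * C 0 l = (A 0 a * C 1 l - A 1 a * C 0 l) * B 0 b -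
        (B 0 b * C 1 l - B 1 b * C 0 l) * A 0 a
      ring
    · show (A 0 a * B 1 b - A 1 a * B 0 b) * C 1 l = (A 0 a * C 1 l - A 1 a * C 0 l) * B 1 b -
        (B 0 b * C 1 l - B 1 b * C 0 l) * A 1 a
      ring
  have h1 : (dd A a B b * C k l).natDegree = dg (A⁻¹ * B) + dg C := by
    rw [natDegree_mul hne hC, hd, hdC]
  rw [← h1, hid]
  refine (natDegree_sub_le _ _).trans ?_
  refine max_le_max ?_ ?_
  · exact natDegree_mul_le.trans (add_le_add (dd_natDegree _ _ _ _) (le_dg _ _ _))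
  · exact natDegree_mul_le.trans (add_le_add (dd_natDegree _ _ _ _) (le_dg _ _ _))

/-- tree length on `Gam` -/
noncomputable def ell (g : Gam) : ℕ := dg g.M

lemma ell_one : ell 1 = 0 := by
  have : dg (1 : SL) ≤ 0 := by
    rw [dg_le_iff]
    intro a b
    fin_cases a <;> fin_cases b <;> simp
  exact Nat.le_zero.1 this

lemma ell_inv (g : Gam) : ell g⁻¹ = ell g := by
  unfold ell
  rw [Gam.inv_M, ths_dg, dg_inv]

lemma ell_mul_le (a b : Gam) : ell (a * b) ≤ ell a + ell b := by
  unfold ell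
  rw [Gam.mul_M]
  refine (dg_mul_le _ _).trans ?_
  rw [ths_dg]

lemma ell_inv_mul (a b : Gam) : ell (a⁻¹ * b) = dg (a.M⁻¹ * b.M) := by
  unfold ell
  rw [Gam.mul_M, Gam.inv_M, Gam.inv_h, Heis.inv_k, ← map_mul, ths_dg]

lemma four (a b c : Gam) :
    ell (a⁻¹ * b) + ell c ≤ max (ell (a⁻¹ * c) + ell b) (ell (b⁻¹ * c) + ell a) := by
  rw [ell_inv_mul, ell_inv_mul, ell_inv_mul]
  exact four_SL a.M b.M c.M

lemma ell_comm (a b : Gam) : ell (a⁻¹ * b) = ell (b⁻¹ * a) := by
  rw [← ell_inv (a⁻¹ * b), _root_.mul_inv_rev, inv_inv]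

end Pool.Agent.R707.Selfless
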