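import Pool.Agent.R707.SelflessA

/-! Helper module: geometry of the length function and reduced words. -/

open Polynomial Matrix

namespace Pool.Agent.R707.Selfless

/-- `p` lies on the geodesic from `1` to `g`. -/
def Bey (p g : Gam) : Prop := ell g = ell p + ell (p⁻¹ * g)

lemma bey_iff_le (p g : Gam) : Bey p g ↔ ell p + ell (p⁻¹ * g) ≤ ell g := by
  unfold Bey
  constructor
  · intro h; omega
  · intro h
    have : ell g ≤ ell p + ell (p⁻¹ * g) := by
      have := ell_mul_le p (p⁻¹ * g)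
      rwa [mul_inv_cancel_left] at this
    omega

lemma tri (p g : Gam) : ell g ≤ ell p + ell (p⁻¹ * g) := by
  have := ell_mul_le p (p⁻¹ * g)
  rwa [mul_inv_cancel_left] at this

lemma tri' (p g : Gam) : ell p ≤ ell g + ell (p⁻¹ * g) := by
  have := tri g p
  rwa [ell_comm] at this

lemma T1 {p q w : Gam} (h : Bey p q) (hle : 2 * ell p + ell (w⁻¹ * q) ≤ ell w + ell q) :
    Bey p w := by
  rw [bey_iff_le]
  have hf := four w p q
  rw [ell_comm w p] at hf
  unfold Bey at h
  rcases le_max_iff.1 hf with h1 | h1 <;> omega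

lemma T2 {p p' w : Gam} (h : Bey p w) (h' : Bey p' w) (he : ell p = ell p') :
    ell (p⁻¹ * p') = 0 := by
  have hf := four p p' w
  unfold Bey at h h'
  rcases le_max_iff.1 hf with h1 | h1 <;> omega

lemma T3 {p y : Gam} (b : Gam) (h : Bey p y) (hle : ell b + ell y ≤ 2 * ell p + ell (b * y)) :
    Bey (b * p) (b * y) ∧ ell (b * p) + ell y = ell (b * y) + ell p := by
  have hf := four b⁻¹ p y
  rw [inv_inv, ell_inv] at hf
  have e1 : (b * p)⁻¹ * (b * y) = p⁻¹ * y := by group
  have ht := tri (b * p) (b * y)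
  rw [e1] at ht
  have h2 := h
  unfold Bey at h2
  have hup : ell (b * p) + ell y ≤ ell (b * y) + ell p := by
    rcases le_max_iff.1 hf with h1 | h1 <;> omega
  refine ⟨?_, by omega⟩
  rw [bey_iff_le, e1]
  omega

lemma T4 {p g g' : Gam} (h : Bey p g') (hn : ¬ Bey p g) (h1 : ell (g⁻¹ * g') ≤ 1) :
    ell (p⁻¹ * g') = 0 := by
  by_contra hne
  apply hn
  apply T1 h
  have h2 := h
  unfold Bey at h2
  have h3 := tri' g' g
  rw [ell_comm] at h3
  omega

lemma bey_mono {p q g : Gam} (h1 : Bey p q) (h2 : Bey q g) : Bey p g := by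
  rw [bey_iff_le]
  unfold Bey at h1 h2
  have h3 := ell_mul_le (p⁻¹ * q) (q⁻¹ * g)
  have e : p⁻¹ * q * (q⁻¹ * g) = p⁻¹ * g := by group
  rw [e] at h3
  omega

/-- the shear matrices -/
noncomputable def Umat (p : KK) : SL :=
  ⟨!![1 + C p, - C p; C p, 1 - C p], by rw [det_fin_two_of]; ring⟩

lemma Umat_mul (p q : KK) : Umat p * Umat q = Umat (p + q) := by
  apply Subtype.ext
  show (Umat p).1 * (Umat q).1 = (Umat (p + q)).1
  unfold Umat
  simp only
  rw [mul_fin_two, C_add]
  refine Matrix.ext fun a b => ?_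
  fin_cases a <;> fin_cases b
  · show (1 + C p) * (1 + C q) + (-C p) * C q = 1 + (C p + C q)
    ring
  · show (1 + C p) * (-C q) + (-C p) * (1 - C q) = -(C p + C q)
    ring
  · show C p * (1 + C q) + (1 - C p) * C q = C p + C q
    ring
  · show C p * (-C q) + (1 - C p) * (1 - C q) = 1 - (C p + C q)
    ring

lemma Umat_zero : Umat 0 = 1 := by
  apply Subtype.ext
  unfold Umat
  ext a b
  fin_cases a <;> fin_cases b <;> simp

/-- the translation parameter of a Heisenberg element -/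
noncomputable def pv (h : Heis) : KK := C (2 * h.i) * X + C (2 * h.j)

lemma th_Umat (m : ℤ) (h : Heis) : ths m (Umat (pv h)) = Umat (pv ⟨h.i, h.j + m * h.i, h.k⟩) := by
  have key : taylorAlgHom m (pv h) = pv ⟨h.i, h.j + m * h.i, h.k⟩ := by
    unfold pv
    show taylor m (C (2 * h.i) * X + C (2 * h.j)) = _
    rw [map_add, taylor_mul, taylor_C, taylor_X, taylor_C, mul_add, ← C_mul, add_assoc, ← C_add]
    congr 2
    ring
  have key2 : th m (C (pv h)) = C (pv ⟨h.i, h.j + m * h.i, h.k⟩) := by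
    rw [th_apply, map_C]
    congr 1
  apply Subtype.ext
  ext a b : 2
  have : (ths m (Umat (pv h))).1 a b = th m ((Umat (pv h)).1 a b) := rfl
  rw [this]
  unfold Umat
  fin_cases a <;> fin_cases b <;> simp [key2]

/-- embedding of the Heisenberg group -/
noncomputable def iot : Heis →* Gam where
  toFun h := ⟨Umat (pv h), h⟩
  map_one' := by
    ext1
    · show Umat (pv 1) = 1
      have : pv 1 = 0 := by unfold pv; simp
      rw [this, Umat_zero]
    · rfl
  map_mul' a b := by
    ext1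
    · show Umat (pv (a * b)) = Umat (pv a) * ths a.k (Umat (pv b))
      rw [th_Umat, Umat_mul]
      congr 1
      unfold pv
      simp only [Heis.mul_i, Heis.mul_j]
      rw [show (2 * (a.i + b.i)) = 2 * a.i + 2 * b.i by ring,
        show 2 * (a.j + b.j + a.k * b.i) = 2 * a.j + 2 * (b.j + a.k * b.i) by ring]
      simp only [C_add]
      ring
    · rfl

lemma iot_M (h : Heis) : (iot h).M = Umat (pv h) := rfl
@[simp] lemma iot_h (h : Heis) : (iot h).h = h := rfl

lemma dg_Umat (p : KK) : dg (Umat p) = 0 := by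
  apply Nat.le_zero.1
  rw [dg_le_iff]
  intro a b
  unfold Umat
  fin_cases a <;> fin_cases b
  · show (1 + C p : RR).natDegree ≤ 0
    rw [← C_1, ← C_add, natDegree_C]
  · show (-C p : RR).natDegree ≤ 0
    rw [natDegree_neg, natDegree_C]
  · show (C p : RR).natDegree ≤ 0
    rw [natDegree_C]
  · show (1 - C p : RR).natDegree ≤ 0
    rw [← C_1, ← C_sub, natDegree_C]

lemma ell_iot (h : Heis) : ell (iot h) = 0 := dg_Umat _

lemma ell_mul_iot (g : Gam) (h : Heis) : ell (g * iot h) = ell g := by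
  apply le_antisymm
  · have := ell_mul_le g (iot h)
    rwa [ell_iot, add_zero] at this
  · have := ell_mul_le (g * iot h) (iot h)⁻¹
    rwa [ell_inv, ell_iot, add_zero, mul_inv_cancel_right] at this

lemma ell_iot_mul (g : Gam) (h : Heis) : ell (iot h * g) = ell g := by
  rw [← ell_inv, _root_.mul_inv_rev, ← map_inv, ell_mul_iot, ell_inv]

noncomputable def tmat : SL := ⟨!![X, 1; -1, 0], by rw [det_fin_two_of]; ring⟩

lemma ths_tmat (m : ℤ) : ths m tmat = tmat := by
  apply Subtype.ext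
  ext a b : 2
  have : (ths m tmat).1 a b = th m (tmat.1 a b) := rfl
  rw [this]
  unfold tmat
  fin_cases a <;> fin_cases b <;> simp [th_apply]

noncomputable def tt : Gam := ⟨tmat, 1⟩

/-- `t` or its inverse -/
noncomputable def tau (e : Bool) : Gam := if e then tt else tt⁻¹

lemma tau_inv (e : Bool) : (tau e)⁻¹ = tau (!e) := by
  cases e <;> simp [tau]

lemma tt_comm (r : ℤ) : tt * iot ⟨0, 0, r⟩ = iot ⟨0, 0, r⟩ * tt := by
  have hp : pv ⟨0, 0, r⟩ = 0 := by unfold pv; simp
  ext1
  · show tmat * ths (1 : Heis).k (Umat (pv ⟨0, 0, r⟩)) = Umat (pv ⟨0, 0, r⟩) * ths r tmat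
    rw [hp, Umat_zero, ths_tmat, map_one, mul_one, one_mul]
  · show (1 : Heis) * ⟨0, 0, r⟩ = ⟨0, 0, r⟩ * 1
    rw [one_mul, mul_one]

lemma tau_comm (e : Bool) (r : ℤ) : tau e * iot ⟨0, 0, r⟩ = iot ⟨0, 0, r⟩ * tau e := by
  cases e
  · show tt⁻¹ * _ = _ * tt⁻¹
    rw [eq_mul_inv_iff_mul_eq, mul_assoc, ← tt_comm, inv_mul_cancel_left]
  · exact tt_comm r

end Pool.Agent.R707.Selfless
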