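import Pool.Agent.R707.SelflessB

/-! Helper module: reduced words and their length. -/

open Polynomial Matrix

namespace Pool.Agent.R707.Selfless

/-- column index attached to a sign -/
def cI (e : Bool) : Fin 2 := if e then 0 else 1

/-- growth of columns -/
def Col (r : ℕ) (e : Bool) (A : SL) : Prop :=
  (∃ a, (A a (cI e)).coeff r ≠ 0) ∧ (∀ a, (A a (cI e)).natDegree ≤ r) ∧
    (∀ a, (A a (cI (!e))).natDegree + 1 ≤ r)

lemma Col.dg {r : ℕ} {e : Bool} {A : SL} (h : Col r e A) : dg A = r := by
  obtain ⟨⟨a, ha⟩, h1, h2⟩ := h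
  apply le_antisymm
  · rw [dg_le_iff]
    intro a b
    cases e
    · fin_cases b
      · have := h2 a; simp [cI] at this; show (A a 0).natDegree ≤ r; omega
      · have := h1 a; simpa [cI] using this
    · fin_cases b
      · have := h1 a; simpa [cI] using this
      · have := h2 a; simp [cI] at this; show (A a 1).natDegree ≤ r; omega
  · exact (le_natDegree_of_ne_zero ha).trans (le_dg A _ _)

noncomputable def tm (e : Bool) : SL := if e then tmat else tmat⁻¹

lemma tau_M (e : Bool) : (tau e).M = tm e := by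
  cases e
  · show ths (-(1 : Heis).k) tmat⁻¹ = tmat⁻¹
    rw [map_inv, ths_tmat]
  · rfl

lemma ths_tm (m : ℤ) (e : Bool) : ths m (tm e) = tm e := by
  cases e
  · show ths m tmat⁻¹ = tmat⁻¹
    rw [map_inv, ths_tmat]
  · exact ths_tmat m

lemma tau_h (e : Bool) : (tau e).h = 1 := by
  cases e
  · show (1 : Heis)⁻¹ = 1
    simp
  · rfl

lemma mul_tm_true (B : SL) (a : Fin 2) :
    (B * tm true) a 0 = B a 0 * X - B a 1 ∧ (B * tm true) a 1 = B a 0 := by
  constructor
  · rw [mul_entries]
    show B a 0 * X + B a 1 * (-1) = _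
    ring
  · rw [mul_entries]
    show B a 0 * 1 + B a 1 * 0 = _
    ring

lemma mul_tm_false (B : SL) (a : Fin 2) :
    (B * tm false) a 0 = B a 1 ∧ (B * tm false) a 1 = B a 1 * X - B a 0 := by
  have ht : tm false = tmat⁻¹ := rfl
  obtain ⟨h1, h2, h3, h4⟩ := inv_entries tmat
  constructor
  · rw [mul_entries, ht, h1, h3]
    show B a 0 * 0 + B a 1 * (-(-1)) = _
    ring
  · rw [mul_entries, ht, h2, h4]
    show B a 0 * (-1) + B a 1 * X = _
    ring

lemma mul_Umat (A : SL) (p : KK) (a : Fin 2) :
    (A * Umat p) a 0 = A a 0 * C (1 + p) + A a 1 * C p ∧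
    (A * Umat p) a 1 = A a 1 * C (1 - p) - A a 0 * C p := by
  constructor
  · rw [mul_entries]
    show A a 0 * (1 + C p) + A a 1 * C p = _
    rw [C_add, C_1]
  · rw [mul_entries]
    show A a 0 * (- C p) + A a 1 * (1 - C p) = _
    rw [C_sub, C_1]
    ring

lemma natDegree_mul_C_le' (f : RR) (p : KK) : (f * C p).natDegree ≤ f.natDegree :=
  natDegree_mul_C_le f p

lemma col_step {r : ℕ} {e : Bool} {A : SL} (h : Col r e A) (p : KK)
    (h1 : 1 + p ≠ 0) (h2 : 1 - p ≠ 0) (e' : Bool) (he : e' = e ∨ p ≠ 0) :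
    Col (r + 1) e' (A * Umat p * tm e') := by
  obtain ⟨⟨a, ha⟩, hle, hlt⟩ := h
  set B := A * Umat p with hB
  -- all entries of A have degree ≤ r
  have hA : ∀ a b, (A a b).natDegree ≤ r := by
    intro a b
    cases e
    · fin_cases b
      · have := hlt a; simp [cI] at this; show (A a 0).natDegree ≤ r; omega
      · have := hle a; simpa [cI] using this
    · fin_cases b
      · have := hle a; simpa [cI] using this
      · have := hlt a; simp [cI] at this; show (A a 1).natDegree ≤ r; omega
  have hB0 : ∀ a, (B a 0).natDegree ≤ r := by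
    intro a
    rw [(mul_Umat A p a).1]
    exact (natDegree_add_le _ _).trans (max_le ((natDegree_mul_C_le' _ _).trans (hA _ _))
      ((natDegree_mul_C_le' _ _).trans (hA _ _)))
  have hB1 : ∀ a, (B a 1).natDegree ≤ r := by
    intro a
    rw [(mul_Umat A p a).2]
    exact (natDegree_sub_le _ _).trans (max_le ((natDegree_mul_C_le' _ _).trans (hA _ _))
      ((natDegree_mul_C_le' _ _).trans (hA _ _)))
  have hc0 : ∀ a, (B a 0).coeff r = (A a 0).coeff r * (1 + p) + (A a 1).coeff r * p := by
    intro a
    rw [(mul_Umat A p a).1, coeff_add, coeff_mul_C, coeff_mul_C]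
  have hc1 : ∀ a, (B a 1).coeff r = (A a 1).coeff r * (1 - p) - (A a 0).coeff r * p := by
    intro a
    rw [(mul_Umat A p a).2, coeff_sub, coeff_mul_C, coeff_mul_C]
  cases e'
  · -- multiply by the inverse of t
    have key : (B a 1).coeff r ≠ 0 := by
      rw [hc1]
      cases e
      · have h0 : (A a 0).coeff r = 0 := by
          apply coeff_eq_zero_of_natDegree_lt
          have := hlt a; simp [cI] at this; omega
        have ha' : (A a 1).coeff r ≠ 0 := by simpa [cI] using ha
        rw [h0, zero_mul, sub_zero]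
        exact mul_ne_zero ha' h2
      · have h0 : (A a 1).coeff r = 0 := by
          apply coeff_eq_zero_of_natDegree_lt
          have := hlt a; simp [cI] at this; omega
        have ha' : (A a 0).coeff r ≠ 0 := by simpa [cI] using ha
        have hp : p ≠ 0 := by
          rcases he with he | he
          · exact absurd he (by simp)
          · exact he
        rw [h0, zero_mul, zero_sub]
        exact neg_ne_zero.2 (mul_ne_zero ha' hp)
    refine ⟨⟨a, ?_⟩, ?_, ?_⟩
    · show ((B * tm false) a 1).coeff (r + 1) ≠ 0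
      rw [(mul_tm_false B a).2, coeff_sub, coeff_mul_X,
        coeff_eq_zero_of_natDegree_lt (Nat.lt_succ_of_le (hB0 a)), sub_zero]
      exact key
    · intro a
      show ((B * tm false) a 1).natDegree ≤ r + 1
      rw [(mul_tm_false B a).2]
      refine (natDegree_sub_le _ _).trans (max_le ?_ ((hB0 a).trans (Nat.le_succ r)))
      exact natDegree_mul_le.trans (add_le_add (hB1 a) natDegree_X_le)
    · intro a
      show ((B * tm false) a 0).natDegree + 1 ≤ r + 1
      rw [(mul_tm_false B a).1]
      have := hB1 a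
      omega
  · have key : (B a 0).coeff r ≠ 0 := by
      rw [hc0]
      cases e
      · have h0 : (A a 0).coeff r = 0 := by
          apply coeff_eq_zero_of_natDegree_lt
          have := hlt a; simp [cI] at this; omega
        have ha' : (A a 1).coeff r ≠ 0 := by simpa [cI] using ha
        have hp : p ≠ 0 := by
          rcases he with he | he
          · exact absurd he (by simp)
          · exact he
        rw [h0, zero_mul, zero_add]
        exact mul_ne_zero ha' hp
      · have h0 : (A a 1).coeff r = 0 := by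
          apply coeff_eq_zero_of_natDegree_lt
          have := hlt a; simp [cI] at this; omega
        have ha' : (A a 0).coeff r ≠ 0 := by simpa [cI] using ha
        rw [h0, zero_mul, add_zero]
        exact mul_ne_zero ha' h1
    refine ⟨⟨a, ?_⟩, ?_, ?_⟩
    · show ((B * tm true) a 0).coeff (r + 1) ≠ 0
      rw [(mul_tm_true B a).1, coeff_sub, coeff_mul_X,
        coeff_eq_zero_of_natDegree_lt (Nat.lt_succ_of_le (hB1 a)), sub_zero]
      exact key
    · intro a
      show ((B * tm true) a 0).natDegree ≤ r + 1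
      rw [(mul_tm_true B a).1]
      refine (natDegree_sub_le _ _).trans (max_le ?_ ((hB1 a).trans (Nat.le_succ r)))
      exact natDegree_mul_le.trans (add_le_add (hB0 a) natDegree_X_le)
    · intro a
      show ((B * tm true) a 1).natDegree + 1 ≤ r + 1
      rw [(mul_tm_true B a).2]
      have := hB0 a
      omega

lemma col_base (p : KK) (h1 : 1 + p ≠ 0) (h2 : 1 - p ≠ 0) (e : Bool) :
    Col 1 e (Umat p * tm e) := by
  have hU0 : ∀ a b, (Umat p a b).natDegree = 0 := by
    intro a b
    have := le_dg (Umat p) a b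
    rw [dg_Umat] at this
    omega
  cases e
  · refine ⟨⟨1, ?_⟩, ?_, ?_⟩
    · show ((Umat p * tm false) 1 1).coeff (0 + 1) ≠ 0
      rw [(mul_tm_false _ 1).2, coeff_sub, coeff_mul_X,
        coeff_eq_zero_of_natDegree_lt (n := 0 + 1) (by rw [hU0]; omega), sub_zero]
      show (1 - C p : RR).coeff 0 ≠ 0
      rw [← C_1, ← C_sub, coeff_C_zero]
      exact h2
    · intro a
      show ((Umat p * tm false) a 1).natDegree ≤ 1
      rw [(mul_tm_false _ a).2]
      refine (natDegree_sub_le _ _).trans (max_le ?_ (by rw [hU0]; omega))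
      refine natDegree_mul_le.trans ?_
      rw [hU0, natDegree_X]
    · intro a
      show ((Umat p * tm false) a 0).natDegree + 1 ≤ 1
      rw [(mul_tm_false _ a).1, hU0]
  · refine ⟨⟨0, ?_⟩, ?_, ?_⟩
    · show ((Umat p * tm true) 0 0).coeff (0 + 1) ≠ 0
      rw [(mul_tm_true _ 0).1, coeff_sub, coeff_mul_X,
        coeff_eq_zero_of_natDegree_lt (n := 0 + 1) (by rw [hU0]; omega), sub_zero]
      show (1 + C p : RR).coeff 0 ≠ 0
      rw [← C_1, ← C_add, coeff_C_zero]
      exact h1
    · intro a
      show ((Umat p * tm true) a 0).natDegree ≤ 1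
      rw [(mul_tm_true _ a).1]
      refine (natDegree_sub_le _ _).trans (max_le ?_ (by rw [hU0]; omega))
      refine natDegree_mul_le.trans ?_
      rw [hU0, natDegree_X]
    · intro a
      show ((Umat p * tm true) a 1).natDegree + 1 ≤ 1
      rw [(mul_tm_true _ a).2, hU0]

lemma pv_coeff_zero (h : Heis) : (pv h).coeff 0 = 2 * h.j := by
  unfold pv
  simp only [coeff_add, coeff_C_mul, coeff_X_zero, coeff_C_zero, mul_zero, zero_add]

lemma pv_coeff_one (h : Heis) : (pv h).coeff 1 = 2 * h.i := by
  unfold pv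
  rw [coeff_add, coeff_C_mul, coeff_X_one, coeff_C_of_ne_zero (by norm_num)]
  ring

lemma one_add_pv (h : Heis) : 1 + pv h ≠ 0 := by
  intro h0
  have := congrArg (fun f : KK => f.coeff 0) h0
  simp only [coeff_add, coeff_one_zero, pv_coeff_zero, coeff_zero] at this
  omega

lemma one_sub_pv (h : Heis) : 1 - pv h ≠ 0 := by
  intro h0
  have := congrArg (fun f : KK => f.coeff 0) h0
  simp only [coeff_sub, coeff_one_zero, pv_coeff_zero, coeff_zero] at this
  omega

lemma pv_ne_zero {h : Heis} (hh : ¬ (h.i = 0 ∧ h.j = 0)) : pv h ≠ 0 := by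
  intro h0
  apply hh
  have e0 := congrArg (fun f : KK => f.coeff 0) h0
  have e1 := congrArg (fun f : KK => f.coeff 1) h0
  simp only [pv_coeff_zero, pv_coeff_one, coeff_zero] at e0 e1
  omega

/-- reduced words ending with a letter `t^{±1}` -/
inductive W : ℕ → Bool → Gam → Prop
  | base (h : Heis) (e : Bool) : W 1 e (iot h * tau e)
  | step {r : ℕ} {e : Bool} {g : Gam} (h : Heis) (e' : Bool) (hw : W r e g)
      (hc : e' = e ∨ ¬ (h.i = 0 ∧ h.j = 0)) : W (r + 1) e' (g * iot h * tau e')

lemma W.pos {r : ℕ} {e : Bool} {g : Gam} (h : W r e g) : 1 ≤ r := by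
  cases h <;> omega

lemma W.col {r : ℕ} {e : Bool} {g : Gam} (h : W r e g) : Col r e g.M := by
  induction h with
  | base h e =>
    show Col 1 e (Umat (pv h) * ths h.k (tau e).M)
    rw [tau_M, ths_tm]
    exact col_base _ (one_add_pv h) (one_sub_pv h) e
  | @step r e g h e' hw hc ih =>
    have e1 : (g * iot h * tau e').M =
        g.M * Umat (pv ⟨h.i, h.j + g.h.k * h.i, h.k⟩) * tm e' := by
      show g.M * ths g.h.k (Umat (pv h)) * ths (g.h.k + h.k) (tau e').M = _
      rw [tau_M, ths_tm, th_Umat]
    rw [e1]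
    apply col_step ih _ (one_add_pv _) (one_sub_pv _)
    rcases hc with hc | hc
    · exact Or.inl hc
    · right
      apply pv_ne_zero
      rintro ⟨h1, h2⟩
      apply hc
      simp only at h1 h2
      rw [h1, mul_zero, add_zero] at h2
      exact ⟨h1, h2⟩

lemma W.ell {r : ℕ} {e : Bool} {g : Gam} (h : W r e g) : ell g = r := h.col.dg

/-- the generating elements -/
noncomputable def gx : Gam := iot ⟨0, 0, 1⟩
noncomputable def gy : Gam := iot ⟨1, 0, 0⟩

/-- letters -/
def IsL (s : Gam) : Prop := (∃ e, s = tau e) ∨ ∃ b k : ℤ, |b| ≤ 1 ∧ |k| ≤ 1 ∧ b * k = 0 ∧ s = iot ⟨b, 0, k⟩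

/-- normal forms -/
lemma normal_form (w : List Gam) (hw : ∀ s ∈ w, IsL s) :
    (∃ h, w.prod = iot h) ∨ ∃ r e g h, W r e g ∧ w.prod = g * iot h := by
  induction w using List.reverseRecOn with
  | nil => exact Or.inl ⟨1, by simp⟩
  | append_singleton w s ih =>
    have ih := ih (fun a ha => hw a (by simp [ha]))
    have hs := hw s (by simp)
    rw [List.prod_append, List.prod_singleton]
    rcases hs with ⟨e', rfl⟩ | ⟨b, k, -, -, -, rfl⟩
    · rcases ih with ⟨h, hh⟩ | ⟨r, e, g, h, hW, hh⟩
      · right
        exact ⟨1, e', _, 1, W.base h e', by rw [hh, map_one, mul_one]⟩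
      · by_cases hc : e' = e ∨ ¬ (h.i = 0 ∧ h.j = 0)
        · right
          exact ⟨r + 1, e', _, 1, W.step h e' hW hc, by rw [hh, map_one, mul_one]⟩
        · rw [not_or, not_not] at hc
          obtain ⟨hne, hi, hj⟩ := hc
          have hh' : h = ⟨0, 0, h.k⟩ := Heis.ext hi hj rfl
          have hee : tau e * iot h * tau e' = iot h := by
            have : e' = !e := by clear * - hne; revert hne; cases e <;> cases e' <;> simp
            rw [this, ← tau_inv, hh', tau_comm, mul_assoc, mul_inv_cancel, mul_one]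
          cases hW with
          | base h0 _ =>
            left
            refine ⟨h0 * h, ?_⟩
            rw [hh, map_mul, mul_assoc, mul_assoc, ← mul_assoc (tau e), hee]
          | @step r0 e0 g0 h0 _ hw0 hc0 =>
            right
            refine ⟨r0, e0, g0, h0 * h, hw0, ?_⟩
            rw [hh, map_mul, mul_assoc, mul_assoc, mul_assoc, ← mul_assoc (tau e), hee]
    · rcases ih with ⟨h, hh⟩ | ⟨r, e, g, h, hW, hh⟩
      · left; exact ⟨h * ⟨b, 0, k⟩, by rw [hh, map_mul]⟩
      · right; exact ⟨r, e, g, h * ⟨b, 0, k⟩, hW, by rw [hh, map_mul, mul_assoc]⟩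

lemma mem_range_of_ell_zero (w : List Gam) (hw : ∀ s ∈ w, IsL s) (h0 : ell w.prod = 0) :
    ∃ h, w.prod = iot h := by
  rcases normal_form w hw with h | ⟨r, e, g, h, hW, hh⟩
  · exact h
  · exfalso
    rw [hh, ell_mul_iot, hW.ell] at h0
    have := hW.pos
    omega

end Pool.Agent.R707.Selfless
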