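import Pool.Agent.R707.SelflessC

/-! Helper module: paths in the tree and counting of letters. -/

open Polynomial Matrix

namespace Pool.Agent.R707.Selfless

lemma IsL.inv {s : Gam} (h : IsL s) : IsL s⁻¹ := by
  rcases h with ⟨e, rfl⟩ | ⟨b, k, hb, hk, hbk, rfl⟩
  · exact Or.inl ⟨!e, tau_inv e⟩
  · right
    refine ⟨-b, -k, by rwa [abs_neg], by rwa [abs_neg], by rw [neg_mul_neg]; exact hbk, ?_⟩
    rw [← map_inv]
    congr 1
    ext
    · rfl
    · show -0 + k * b = 0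
      rw [mul_comm, hbk]; norm_num
    · rfl

/-- the group generated by `x, y, t` -/
noncomputable def GG : Subgroup Gam := Subgroup.closure {gx, gy, tt}

lemma zpow_y (n : ℤ) : (⟨1, 0, 0⟩ : Heis) ^ n = ⟨n, 0, 0⟩ := by
  induction n using Int.induction_on with
  | zero => rfl
  | succ n ih => rw [_root_.zpow_add_one, ih]; ext <;> simp
  | pred n ih => rw [_root_.zpow_sub_one, ih]; ext <;> simp <;> ring

lemma zpow_w (n : ℤ) : (⟨0, 1, 0⟩ : Heis) ^ n = ⟨0, n, 0⟩ := by
  induction n using Int.induction_on with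
  | zero => rfl
  | succ n ih => rw [_root_.zpow_add_one, ih]; ext <;> simp
  | pred n ih => rw [_root_.zpow_sub_one, ih]; ext <;> simp <;> ring

lemma zpow_x (n : ℤ) : (⟨0, 0, 1⟩ : Heis) ^ n = ⟨0, 0, n⟩ := by
  induction n using Int.induction_on with
  | zero => rfl
  | succ n ih => rw [_root_.zpow_add_one, ih]; ext <;> simp
  | pred n ih => rw [_root_.zpow_sub_one, ih]; ext <;> simp <;> ring

lemma gx_mem : gx ∈ GG := Subgroup.subset_closure (by simp)
lemma gy_mem : gy ∈ GG := Subgroup.subset_closure (by simp)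
lemma tt_mem : tt ∈ GG := Subgroup.subset_closure (by simp)

lemma tau_mem (e : Bool) : tau e ∈ GG := by
  cases e
  · exact GG.inv_mem tt_mem
  · exact tt_mem

lemma iot_mem (h : Heis) : iot h ∈ GG := by
  have hw : iot ⟨0, 1, 0⟩ ∈ GG := by
    have : (⟨0, 1, 0⟩ : Heis) = ⟨0, 0, 1⟩ * ⟨1, 0, 0⟩ * (⟨0, 0, 1⟩ : Heis)⁻¹ * (⟨1, 0, 0⟩ : Heis)⁻¹ := by
      ext <;> simp
    rw [this]
    simp only [map_mul, map_inv]
    exact GG.mul_mem (GG.mul_mem (GG.mul_mem gx_mem gy_mem) (GG.inv_mem gx_mem))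
      (GG.inv_mem gy_mem)
  have : h = (⟨1, 0, 0⟩ : Heis) ^ h.i * (⟨0, 1, 0⟩ : Heis) ^ h.j * (⟨0, 0, 1⟩ : Heis) ^ h.k := by
    rw [zpow_y, zpow_w, zpow_x]
    ext <;> simp
  rw [this]
  simp only [map_mul, map_zpow]
  exact GG.mul_mem (GG.mul_mem (GG.zpow_mem gy_mem _) (GG.zpow_mem hw _)) (GG.zpow_mem gx_mem _)

lemma IsL.mem {s : Gam} (h : IsL s) : s ∈ GG := by
  rcases h with ⟨e, rfl⟩ | ⟨b, k, -, -, -, rfl⟩
  · exact tau_mem e
  · exact iot_mem _

lemma exists_word {g : Gam} (hg : g ∈ GG) : ∃ w : List Gam, (∀ s ∈ w, IsL s) ∧ w.prod = g := by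
  refine Subgroup.closure_induction (p := fun g _ => ∃ w : List Gam, (∀ s ∈ w, IsL s) ∧ w.prod = g)
    ?_ ?_ ?_ ?_ hg
  · intro s hs
    refine ⟨[s], ?_, by simp⟩
    intro a ha
    rw [List.mem_singleton] at ha
    subst ha
    rcases hs with rfl | rfl | rfl
    · exact Or.inr ⟨0, 1, by norm_num, by norm_num, by norm_num, rfl⟩
    · exact Or.inr ⟨1, 0, by norm_num, by norm_num, by norm_num, rfl⟩
    · exact Or.inl ⟨true, rfl⟩
  · exact ⟨[], by simp, rfl⟩
  · rintro a b _ _ ⟨w, hw, rfl⟩ ⟨v, hv, rfl⟩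
    refine ⟨w ++ v, ?_, List.prod_append⟩
    intro s hs
    rcases List.mem_append.1 hs with h | h
    · exact hw s h
    · exact hv s h
  · rintro a _ ⟨w, hw, rfl⟩
    refine ⟨(w.map (·⁻¹)).reverse, ?_, (List.prod_inv_reverse w).symm⟩
    intro s hs
    rw [List.mem_reverse, List.mem_map] at hs
    obtain ⟨a, ha, rfl⟩ := hs
    exact (hw a ha).inv

lemma range_of_ell_zero {g : Gam} (hg : g ∈ GG) (h0 : ell g = 0) : ∃ h, g = iot h := by
  obtain ⟨w, hw, rfl⟩ := exists_word hg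
  exact mem_range_of_ell_zero w hw h0

lemma iot_inj {a b : Heis} (h : iot a = iot b) : a = b := congrArg Gam.h h

/-- paths -/
noncomputable def Q (e : Bool) (b : ℕ → ℤ) (l : ℕ) : ℕ → Gam
  | 0 => 1
  | m + 1 => Q e b l m * iot ⟨b (l + m), 0, 0⟩ * tau e

lemma Q_zero (e : Bool) (b : ℕ → ℤ) (l : ℕ) : Q e b l 0 = 1 := rfl
lemma Q_succ (e : Bool) (b : ℕ → ℤ) (l m : ℕ) :
    Q e b l (m + 1) = Q e b l m * iot ⟨b (l + m), 0, 0⟩ * tau e := rfl

lemma Q_add (e : Bool) (b : ℕ → ℤ) (k l m : ℕ) : Q e b k (l + m) = Q e b k l * Q e b (k + l) m := by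
  induction m with
  | zero => rw [add_zero, Q_zero, mul_one]
  | succ m ih => rw [← add_assoc, Q_succ, ih, Q_succ, add_assoc]; simp only [mul_assoc]

lemma Q_W (e : Bool) (b : ℕ → ℤ) (l m : ℕ) : W (m + 1) e (Q e b l (m + 1)) := by
  induction m with
  | zero => rw [Q_succ, Q_zero, one_mul]; exact W.base _ _
  | succ m ih => rw [Q_succ e b l (m + 1)]; exact W.step _ _ ih (Or.inl rfl)

lemma Q_ell (e : Bool) (b : ℕ → ℤ) (l m : ℕ) : ell (Q e b l m) = m := by
  cases m with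
  | zero => rw [Q_zero, ell_one]
  | succ m => exact (Q_W e b l m).ell

lemma Q_mem (e : Bool) (b : ℕ → ℤ) (l m : ℕ) : Q e b l m ∈ GG := by
  induction m with
  | zero => exact GG.one_mem
  | succ m ih => rw [Q_succ]; exact GG.mul_mem (GG.mul_mem ih (iot_mem _)) (tau_mem _)

lemma Q_k (e : Bool) (b : ℕ → ℤ) (l m : ℕ) : (Q e b l m).h.k = 0 := by
  induction m with
  | zero => rfl
  | succ m ih =>
    rw [Q_succ, Gam.mul_h, Gam.mul_h, tau_h, mul_one, Heis.mul_k, ih]
    rfl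

lemma Q_bey (e : Bool) (b : ℕ → ℤ) {l m : ℕ} (h : l ≤ m) : Bey (Q e b 0 l) (Q e b 0 m) := by
  obtain ⟨k, rfl⟩ := Nat.exists_eq_add_of_le h
  unfold Bey
  rw [Q_ell, Q_ell, Q_add, inv_mul_cancel_left, Q_ell]

/-- conjugation by `x^N` -/
noncomputable def psi (N : ℤ) : Gam →* Gam := (MulAut.conj (iot ⟨0, 0, N⟩)).toMonoidHom

lemma psi_apply (N : ℤ) (g : Gam) : psi N g = iot ⟨0, 0, N⟩ * g * (iot ⟨0, 0, N⟩)⁻¹ := rfl

lemma psi_tau (N : ℤ) (e : Bool) : psi N (tau e) = tau e := by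
  rw [psi_apply, ← tau_comm, mul_inv_cancel_right]

lemma psi_iot (N : ℤ) (h : Heis) : psi N (iot h) = iot (⟨0, 0, N⟩ * h * (⟨0, 0, N⟩ : Heis)⁻¹) := by
  rw [psi_apply, map_mul, map_mul, map_inv]

lemma psi_k (N : ℤ) (g : Gam) : (psi N g).h.k = g.h.k := by
  rw [psi_apply]
  simp only [Gam.mul_h, Gam.inv_h, iot_h, Heis.mul_k, Heis.inv_k]
  ring

lemma psi_mem (N : ℤ) {g : Gam} (h : g ∈ GG) : psi N g ∈ GG :=
  GG.mul_mem (GG.mul_mem (iot_mem _) h) (GG.inv_mem (iot_mem _))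

lemma psi_inj (N : ℤ) : Function.Injective (psi N) := (MulAut.conj (iot ⟨0, 0, N⟩)).injective

lemma word_mem {w : List Gam} (hw : ∀ s ∈ w, IsL s) : w.prod ∈ GG :=
  GG.list_prod_mem fun s hs => (hw s hs).mem

lemma ell_tau (e : Bool) : ell (tau e) = 1 := by
  have := (W.base 1 e).ell
  rwa [map_one, one_mul] at this

lemma bey_mul_iot {p g : Gam} (h : Heis) : Bey p (g * iot h) ↔ Bey p g := by
  unfold Bey
  rw [ell_mul_iot, ← mul_assoc, ell_mul_iot]

/-- crossing of an edge -/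
lemma crossing (N : ℤ) (e : Bool) (b : ℕ → ℤ) (j : ℕ) (w : List Gam) (hw : ∀ s ∈ w, IsL s)
    (hB : Bey (Q e b 0 (j + 1)) (psi N w.prod)) :
    ∃ w1 w2 r, w = w1 ++ tau e :: w2 ∧
      psi N w1.prod = Q e b 0 j * iot ⟨b j, 0, 0⟩ * iot ⟨0, 0, r⟩ := by
  induction w using List.reverseRecOn with
  | nil =>
    exfalso
    rw [List.prod_nil, map_one] at hB
    unfold Bey at hB
    rw [ell_one, Q_ell] at hB
    omega
  | append_singleton w s ih =>
    have hw' : ∀ a ∈ w, IsL a := fun a ha => hw a (by simp [ha])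
    have hs : IsL s := hw s (by simp)
    rw [List.prod_append, List.prod_singleton, map_mul] at hB
    by_cases hB' : Bey (Q e b 0 (j + 1)) (psi N w.prod)
    · obtain ⟨w1, w2, r, h1, h2⟩ := ih hw' hB'
      exact ⟨w1, w2 ++ [s], r, by rw [h1]; simp, h2⟩
    · rcases hs with ⟨e', rfl⟩ | ⟨b', k, -, -, -, rfl⟩
      · rw [psi_tau] at hB
        have h1 : ell ((psi N w.prod)⁻¹ * (psi N w.prod * tau e')) ≤ 1 := by
          rw [inv_mul_cancel_left, ell_tau]
        have h0 := T4 hB hB' h1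
        obtain ⟨η, hη⟩ := range_of_ell_zero (GG.mul_mem (GG.inv_mem (Q_mem _ _ _ _))
          (GG.mul_mem (psi_mem N (word_mem hw')) (tau_mem e'))) h0
        have hg : psi N w.prod = Q e b 0 (j + 1) * iot η * tau (!e') := by
          rw [← hη, ← tau_inv]; group
        by_cases hc : (!e') = e ∨ ¬ (η.i = 0 ∧ η.j = 0)
        · exfalso
          apply hB'
          have hW := W.step η (!e') (Q_W e b 0 j) hc
          unfold Bey
          rw [hg, hW.ell, Q_ell, mul_assoc, inv_mul_cancel_left, ell_iot_mul, ell_tau]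
        · rw [not_or, not_not] at hc
          obtain ⟨hne, hi, hj⟩ := hc
          have hη' : η = ⟨0, 0, η.k⟩ := Heis.ext hi hj rfl
          have hee : e' = e := by clear * - hne; revert hne; cases e <;> cases e' <;> simp
          subst hee
          refine ⟨w, [], η.k, by simp, ?_⟩
          rw [hg, Q_succ, zero_add, hη', ← tau_inv, mul_assoc _ (tau e'), tau_comm, ← mul_assoc,
            mul_inv_cancel_right]
      · exfalso
        rw [psi_iot, bey_mul_iot] at hB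
        exact hB' hB

/-- size of the Heisenberg part of a word -/
lemma heis_bound (w : List Gam) (hw : ∀ s ∈ w, IsL s) :
    |w.prod.h.i| ≤ w.length ∧ |w.prod.h.k| ≤ w.length ∧ |w.prod.h.j| ≤ (w.length : ℤ) ^ 2 := by
  induction w using List.reverseRecOn with
  | nil => simp
  | append_singleton w s ih =>
    obtain ⟨h1, h2, h3⟩ := ih (fun a ha => hw a (by simp [ha]))
    have hs : IsL s := hw s (by simp)
    have hl : ((w ++ [s]).length : ℤ) = w.length + 1 := by simp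
    rw [List.prod_append, List.prod_singleton, hl, Gam.mul_h]
    have hn : (0 : ℤ) ≤ w.length := by positivity
    rcases hs with ⟨e', rfl⟩ | ⟨b', k, hb, hk, hbk, rfl⟩
    · rw [tau_h, mul_one]
      refine ⟨by linarith, by linarith, by nlinarith⟩
    · rw [iot_h, Heis.mul_i, Heis.mul_j, Heis.mul_k]
      refine ⟨?_, ?_, ?_⟩
      · exact (abs_add_le _ _).trans (add_le_add h1 hb)
      · exact (abs_add_le _ _).trans (add_le_add h2 hk)
      · rw [add_zero]
        refine (abs_add_le _ _).trans ?_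
        rw [abs_mul]
        have : |w.prod.h.k| * |b'| ≤ w.length * 1 := mul_le_mul h2 hb (abs_nonneg _) hn
        nlinarith

/-- counting -/
lemma counting (N : ℤ) (L R : ℕ) (hN : (R : ℤ) ^ 2 + L ≤ N) (e : Bool) (b : ℕ → ℤ) (j : ℕ) :
    ∀ (w : List Gam) (_ : ∀ s ∈ w, IsL s) (r : ℤ) (_ : w.length ≤ L)
      (_ : ∀ i, 1 ≤ i → i ≤ j → b i ≠ 0)
      (_ : psi N w.prod = Q e b 0 j * iot ⟨b j, 0, 0⟩ * iot ⟨0, 0, r⟩), j * R ≤ w.length := by
  induction j with
  | zero => intro w _ r _ _ _; simp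
  | succ j ih =>
    intro w hw r hL hb hpsi
    have hB : Bey (Q e b 0 (j + 1)) (psi N w.prod) := by
      rw [hpsi, bey_mul_iot, bey_mul_iot]
      exact Q_bey e b le_rfl
    obtain ⟨w1, w2, r1, hsplit, h1⟩ := crossing N e b j w hw hB
    have hlen : w.length = w1.length + 1 + w2.length := by rw [hsplit]; simp; omega
    have hw1 : ∀ s ∈ w1, IsL s := fun s hs => hw s (by rw [hsplit]; simp [hs])
    have hw2 : ∀ s ∈ w2, IsL s := fun s hs => hw s (by rw [hsplit]; simp [hs])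
    have ih1 := ih w1 hw1 r1 (by omega) (fun i hi hij => hb i hi (by omega)) h1
    have h2 : psi N (w1 ++ [tau e]).prod = Q e b 0 (j + 1) * iot ⟨0, 0, r1⟩ := by
      rw [List.prod_append, List.prod_singleton, map_mul, psi_tau, h1, Q_succ, zero_add,
        mul_assoc _ (iot ⟨0, 0, r1⟩), ← tau_comm, ← mul_assoc]
    have hr1 : |r1| ≤ L := by
      have e1 : (psi N (w1 ++ [tau e]).prod).h.k = r1 := by
        rw [h2, Gam.mul_h, Heis.mul_k, Q_k, iot_h, zero_add]
      rw [psi_k] at e1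
      have hb1 := (heis_bound (w1 ++ [tau e]) (by
        intro s hs
        rcases List.mem_append.1 hs with h | h
        · exact hw1 s h
        · rw [List.mem_singleton] at h; exact h ▸ Or.inl ⟨e, rfl⟩)).2.1
      rw [e1] at hb1
      refine hb1.trans ?_
      have : (w1 ++ [tau e]).length ≤ L := by simp; omega
      exact_mod_cast this
    have h3 : psi N w2.prod = iot (⟨0, 0, -r1⟩ * ⟨b (j + 1), 0, 0⟩ * ⟨0, 0, r⟩) := by
      have e2 : w.prod = (w1 ++ [tau e]).prod * w2.prod := by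
        rw [hsplit, List.prod_append, List.prod_cons, List.prod_append, List.prod_singleton,
          mul_assoc]
      rw [e2, map_mul, h2] at hpsi
      have e3 : (⟨0, 0, -r1⟩ : Heis) = (⟨0, 0, r1⟩ : Heis)⁻¹ := by ext <;> simp
      rw [map_mul, map_mul, e3, map_inv]
      have := congrArg (fun z => (iot ⟨0, 0, r1⟩)⁻¹ * ((Q e b 0 (j + 1))⁻¹ * z)) hpsi
      simp only [mul_assoc, inv_mul_cancel_left] at this
      rw [this, mul_assoc]
    have h4 : w2.prod.h.j = -(N + r1) * b (j + 1) := by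
      have e4 : w2.prod = iot (⟨0, 0, -N⟩ * (⟨0, 0, -r1⟩ * ⟨b (j + 1), 0, 0⟩ * ⟨0, 0, r⟩) *
          ⟨0, 0, N⟩) := by
        apply psi_inj N
        rw [h3, psi_iot]
        congr 1
        ext <;> simp
      rw [e4, iot_h]
      simp
      ring
    have h5 := (heis_bound w2 hw2).2.2
    rw [h4, abs_mul, abs_neg] at h5
    have hbne : 1 ≤ |b (j + 1)| := Int.one_le_abs (hb (j + 1) (by omega) le_rfl)
    have h6 : (R : ℤ) ^ 2 ≤ |N + r1| := by
      have := abs_le.1 hr1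
      have h7 : (R : ℤ) ^ 2 ≤ N + r1 := by linarith
      exact h7.trans (le_abs_self _)
    have h8 : (R : ℤ) ^ 2 ≤ (w2.length : ℤ) ^ 2 := by
      calc (R : ℤ) ^ 2 ≤ |N + r1| := h6
        _ = |N + r1| * 1 := (mul_one _).symm
        _ ≤ |N + r1| * |b (j + 1)| := by gcongr
        _ ≤ _ := h5
    have h9 : R ≤ w2.length := by
      have : R ^ 2 ≤ w2.length ^ 2 := by exact_mod_cast h8
      exact (Nat.pow_le_pow_iff_left (by norm_num)).1 this
    rw [hlen]
    nlinarith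

/-- short words do not travel far along the path -/
lemma fact1 (N : ℤ) (L R q : ℕ) (hN : (R : ℤ) ^ 2 + L ≤ N) (hq : L < q * R) (e : Bool)
    (b : ℕ → ℤ) (hb : ∀ i, 1 ≤ i → i ≤ q → b i ≠ 0) (w : List Gam) (hw : ∀ s ∈ w, IsL s)
    (hL : w.length ≤ L) : ¬ Bey (Q e b 0 (q + 1)) (psi N w.prod) := by
  intro hB
  obtain ⟨w1, w2, r1, hsplit, h1⟩ := crossing N e b q w hw hB
  have hlen : w.length = w1.length + 1 + w2.length := by rw [hsplit]; simp; omega
  have hw1 : ∀ s ∈ w1, IsL s := fun s hs => hw s (by rw [hsplit]; simp [hs])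
  have := counting N L R hN e b q w1 hw1 r1 (by omega) hb h1
  omega

end Pool.Agent.R707.Selfless
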