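import Mathlib

/-! Definitions for the selflessness problem. -/

namespace Pool.Agent.R707.Selfless

/-- The ball of radius `r` for the word metric of the generating set `S`: the elements of `G`
which are products of at most `r` elements of `S` and inverses of elements of `S`. -/
def wordBall {G : Type*} [Group G] (S : Set G) (r : ℝ) : Set G :=
  {g | ∃ l : List G, (∀ s ∈ l, s ∈ S ∨ s⁻¹ ∈ S) ∧ (l.length : ℝ) ≤ r ∧ l.prod = g}

/-- The generating set `S ∪ {x}` of the free product of `G` and the infinite cyclic group
generated by `x`. -/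
def genX {G : Type*} [Group G] (S : Set G) : Set (Monoid.Coprod G (Multiplicative ℤ)) :=
  Monoid.Coprod.inl '' S ∪ {Monoid.Coprod.inr (Multiplicative.ofAdd (1 : ℤ))}

/-- `G` with the finite generating set `S` is `f`-selfless. -/
structure IsSelfless (G : Type*) [Group G] (S : Set G) (f : ℕ → ℝ) : Prop where
  liminf_eq : Filter.liminf (fun n : ℕ => f n ^ ((1 : ℝ) / n)) Filter.atTop = 1
  exists_hom : ∀ n : ℕ, ∃ φ : Monoid.Coprod G (Multiplicative ℤ) →* G,
    (∀ g : G, φ (Monoid.Coprod.inl g) = g) ∧ Set.InjOn φ (wordBall (genX S) n) ∧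
      φ '' wordBall (genX S) n ⊆ wordBall S (f n)

end Pool.Agent.R707.Selfless
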