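import Pool.Agent.R707.SelflessD

/-! Helper module: ping-pong with the long element `kk`. -/

open Polynomial Matrix

namespace Pool.Agent.R707.Selfless

lemma stepD {e1 e2 : Bool} {b1 b2 : ℕ → ℤ} {β : Gam} {j l : ℕ} {η η' : Heis}
    (h : β * Q e2 b2 0 l = Q e1 b1 0 j * iot η)
    (h' : β * Q e2 b2 0 (l + 1) = Q e1 b1 0 (j + 1) * iot η') :
    e1 = e2 ∧ ∃ r, η' = ⟨0, 0, r⟩ ∧ (⟨b1 j, 0, 0⟩ : Heis)⁻¹ * η * ⟨b2 l, 0, 0⟩ = ⟨0, 0, r⟩ := by
  set h0 : Heis := (⟨b1 j, 0, 0⟩ : Heis)⁻¹ * η * ⟨b2 l, 0, 0⟩ with hh0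
  have key : iot η' = tau (!e1) * iot h0 * tau e2 := by
    rw [Q_succ, Q_succ, zero_add, zero_add, ← mul_assoc, ← mul_assoc, h] at h'
    rw [hh0, map_mul, map_mul, map_inv, ← tau_inv]
    have := congrArg (fun z => (tau e1)⁻¹ * ((iot ⟨b1 j, 0, 0⟩)⁻¹ * ((Q e1 b1 0 j)⁻¹ * z))) h'
    simp only [mul_assoc, inv_mul_cancel_left] at this
    rw [← this]
    simp only [mul_assoc]
  have hell : ell (tau (!e1) * iot h0 * tau e2) = 0 := by rw [← key, ell_iot]
  have hnot : ¬ (e2 = (!e1) ∨ ¬ (h0.i = 0 ∧ h0.j = 0)) := by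
    intro hc
    have hW := (W.step h0 e2 (W.base 1 (!e1)) hc).ell
    rw [map_one, one_mul] at hW
    omega
  rw [not_or, not_not] at hnot
  obtain ⟨hne, hi, hj⟩ := hnot
  have he : e1 = e2 := by clear * - hne; revert hne; cases e1 <;> cases e2 <;> simp
  subst he
  refine ⟨rfl, h0.k, ?_, Heis.ext hi hj rfl⟩
  have h00 : h0 = ⟨0, 0, h0.k⟩ := Heis.ext hi hj rfl
  apply iot_inj
  rw [key, ← tau_inv, h00, mul_assoc, ← tau_comm, inv_mul_cancel_left]

/-- exponents along the two paths -/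
def bb (M : ℕ) (e : Bool) (i : ℕ) : ℤ :=
  if e then (if i < M then 1 else if i < 2 * M then 2 else 3)
  else (if i = 0 then 0 else if i ≤ M then -3 else if i ≤ 2 * M then -2 else -1)

noncomputable def PP (M : ℕ) (e : Bool) : ℕ → Gam := Q e (bb M e) 0

lemma bb_ne (M : ℕ) (e : Bool) (i : ℕ) (hi : 1 ≤ i) : bb M e i ≠ 0 := by
  unfold bb
  split_ifs <;> omega

lemma fact3 {M q : ℕ} (hM : 2 * q + 6 ≤ M) {e1 e2 : Bool} {β y : Gam} (hβ : β ∈ GG)
    (hy : Bey (PP M e2 (2 * M - 2)) y) (hby : Bey (PP M e1 (M + 2)) (β * y))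
    (hn1 : ¬ Bey (PP M e1 (q + 1)) β) (hn2 : ¬ Bey (PP M e2 (q + 1)) β⁻¹) : e1 = e2 ∧ β = 1 := by
  have hA : ell β + ell (β * y) < 2 * (q + 1) + ell y := by
    by_contra hcon
    apply hn1
    refine T1 (q := β * y) (bey_mono (Q_bey _ _ (by omega)) hby) ?_
    rw [inv_mul_cancel_left]
    unfold PP
    rw [Q_ell]
    omega
  have hB : ell β + ell y < 2 * (q + 1) + ell (β * y) := by
    by_contra hcon
    apply hn2
    refine T1 (q := y) (bey_mono (Q_bey _ _ (by omega)) hy) ?_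
    rw [inv_inv, ell_inv]
    unfold PP
    rw [Q_ell]
    omega
  have ht1 : ell (β * y) ≤ ell β + ell y := ell_mul_le _ _
  have ht2 : ell y ≤ ell β + ell (β * y) := by
    have := ell_mul_le β⁻¹ (β * y)
    rwa [inv_mul_cancel_left, ell_inv] at this
  have hC : ∀ j l, q + 1 ≤ j → j ≤ M + 2 → l + ell (β * y) = j + ell y →
      ∃ η, β * PP M e2 l = PP M e1 j * iot η := by
    intro j l hj1 hj2 hl
    have hBl : Bey (PP M e2 l) y := bey_mono (Q_bey _ _ (by omega)) hy
    have h3 := T3 β hBl (by unfold PP; rw [Q_ell]; omega)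
    have hl' : ell (PP M e2 l) = l := Q_ell _ _ _ _
    rw [hl'] at h3
    have hBj : Bey (PP M e1 j) (β * y) := bey_mono (Q_bey _ _ (by omega)) hby
    have hj' : ell (PP M e1 j) = j := Q_ell _ _ _ _
    have h0 := T2 hBj h3.1 (by omega)
    obtain ⟨η, hη⟩ := range_of_ell_zero (GG.mul_mem (GG.inv_mem (Q_mem _ _ _ _))
      (GG.mul_mem hβ (Q_mem _ _ _ _))) h0
    exact ⟨η, by rw [← hη]; unfold PP; rw [mul_inv_cancel_left]⟩
  set a := ell (β * y) with ha
  set c := ell y with hc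
  have he : e1 = e2 := by
    obtain ⟨η, h1⟩ := hC (q + 1) (q + 1 + c - a) (by omega) (by omega) (by omega)
    obtain ⟨η', h2⟩ := hC (q + 2) (q + 1 + c - a + 1) (by omega) (by omega) (by omega)
    exact (stepD h1 h2).1
  subst he
  refine ⟨rfl, ?_⟩
  have hE : ∀ s l, q + 2 ≤ s → s ≤ M + 1 → l + a = s + c →
      bb M e1 s = bb M e1 l ∧ β * PP M e1 l = PP M e1 s := by
    intro s l hs1 hs2 hl
    obtain ⟨η0, h0⟩ := hC (s - 1) (l - 1) (by omega) (by omega) (by omega)
    obtain ⟨η1, h1⟩ := hC s l (by omega) (by omega) (by omega)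
    obtain ⟨η2, h2⟩ := hC (s + 1) (l + 1) (by omega) (by omega) (by omega)
    have es : s = s - 1 + 1 := by omega
    have el : l = l - 1 + 1 := by omega
    have h1' : β * Q e1 (bb M e1) 0 (l - 1 + 1) = Q e1 (bb M e1) 0 (s - 1 + 1) * iot η1 := by
      rw [← es, ← el]; exact h1
    obtain ⟨-, r, hr, -⟩ := stepD h0 h1'
    obtain ⟨-, r', hr', hx⟩ := stepD h1 h2
    rw [hr] at hx
    have hi := congrArg Heis.i hx
    have hj := congrArg Heis.j hx
    simp at hi hj
    have hbl : bb M e1 l ≠ 0 := bb_ne M e1 l (by omega)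
    have hr0 : r = 0 := by
      rcases hj with h | h
      · exact h
      · exact absurd h hbl
    refine ⟨by linarith, ?_⟩
    rw [h1, hr, hr0]
    have : (⟨0, 0, 0⟩ : Heis) = 1 := rfl
    rw [this, map_one, mul_one]
  rcases lt_trichotomy a c with hac | hac | hac
  · exfalso
    cases e1
    · have := (hE M (M + c - a) (by omega) (by omega) (by omega)).1
      unfold bb at this
      simp only [Bool.false_eq_true, if_false] at this
      rw [if_neg (by omega), if_pos (by omega), if_neg (by omega), if_neg (by omega),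
        if_pos (by omega)] at this
      norm_num at this
    · have := (hE (M - 1) (M - 1 + c - a) (by omega) (by omega) (by omega)).1
      unfold bb at this
      simp only [if_true] at this
      rw [if_pos (by omega), if_neg (by omega), if_pos (by omega)] at this
      norm_num at this
  · have := (hE M M (by omega) (by omega) (by omega)).2
    exact mul_eq_right.1 this
  · exfalso
    cases e1
    · have := (hE (M + 1) (M + 1 + c - a) (by omega) (by omega) (by omega)).1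
      unfold bb at this
      simp only [Bool.false_eq_true, if_false] at this
      rw [if_neg (by omega), if_neg (by omega), if_pos (by omega), if_neg (by omega),
        if_pos (by omega)] at this
      norm_num at this
    · have := (hE M (M + c - a) (by omega) (by omega) (by omega)).1
      unfold bb at this
      simp only [if_true] at this
      rw [if_neg (by omega), if_pos (by omega), if_pos (by omega)] at this
      norm_num at this

/-- reversal of paths -/
lemma Q_rev (e : Bool) (b b' : ℕ → ℤ) (n : ℕ) (h0 : b' 0 = 0)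
    (hl : ∀ l, 1 ≤ l → l < n → b' l = - b (n - l)) (m : ℕ) (hm : 1 ≤ m) (hmn : m ≤ n) :
    (Q e b (n - m) m)⁻¹ = Q (!e) b' 0 m * iot ⟨-b (n - m), 0, 0⟩ := by
  have hinv : ∀ z : ℤ, (iot ⟨z, 0, 0⟩)⁻¹ = iot ⟨-z, 0, 0⟩ := by
    intro z
    rw [← map_inv]
    congr 1
    ext <;> simp
  induction m, hm using Nat.le_induction with
  | base =>
    rw [Q_succ, Q_zero, Q_succ, Q_zero, h0]
    have : (⟨0, 0, 0⟩ : Heis) = 1 := rfl
    simp only [this, map_one, one_mul, add_zero]
    rw [_root_.mul_inv_rev, hinv, tau_inv]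
  | succ m hm ih =>
    have ih := ih (by omega)
    have e1 : Q e b (n - (m + 1)) (m + 1) = Q e b (n - (m + 1)) 1 * Q e b (n - m) m := by
      rw [add_comm m 1, Q_add]
      congr 2
      omega
    rw [e1, _root_.mul_inv_rev, ih, Q_succ, Q_zero, one_mul, _root_.mul_inv_rev, hinv, tau_inv,
      Q_succ, zero_add, hl m hm (by omega), add_zero]
    simp only [mul_assoc]

lemma bb_rev (M : ℕ) : ∀ l, 1 ≤ l → l < 3 * M → bb M false l = - bb M true (3 * M - l) := by
  intro l h1 h2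
  unfold bb
  simp only [Bool.false_eq_true, if_false, if_true]
  split_ifs <;> omega

/-- the long element and its inverse -/
noncomputable def KE (M : ℕ) (e : Bool) : Gam := if e then PP M true (3 * M) else (PP M true (3 * M))⁻¹

lemma KE_inv (M : ℕ) (e : Bool) : (KE M e)⁻¹ = KE M (!e) := by
  cases e <;> simp [KE]

lemma KE_mem (M : ℕ) (e : Bool) : KE M e ∈ GG := by
  cases e
  · exact GG.inv_mem (Q_mem _ _ _ _)
  · exact Q_mem _ _ _ _

lemma rev1 {M j m : ℕ} (hjm : j + m = 3 * M) (hm : 1 ≤ m) :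
    (KE M true)⁻¹ * PP M true j = PP M false m * iot ⟨-bb M true j, 0, 0⟩ := by
  have h := Q_rev true (bb M true) (bb M false) (3 * M) rfl (bb_rev M) m hm (by omega)
  have e1 : 3 * M - m = j := by omega
  rw [e1] at h
  have e2 : KE M true = PP M true j * Q true (bb M true) j m := by
    show Q true (bb M true) 0 (3 * M) = _
    rw [← hjm, Q_add, zero_add]
    rfl
  rw [e2, _root_.mul_inv_rev, mul_assoc, inv_mul_cancel, mul_one, h]
  rfl

lemma rev2 {M : ℕ} (e : Bool) {j m : ℕ} (hjm : j + m = 3 * M) (hj : 1 ≤ j) (hm : 1 ≤ m) :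
    ∃ h, (KE M e)⁻¹ * PP M e j = PP M (!e) m * iot h := by
  cases e
  · have h := rev1 (M := M) (j := m) (m := j) (by omega) hj
    refine ⟨⟨bb M true m, 0, 0⟩, ?_⟩
    have e1 : (KE M false)⁻¹ = KE M true := KE_inv M false
    rw [e1]
    have h2 : PP M false j = (KE M true)⁻¹ * PP M true m * iot ⟨bb M true m, 0, 0⟩ := by
      rw [h, mul_assoc, ← map_mul]
      have : (⟨-bb M true m, 0, 0⟩ : Heis) * ⟨bb M true m, 0, 0⟩ = 1 := by ext <;> simp
      rw [this, map_one, mul_one]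
    rw [h2, mul_assoc, mul_inv_cancel_left]
    rfl
  · exact ⟨_, rev1 hjm hm⟩

lemma KE_path {M : ℕ} (hM : 1 ≤ M) (e : Bool) : ∃ h, KE M e = PP M e (3 * M) * iot h := by
  cases e
  · have h := rev1 (M := M) (j := 0) (m := 3 * M) (by omega) (by omega)
    refine ⟨⟨-bb M true 0, 0, 0⟩, ?_⟩
    rw [← h]
    show KE M false = (KE M true)⁻¹ * 1
    rw [mul_one, KE_inv]
    rfl
  · exact ⟨1, by rw [map_one, mul_one]; rfl⟩

lemma fact2 {M : ℕ} (hM : 6 ≤ M) (e : Bool) {w : Gam} (hn : ¬ Bey (PP M (!e) (M + 2)) w) :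
    Bey (PP M e (2 * M - 2)) (KE M e * w) := by
  obtain ⟨h, hh⟩ := rev2 (M := M) e (j := 2 * M - 2) (m := M + 2) (by omega) (by omega) (by omega)
  obtain ⟨h', hh'⟩ := KE_path (M := M) (by omega) (!e)
  have hK : ell (KE M (!e)) = 3 * M := by rw [hh', ell_mul_iot]; exact Q_ell _ _ _ _
  have hp : ell (PP M (!e) (M + 2)) = M + 2 := Q_ell _ _ _ _
  have hq : ell (PP M e (2 * M - 2)) = 2 * M - 2 := Q_ell _ _ _ _
  have hbey : Bey (PP M (!e) (M + 2)) (KE M (!e)) := by
    rw [hh', bey_mul_iot]; exact Q_bey _ _ (by omega)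
  have hpK : ell ((PP M (!e) (M + 2))⁻¹ * KE M (!e)) = 2 * M - 2 := by
    unfold Bey at hbey
    omega
  have e1 : (PP M e (2 * M - 2))⁻¹ * (KE M e * w) = iot h⁻¹ * ((PP M (!e) (M + 2))⁻¹ * w) := by
    have : (PP M e (2 * M - 2))⁻¹ * KE M e = (iot h)⁻¹ * (PP M (!e) (M + 2))⁻¹ := by
      rw [← _root_.mul_inv_rev, ← hh, _root_.mul_inv_rev, inv_inv]
    rw [← mul_assoc, this, mul_assoc, map_inv]
  have e2 : ell (KE M e * w) = ell (w⁻¹ * KE M (!e)) := by
    rw [ell_comm, KE_inv, Bool.not_not]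
  rw [bey_iff_le, e1, ell_iot_mul, e2, hq]
  have hf := four w (PP M (!e) (M + 2)) (KE M (!e))
  rw [hK, hpK, hp] at hf
  rw [ell_comm w] at hf
  have hn' : ell w < ell (PP M (!e) (M + 2)) + ell ((PP M (!e) (M + 2))⁻¹ * w) := by
    rw [bey_iff_le] at hn
    omega
  rw [hp] at hn'
  rcases le_max_iff.1 hf with h1 | h1 <;> omega

end Pool.Agent.R707.Selfless
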