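import Pool.Agent.R707.SelflessE
import Pool.Agent.R707.SelflessDefs

/-! Helper module: assembly. -/

open Polynomial Matrix

namespace Pool.Agent.R707.Selfless

/-- evaluation of blocks -/
noncomputable def ev (M : ℕ) (N : ℤ) : List (Bool × List GG) → Gam
  | [] => 1
  | (e, u) :: rest => KE M e * (psi N (u.prod : Gam) * ev M N rest)

/-- reduced sequences of blocks -/
def Red : List (Bool × List GG) → Prop
  | [] => True
  | [_] => True
  | (e, u) :: (e', u') :: rest => ¬ (u.prod = 1 ∧ e' = !e) ∧ Red ((e', u') :: rest)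

lemma Red.tail {p : Bool × List GG} {l : List (Bool × List GG)} (h : Red (p :: l)) : Red l := by
  cases l with
  | nil => trivial
  | cons a l => exact h.2

/-- short words -/
def Short (L : ℕ) (u : List GG) : Prop := (∀ s ∈ u, IsL (s : Gam)) ∧ u.length ≤ L

lemma short_fact {N : ℤ} {L R q M : ℕ} (hN : (R : ℤ) ^ 2 + L ≤ N) (hq : L < q * R)
    {u : List GG} (hu : Short L u) (e : Bool) :
    ¬ Bey (PP M e (q + 1)) (psi N (u.prod : Gam)) ∧
      ¬ Bey (PP M e (q + 1)) (psi N (u.prod : Gam))⁻¹ := by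
  have h1 : ∀ s ∈ u.map (Subtype.val : GG → Gam), IsL s := by
    intro s hs
    obtain ⟨a, ha, rfl⟩ := List.mem_map.1 hs
    exact hu.1 a ha
  have e1 : (u.prod : Gam) = (u.map (Subtype.val : GG → Gam)).prod := by
    rw [← Subgroup.coe_subtype, ← MonoidHom.map_list_prod]
  constructor
  · rw [e1]
    exact fact1 N L R q hN hq e _ (fun i hi _ => bb_ne M e i hi) _ h1 (by simpa using hu.2)
  · have e2 : (psi N (u.prod : Gam))⁻¹ =
        psi N (((u.map (Subtype.val : GG → Gam)).map (·⁻¹)).reverse.prod) := by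
      rw [← List.prod_inv_reverse, map_inv, e1]
    rw [e2]
    refine fact1 N L R q hN hq e _ (fun i hi _ => bb_ne M e i hi) _ ?_ (by simpa using hu.2)
    intro s hs
    rw [List.mem_reverse, List.mem_map] at hs
    obtain ⟨a, ha, rfl⟩ := hs
    exact (h1 a ha).inv

lemma pingpong {N : ℤ} {L R q M : ℕ} (hN : (R : ℤ) ^ 2 + L ≤ N) (hq : L < q * R)
    (hM : 2 * q + 6 ≤ M) (rest : List (Bool × List GG)) :
    ∀ (e : Bool) (u : List GG), Red ((e, u) :: rest) → Short L u →
      (∀ p ∈ rest, Short L p.2) → Bey (PP M e (2 * M - 2)) (ev M N ((e, u) :: rest)) ∧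
        ev M N ((e, u) :: rest) ∈ GG := by
  induction rest with
  | nil =>
    intro e u _ hu _
    constructor
    · apply fact2 (by omega)
      show ¬ Bey _ (psi N (u.prod : Gam) * 1)
      rw [mul_one]
      intro hB
      exact (short_fact (M := M) hN hq hu (!e)).1 (bey_mono (Q_bey _ _ (by omega)) hB)
    · exact GG.mul_mem (KE_mem _ _) (GG.mul_mem (psi_mem _ u.prod.2) GG.one_mem)
  | cons p rest ih =>
    obtain ⟨e', u'⟩ := p
    intro e u hred hu hrest
    obtain ⟨hB, hmem⟩ := ih e' u' hred.2 (hrest (e', u') (by simp))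
      (fun p hp => hrest p (by simp [hp]))
    constructor
    · apply fact2 (by omega)
      intro hB2
      have hsf := short_fact (M := M) hN hq hu
      obtain ⟨h1, h2⟩ := fact3 hM (psi_mem N u.prod.2) hB hB2 (hsf (!e)).1 (hsf e').2
      apply hred.1
      refine ⟨?_, h1.symm⟩
      have : psi N (u.prod : Gam) = psi N 1 := by rw [h2, map_one]
      exact Subtype.ext (psi_inj N this)
    · exact GG.mul_mem (KE_mem _ _) (GG.mul_mem (psi_mem _ u.prod.2) hmem)

abbrev FP := Monoid.Coprod GG (Multiplicative ℤ)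

/-- the letter `x^{±1}` in the free product -/
noncomputable def XX (e : Bool) : FP :=
  if e then Monoid.Coprod.inr (Multiplicative.ofAdd (1 : ℤ))
  else (Monoid.Coprod.inr (Multiplicative.ofAdd (1 : ℤ)))⁻¹

lemma XX_mul (e : Bool) : XX e * XX (!e) = 1 := by
  cases e
  · exact inv_mul_cancel _
  · exact mul_inv_cancel _

noncomputable def cv : List (Bool × List GG) → FP
  | [] => 1
  | (e, u) :: rest => XX e * (Monoid.Coprod.inl u.prod * cv rest)

/-- the generating set of `GG` -/
def SS : Set GG := (Subtype.val) ⁻¹' {gx, gy, tt}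

lemma SS_isL {s : GG} (h : s ∈ SS) : IsL (s : Gam) := by
  rcases h with h | h | h
  · exact Or.inr ⟨0, 1, by norm_num, by norm_num, by norm_num, h⟩
  · exact Or.inr ⟨1, 0, by norm_num, by norm_num, by norm_num, h⟩
  · exact Or.inl ⟨true, h⟩

lemma red_exists (l : List FP) (hl : ∀ s ∈ l, s ∈ genX SS ∨ s⁻¹ ∈ genX SS) :
    ∃ u0 blocks, Red blocks ∧ Short l.length u0 ∧ (∀ p ∈ blocks, Short l.length p.2) ∧
      l.prod = Monoid.Coprod.inl u0.prod * cv blocks := by
  induction l with
  | nil => exact ⟨[], [], trivial, ⟨by simp, by simp⟩, by simp, by simp [cv]⟩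
  | cons s l ih =>
    obtain ⟨u0, blocks, hred, hu0, hbl, hprod⟩ := ih (fun a ha => hl a (by simp [ha]))
    have hlen : (s :: l).length = l.length + 1 := rfl
    have hu0' : Short (s :: l).length u0 := ⟨hu0.1, by rw [hlen]; have := hu0.2; omega⟩
    have hbl' : ∀ p ∈ blocks, Short (s :: l).length p.2 :=
      fun p hp => ⟨(hbl p hp).1, by rw [hlen]; have := (hbl p hp).2; omega⟩
    -- the case of a letter of `G`
    have caseG : ∀ g : GG, IsL (g : Gam) → s = Monoid.Coprod.inl g → ∃ u0 blocks, Red blocks ∧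
        Short (s :: l).length u0 ∧ (∀ p ∈ blocks, Short (s :: l).length p.2) ∧
          (s :: l).prod = Monoid.Coprod.inl u0.prod * cv blocks := by
      intro g hg hs
      refine ⟨g :: u0, blocks, hred, ⟨?_, ?_⟩, hbl', ?_⟩
      · intro a ha
        rcases List.mem_cons.1 ha with h | h
        · rw [h]; exact hg
        · exact hu0.1 a h
      · rw [hlen, List.length_cons]; have := hu0.2; omega
      · rw [List.prod_cons, hprod, hs, List.prod_cons, map_mul, mul_assoc]
    have caseX : ∀ e : Bool, s = XX e → ∃ u0 blocks, Red blocks ∧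
        Short (s :: l).length u0 ∧ (∀ p ∈ blocks, Short (s :: l).length p.2) ∧
          (s :: l).prod = Monoid.Coprod.inl u0.prod * cv blocks := by
      intro e hs
      have hgen : (s :: l).prod = Monoid.Coprod.inl (([] : List GG).prod) * cv ((e, u0) :: blocks) := by
        rw [List.prod_cons, hprod, hs, List.prod_nil, map_one, one_mul]
        rfl
      cases blocks with
      | nil =>
        refine ⟨[], [(e, u0)], trivial, ⟨by simp, by simp⟩, ?_, hgen⟩
        intro p hp
        rw [List.mem_singleton] at hp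
        rw [hp]; exact hu0'
      | cons p rest =>
        obtain ⟨e', u'⟩ := p
        by_cases hc : u0.prod = 1 ∧ e' = !e
        · refine ⟨u', rest, hred.tail, hbl' (e', u') (by simp),
            fun p hp => hbl' p (by simp [hp]), ?_⟩
          rw [hgen, List.prod_nil, map_one, one_mul]
          show XX e * (Monoid.Coprod.inl u0.prod * (XX e' * (Monoid.Coprod.inl u'.prod * cv rest))) = _
          rw [hc.1, hc.2, map_one, one_mul, ← mul_assoc, XX_mul, one_mul]
        · refine ⟨[], (e, u0) :: (e', u') :: rest, ⟨hc, hred⟩, ⟨by simp, by simp⟩, ?_, hgen⟩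
          intro p hp
          rcases List.mem_cons.1 hp with h | h
          · rw [h]; exact hu0'
          · exact hbl' p h
    rcases hl s (by simp) with h | h
    · rcases h with ⟨g, hg, hgs⟩ | h
      · exact caseG g (SS_isL hg) hgs.symm
      · exact caseX true h
    · rcases h with ⟨g, hg, hgs⟩ | h
      · refine caseG g⁻¹ ?_ ?_
        · exact (SS_isL hg).inv
        · rw [map_inv, hgs, inv_inv]
      · refine caseX false ?_
        rw [Set.mem_singleton_iff] at h
        show s = (Monoid.Coprod.inr (Multiplicative.ofAdd (1 : ℤ)))⁻¹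
        rw [← h, inv_inv]

/-- the element `g_n` -/
noncomputable def gn (M : ℕ) (N : ℤ) : GG :=
  ⟨(iot ⟨0, 0, N⟩)⁻¹ * KE M true * iot ⟨0, 0, N⟩,
    GG.mul_mem (GG.mul_mem (GG.inv_mem (iot_mem _)) (KE_mem _ _)) (iot_mem _)⟩

noncomputable def phi (M : ℕ) (N : ℤ) : FP →* GG :=
  Monoid.Coprod.lift (MonoidHom.id GG) (zpowersHom GG (gn M N))

lemma phi_inl (M : ℕ) (N : ℤ) (g : GG) : phi M N (Monoid.Coprod.inl g) = g := by
  unfold phi; rw [Monoid.Coprod.lift_apply_inl]; rfl

lemma phi_X (M : ℕ) (N : ℤ) (e : Bool) : psi N (phi M N (XX e) : Gam) = KE M e := by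
  have h1 : phi M N (Monoid.Coprod.inr (Multiplicative.ofAdd (1 : ℤ))) = gn M N := by
    unfold phi
    rw [Monoid.Coprod.lift_apply_inr, zpowersHom_apply]
    simp
  have h2 : psi N (gn M N : Gam) = KE M true := by
    rw [psi_apply]
    show _ * ((iot ⟨0, 0, N⟩)⁻¹ * KE M true * iot ⟨0, 0, N⟩) * _ = _
    group
  cases e
  · show psi N ((phi M N (Monoid.Coprod.inr (Multiplicative.ofAdd (1 : ℤ)))⁻¹ : GG) : Gam) = _
    rw [map_inv, h1, Subgroup.coe_inv, map_inv, h2, KE_inv]
    rfl
  · show psi N ((phi M N (Monoid.Coprod.inr (Multiplicative.ofAdd (1 : ℤ))) : GG) : Gam) = _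
    rw [h1, h2]

lemma phi_cv (M : ℕ) (N : ℤ) (bl : List (Bool × List GG)) :
    psi N (phi M N (cv bl) : Gam) = ev M N bl := by
  induction bl with
  | nil => show psi N ((phi M N 1 : GG) : Gam) = 1; rw [map_one]; exact map_one _
  | cons p bl ih =>
    obtain ⟨e, u⟩ := p
    show psi N ((phi M N (XX e * (Monoid.Coprod.inl u.prod * cv bl)) : GG) : Gam) =
      KE M e * (psi N (u.prod : Gam) * ev M N bl)
    rw [map_mul, map_mul, Subgroup.coe_mul, Subgroup.coe_mul, map_mul, map_mul, phi_X, ih, phi_inl]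

lemma phi_kernel {N : ℤ} {L R q M : ℕ} (hN : (R : ℤ) ^ 2 + L ≤ N) (hq : L < q * R)
    (hM : 2 * q + 6 ≤ M) (l : List FP) (hl : ∀ s ∈ l, s ∈ genX SS ∨ s⁻¹ ∈ genX SS)
    (hL : l.length ≤ L) (h1 : phi M N l.prod = 1) : l.prod = 1 := by
  obtain ⟨u0, blocks, hred, hu0, hbl, hprod⟩ := red_exists l hl
  have hu0' : Short L u0 := ⟨hu0.1, hu0.2.trans hL⟩
  cases blocks with
  | nil =>
    rw [hprod] at h1 ⊢
    simp only [cv, mul_one] at h1 ⊢
    rw [phi_inl] at h1
    rw [h1, map_one]
  | cons p rest =>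
    exfalso
    obtain ⟨e, u⟩ := p
    have hpp := (pingpong hN hq hM rest e u hred
      ⟨(hbl (e, u) (by simp)).1, (hbl (e, u) (by simp)).2.trans hL⟩
      (fun p hp => ⟨(hbl p (by simp [hp])).1, (hbl p (by simp [hp])).2.trans hL⟩)).1
    have h2 : psi N (phi M N l.prod : Gam) = psi N (u0.prod : Gam) * ev M N ((e, u) :: rest) := by
      rw [hprod, map_mul, Subgroup.coe_mul, map_mul, phi_inl, phi_cv]
    rw [h1] at h2
    have h3 : psi N (((1 : GG) : Gam)) = 1 := map_one _
    rw [h3] at h2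
    have h4 : ev M N ((e, u) :: rest) = (psi N (u0.prod : Gam))⁻¹ :=
      (inv_eq_of_mul_eq_one_right h2.symm).symm
    rw [h4] at hpp
    exact (short_fact (M := M) hN hq hu0' e).2 (bey_mono (Q_bey _ _ (by omega)) hpp)

end Pool.Agent.R707.Selfless
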