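import Pool.Agent.R707.SelflessF

/-! Helper module: word lengths and the final bound. -/

open Polynomial Matrix

namespace Pool.Agent.R707.Selfless

/-- product of at most `n` letters -/
def InB {G : Type*} [Group G] (S : Set G) (n : ℕ) (g : G) : Prop :=
  ∃ l : List G, (∀ s ∈ l, s ∈ S ∨ s⁻¹ ∈ S) ∧ l.length ≤ n ∧ l.prod = g

section
variable {G : Type*} [Group G] {S : Set G}

lemma InB.mul {m n : ℕ} {a b : G} (ha : InB S m a) (hb : InB S n b) : InB S (m + n) (a * b) := by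
  obtain ⟨l, h1, h2, rfl⟩ := ha
  obtain ⟨l', h1', h2', rfl⟩ := hb
  refine ⟨l ++ l', ?_, by rw [List.length_append]; omega, List.prod_append⟩
  intro s hs
  rcases List.mem_append.1 hs with h | h
  · exact h1 s h
  · exact h1' s h

lemma InB.inv {n : ℕ} {a : G} (ha : InB S n a) : InB S n a⁻¹ := by
  obtain ⟨l, h1, h2, rfl⟩ := ha
  refine ⟨(l.map (·⁻¹)).reverse, ?_, by simpa using h2, (List.prod_inv_reverse l).symm⟩
  intro s hs
  rw [List.mem_reverse, List.mem_map] at hs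
  obtain ⟨a, ha, rfl⟩ := hs
  rw [inv_inv]
  exact (h1 a ha).symm

lemma InB.mono {m n : ℕ} {a : G} (ha : InB S m a) (h : m ≤ n) : InB S n a := by
  obtain ⟨l, h1, h2, h3⟩ := ha
  exact ⟨l, h1, h2.trans h, h3⟩

lemma InB.one (n : ℕ) : InB S n 1 := ⟨[], by simp, by simp, rfl⟩

lemma InB.pow {m : ℕ} {a : G} (ha : InB S m a) (n : ℕ) : InB S (n * m) (a ^ n) := by
  induction n with
  | zero => rw [pow_zero]; exact InB.one _
  | succ n ih => rw [pow_succ, Nat.succ_mul]; exact ih.mul ha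

lemma InB.zpow {m : ℕ} {a : G} (ha : InB S m a) (n : ℤ) : InB S (n.natAbs * m) (a ^ n) := by
  rcases Int.natAbs_eq n with h | h
  · rw [h, zpow_natCast, Int.natAbs_natCast]; exact ha.pow _
  · rw [h, _root_.zpow_neg, zpow_natCast, Int.natAbs_neg, Int.natAbs_natCast]; exact (ha.pow _).inv

lemma InB.list {m : ℕ} (l : List G) (h : ∀ s ∈ l, InB S m s) : InB S (l.length * m) l.prod := by
  induction l with
  | nil => exact InB.one _
  | cons a l ih =>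
    rw [List.prod_cons, List.length_cons, Nat.succ_mul, add_comm]
    exact (h a (by simp)).mul (ih fun s hs => h s (by simp [hs]))

lemma InB.of_mem {s : G} (h : s ∈ S) : InB S 1 s := ⟨[s], by simp [h], by simp, by simp⟩

end

/-- the embedding of the Heisenberg group in `GG` -/
noncomputable def ioG : Heis →* GG := iot.codRestrict GG iot_mem

lemma ioG_coe (h : Heis) : (ioG h : Gam) = iot h := rfl

noncomputable def tG : GG := ⟨tt, tt_mem⟩

lemma x_InB : InB SS 1 (ioG ⟨0, 0, 1⟩) := InB.of_mem (Or.inl rfl)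
lemma y_InB : InB SS 1 (ioG ⟨1, 0, 0⟩) := InB.of_mem (Or.inr (Or.inl rfl))
lemma t_InB : InB SS 1 tG := InB.of_mem (Or.inr (Or.inr rfl))

lemma xz_InB (n : ℤ) : InB SS n.natAbs (ioG ⟨0, 0, n⟩) := by
  rw [← zpow_x, map_zpow]
  have := x_InB.zpow n
  rwa [mul_one] at this

lemma yz_InB (n : ℤ) : InB SS n.natAbs (ioG ⟨n, 0, 0⟩) := by
  rw [← zpow_y, map_zpow]
  have := y_InB.zpow n
  rwa [mul_one] at this

lemma bb_abs (M : ℕ) (e : Bool) (i : ℕ) : (bb M e i).natAbs ≤ 3 := by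
  unfold bb
  split_ifs <;> decide

lemma Q_InB (M l m : ℕ) : ∃ g : GG, (g : Gam) = Q true (bb M true) l m ∧ InB SS (m * 4) g := by
  induction m with
  | zero => exact ⟨1, rfl, InB.one _⟩
  | succ m ih =>
    obtain ⟨g, hg, hb⟩ := ih
    refine ⟨g * ioG ⟨bb M true (l + m), 0, 0⟩ * tG, ?_, ?_⟩
    · rw [Q_succ, ← hg]; rfl
    · rw [Nat.succ_mul]
      exact ((hb.mul (yz_InB _)).mul t_InB).mono (by have := bb_abs M true (l + m); omega)

lemma KE_InB (M : ℕ) : InB SS (12 * M) (⟨KE M true, KE_mem M true⟩ : GG) := by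
  obtain ⟨g, hg, hb⟩ := Q_InB M 0 (3 * M)
  have : (⟨KE M true, KE_mem M true⟩ : GG) = g := Subtype.ext (by rw [hg]; rfl)
  rw [this]
  exact hb.mono (by omega)

/-- conjugated generators are short -/
lemma conj_letter (M p C : ℕ) (hC1 : 4 * p + 1 ≤ C) (hC2 : 12 * M ≤ C) (s : FP)
    (hs : s ∈ genX SS ∨ s⁻¹ ∈ genX SS) :
    InB SS C (ioG ⟨0, 0, (p : ℤ) ^ 2⟩ * phi M ((p : ℤ) ^ 2) s * (ioG ⟨0, 0, (p : ℤ) ^ 2⟩)⁻¹) := by
  have key : ∀ s ∈ genX SS,
      InB SS C (ioG ⟨0, 0, (p : ℤ) ^ 2⟩ * phi M ((p : ℤ) ^ 2) s * (ioG ⟨0, 0, (p : ℤ) ^ 2⟩)⁻¹) := by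
    rintro s (⟨g, hg, rfl⟩ | hs)
    · rw [phi_inl]
      rcases hg with h | h | h
      · have hgx : g = ioG ⟨0, 0, 1⟩ := Subtype.ext h
        have : ioG ⟨0, 0, (p : ℤ) ^ 2⟩ * g * (ioG ⟨0, 0, (p : ℤ) ^ 2⟩)⁻¹ = ioG ⟨0, 0, 1⟩ := by
          rw [hgx, ← map_inv, ← map_mul, ← map_mul]
          congr 1
          ext <;> simp
        rw [this]
        exact x_InB.mono (by omega)
      · have hgx : g = ioG ⟨1, 0, 0⟩ := Subtype.ext h
        have : ioG ⟨0, 0, (p : ℤ) ^ 2⟩ * g * (ioG ⟨0, 0, (p : ℤ) ^ 2⟩)⁻¹ =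
            ioG ⟨1, 0, 0⟩ * ioG ⟨0, 0, p⟩ * ioG ⟨p, 0, 0⟩ * (ioG ⟨0, 0, p⟩)⁻¹ *
              (ioG ⟨p, 0, 0⟩)⁻¹ := by
          rw [hgx]
          simp only [← map_inv, ← map_mul]
          congr 1
          ext
          · simp
          · simp; ring
          · simp
        rw [this]
        have hp1 := xz_InB (p : ℤ)
        have hp2 := yz_InB (p : ℤ)
        rw [Int.natAbs_natCast] at hp1 hp2
        exact ((((y_InB.mul hp1).mul hp2).mul hp1.inv).mul hp2.inv).mono (by omega)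
      · have hgx : g = tG := Subtype.ext h
        have : ioG ⟨0, 0, (p : ℤ) ^ 2⟩ * g * (ioG ⟨0, 0, (p : ℤ) ^ 2⟩)⁻¹ = tG := by
          rw [hgx]
          apply Subtype.ext
          exact psi_tau ((p : ℤ) ^ 2) true
        rw [this]
        exact t_InB.mono (by omega)
    · rw [Set.mem_singleton_iff] at hs
      have : ioG ⟨0, 0, (p : ℤ) ^ 2⟩ * phi M ((p : ℤ) ^ 2) s * (ioG ⟨0, 0, (p : ℤ) ^ 2⟩)⁻¹ =
          ⟨KE M true, KE_mem M true⟩ := by
        apply Subtype.ext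
        rw [hs]
        exact phi_X M ((p : ℤ) ^ 2) true
      rw [this]
      exact (KE_InB M).mono hC2
  rcases hs with h | h
  · exact key s h
  · have := (key _ h).inv
    rwa [map_inv, _root_.mul_inv_rev, _root_.mul_inv_rev, inv_inv, inv_inv, ← mul_assoc] at this

lemma phi_ball (M p C : ℕ) (hC1 : 4 * p + 1 ≤ C) (hC2 : 12 * M ≤ C) (l : List FP)
    (hl : ∀ s ∈ l, s ∈ genX SS ∨ s⁻¹ ∈ genX SS) :
    InB SS (p ^ 2 + l.length * C + p ^ 2) (phi M ((p : ℤ) ^ 2) l.prod) := by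
  have h1 : InB SS (l.length * C)
      (ioG ⟨0, 0, (p : ℤ) ^ 2⟩ * phi M ((p : ℤ) ^ 2) l.prod * (ioG ⟨0, 0, (p : ℤ) ^ 2⟩)⁻¹) := by
    have h2 := InB.list (S := SS) (m := C)
      (l.map fun s => ioG ⟨0, 0, (p : ℤ) ^ 2⟩ * phi M ((p : ℤ) ^ 2) s *
        (ioG ⟨0, 0, (p : ℤ) ^ 2⟩)⁻¹) (by
          intro s hs
          obtain ⟨a, ha, rfl⟩ := List.mem_map.1 hs
          exact conj_letter M p C hC1 hC2 a (hl a ha))
    rw [List.length_map] at h2
    have h3 : (l.map fun s => ioG ⟨0, 0, (p : ℤ) ^ 2⟩ * phi M ((p : ℤ) ^ 2) s *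
        (ioG ⟨0, 0, (p : ℤ) ^ 2⟩)⁻¹).prod =
        ioG ⟨0, 0, (p : ℤ) ^ 2⟩ * phi M ((p : ℤ) ^ 2) l.prod * (ioG ⟨0, 0, (p : ℤ) ^ 2⟩)⁻¹ := by
      have := ((MulAut.conj (ioG ⟨0, 0, (p : ℤ) ^ 2⟩)).toMonoidHom.comp
        (phi M ((p : ℤ) ^ 2))).map_list_prod l
      exact this.symm
    rwa [h3] at h2
  have hx := xz_InB ((p : ℤ) ^ 2)
  have hab : ((p : ℤ) ^ 2).natAbs = p ^ 2 := by
    rw [Int.natAbs_pow, Int.natAbs_natCast]
  rw [hab] at hx
  have h4 := (hx.inv.mul h1).mul hx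
  have h5 : (ioG ⟨0, 0, (p : ℤ) ^ 2⟩)⁻¹ * (ioG ⟨0, 0, (p : ℤ) ^ 2⟩ * phi M ((p : ℤ) ^ 2) l.prod *
      (ioG ⟨0, 0, (p : ℤ) ^ 2⟩)⁻¹) * ioG ⟨0, 0, (p : ℤ) ^ 2⟩ = phi M ((p : ℤ) ^ 2) l.prod := by
    group
  rwa [h5] at h4

/-- the bound -/
def ff (n : ℕ) : ℕ := 18 * (Nat.sqrt n + 1) ^ 2 + n * (24 * (Nat.sqrt n + 1) + 72)

lemma main_hom (n : ℕ) : ∃ φ : Monoid.Coprod GG (Multiplicative ℤ) →* GG,
    (∀ g : GG, φ (Monoid.Coprod.inl g) = g) ∧ Set.InjOn φ (wordBall (genX SS) n) ∧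
      φ '' wordBall (genX SS) n ⊆ wordBall SS (ff n) := by
  set q := Nat.sqrt n + 1 with hq
  have hqn : n < q ^ 2 := by
    have := Nat.sqrt_lt' (m := n) (n := q)
    rw [← this]
    omega
  set p := 3 * q with hp
  set M := 2 * q + 6 with hM
  have hN : ((2 * q : ℕ) : ℤ) ^ 2 + ((2 * n : ℕ) : ℤ) ≤ (p : ℤ) ^ 2 := by
    have : (2 * q) ^ 2 + 2 * n ≤ p ^ 2 := by rw [hp]; nlinarith
    exact_mod_cast this
  have hq2 : 2 * n < q * (2 * q) := by nlinarith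
  refine ⟨phi M ((p : ℤ) ^ 2), phi_inl M _, ?_, ?_⟩
  · rintro a ⟨l, hl, hln, rfl⟩ b ⟨l', hl', hln', rfl⟩ hab
    have hln1 : l.length ≤ n := by exact_mod_cast hln
    have hln2 : l'.length ≤ n := by exact_mod_cast hln'
    have h1 : ((l.map (·⁻¹)).reverse ++ l').prod = l.prod⁻¹ * l'.prod := by
      rw [List.prod_append, ← List.prod_inv_reverse]
    have h2 : ((l.map (·⁻¹)).reverse ++ l').prod = 1 := by
      refine phi_kernel hN hq2 le_rfl _ ?_ ?_ ?_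
      · intro s hs
        rcases List.mem_append.1 hs with h | h
        · rw [List.mem_reverse, List.mem_map] at h
          obtain ⟨a, ha, rfl⟩ := h
          rw [inv_inv]
          exact (hl a ha).symm
        · exact hl' s h
      · simp only [List.length_append, List.length_reverse, List.length_map]
        omega
      · rw [h1, map_mul, map_inv, hab, inv_mul_cancel]
    rw [h1] at h2
    exact inv_mul_eq_one.1 h2
  · rintro _ ⟨w, ⟨l, hl, hln, rfl⟩, rfl⟩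
    have hln1 : l.length ≤ n := by exact_mod_cast hln
    obtain ⟨l', h1, h2, h3⟩ := (phi_ball M p (12 * M) (by omega) le_rfl l hl).mono
      (n := ff n) (by
        have : l.length * (12 * M) ≤ n * (12 * M) := Nat.mul_le_mul_right _ hln1
        have e1 : ff n = p ^ 2 + n * (12 * M) + p ^ 2 := by
          unfold ff
          rw [← hq, hp, hM]
          ring
        rw [e1]
        omega)
    exact ⟨l', h1, by exact_mod_cast h2, h3⟩

lemma ff_ge (n : ℕ) : 1 ≤ ff n := by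
  unfold ff
  have : 1 ≤ (Nat.sqrt n + 1) ^ 2 := Nat.one_le_pow _ _ (by omega)
  nlinarith [Nat.zero_le (n * (24 * (Nat.sqrt n + 1) + 72))]

lemma ff_le (n : ℕ) (hn : 1 ≤ n) : (ff n : ℝ) ≤ 192 * (n : ℝ) ^ ((3 : ℝ) / 2) := by
  have hn1 : (1 : ℝ) ≤ n := by exact_mod_cast hn
  have hn0 : (0 : ℝ) ≤ n := by linarith
  set s := Real.sqrt n with hs
  have hs1 : 1 ≤ s := by rw [hs]; exact Real.one_le_sqrt.2 hn1
  have hss : s * s = n := Real.mul_self_sqrt hn0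
  have hpow : (n : ℝ) ^ ((3 : ℝ) / 2) = n * s := by
    rw [show (3 : ℝ) / 2 = 1 + 1 / 2 by norm_num, Real.rpow_add (by linarith), Real.rpow_one,
      ← Real.sqrt_eq_rpow]
  have hsq : ((Nat.sqrt n : ℕ) : ℝ) ≤ s := by
    rw [hs]
    exact Real.nat_sqrt_le_real_sqrt
  rw [hpow]
  have e1 : (ff n : ℝ) = 18 * ((Nat.sqrt n : ℝ) + 1) ^ 2 + n * (24 * ((Nat.sqrt n : ℝ) + 1) + 72) := by
    unfold ff; push_cast; ring
  rw [e1]
  have h0 : (0 : ℝ) ≤ (Nat.sqrt n : ℝ) := by positivity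
  have h1 : ((Nat.sqrt n : ℝ) + 1) ^ 2 ≤ 4 * n := by nlinarith
  have h2 : 24 * ((Nat.sqrt n : ℝ) + 1) + 72 ≤ 120 * s := by nlinarith
  have h3 : (n : ℝ) * (24 * ((Nat.sqrt n : ℝ) + 1) + 72) ≤ n * (120 * s) :=
    mul_le_mul_of_nonneg_left h2 hn0
  nlinarith

end Pool.Agent.R707.Selfless
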