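import Pool.Agent.R707.Def

set_option autoImplicit false
set_option linter.unusedSectionVars false

noncomputable section

namespace Pool.Agent.R707

open CategoryTheory Limits Pretriangulated Triangulated

universe v u

variable {C : Type u} [Category.{v} C] [Preadditive C] [HasZeroObject C] [HasShift C ℤ]
  [∀ n : ℤ, (shiftFunctor C n).Additive] [Pretriangulated C]

/-- The direct sum of two triangles. -/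
@[simps!]
def sumTriangle (T₁ T₂ : Triangle C) : Triangle C :=
  Triangle.mk (X := T₁.obj₁ ⊞ T₂.obj₁) (Y := T₁.obj₂ ⊞ T₂.obj₂) (Z := T₁.obj₃ ⊞ T₂.obj₃)
    (biprod.map T₁.mor₁ T₂.mor₁) (biprod.map T₁.mor₂ T₂.mor₂)
    (biprod.desc (T₁.mor₃ ≫ (biprod.inl : T₁.obj₁ ⟶ T₁.obj₁ ⊞ T₂.obj₁)⟦(1 : ℤ)⟧')
      (T₂.mor₃ ≫ (biprod.inr : T₂.obj₁ ⟶ T₁.obj₁ ⊞ T₂.obj₁)⟦(1 : ℤ)⟧'))

lemma sumTriangle_distinguished (T₁ T₂ : Triangle C) (h₁ : T₁ ∈ distTriang C)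
    (h₂ : T₂ ∈ distTriang C) : sumTriangle T₁ T₂ ∈ distTriang C := by
  obtain ⟨Q, p, q, hQ⟩ := distinguished_cocone_triangle (biprod.map T₁.mor₁ T₂.mor₁)
  -- maps from the summands
  obtain ⟨i₁, hi₁, hi₁'⟩ : ∃ i : T₁.obj₃ ⟶ Q, T₁.mor₂ ≫ i = biprod.inl ≫ p ∧
      T₁.mor₃ ≫ (biprod.inl : T₁.obj₁ ⟶ T₁.obj₁ ⊞ T₂.obj₁)⟦(1 : ℤ)⟧' = i ≫ q :=
    complete_distinguished_triangle_morphism _ _ h₁ hQ biprod.inl biprod.inl (by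
      change T₁.mor₁ ≫ biprod.inl = biprod.inl ≫ biprod.map T₁.mor₁ T₂.mor₁
      simp)
  obtain ⟨i₂, hi₂, hi₂'⟩ : ∃ i : T₂.obj₃ ⟶ Q, T₂.mor₂ ≫ i = biprod.inr ≫ p ∧
      T₂.mor₃ ≫ (biprod.inr : T₂.obj₁ ⟶ T₁.obj₁ ⊞ T₂.obj₁)⟦(1 : ℤ)⟧' = i ≫ q :=
    complete_distinguished_triangle_morphism _ _ h₂ hQ biprod.inr biprod.inr (by
      change T₂.mor₁ ≫ biprod.inr = biprod.inr ≫ biprod.map T₁.mor₁ T₂.mor₁
      simp)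
  have hpq : p ≫ q = 0 := comp_distTriang_mor_zero₂₃ _ hQ
  have hq : q ≫ (biprod.map T₁.mor₁ T₂.mor₁)⟦(1 : ℤ)⟧' = 0 := comp_distTriang_mor_zero₃₁ _ hQ
  have hll : (biprod.inl : T₁.obj₁ ⟶ T₁.obj₁ ⊞ T₂.obj₁)⟦(1 : ℤ)⟧' ≫
      (biprod.fst : T₁.obj₁ ⊞ T₂.obj₁ ⟶ T₁.obj₁)⟦(1 : ℤ)⟧' = 𝟙 _ := by
    rw [← Functor.map_comp, biprod.inl_fst, CategoryTheory.Functor.map_id]
  have hlr : (biprod.inl : T₁.obj₁ ⟶ T₁.obj₁ ⊞ T₂.obj₁)⟦(1 : ℤ)⟧' ≫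
      (biprod.snd : T₁.obj₁ ⊞ T₂.obj₁ ⟶ T₂.obj₁)⟦(1 : ℤ)⟧' = 0 := by
    rw [← Functor.map_comp, biprod.inl_snd, Functor.map_zero]
  have hrl : (biprod.inr : T₂.obj₁ ⟶ T₁.obj₁ ⊞ T₂.obj₁)⟦(1 : ℤ)⟧' ≫
      (biprod.fst : T₁.obj₁ ⊞ T₂.obj₁ ⟶ T₁.obj₁)⟦(1 : ℤ)⟧' = 0 := by
    rw [← Functor.map_comp, biprod.inr_fst, Functor.map_zero]
  have hrr : (biprod.inr : T₂.obj₁ ⟶ T₁.obj₁ ⊞ T₂.obj₁)⟦(1 : ℤ)⟧' ≫
      (biprod.snd : T₁.obj₁ ⊞ T₂.obj₁ ⟶ T₂.obj₁)⟦(1 : ℤ)⟧' = 𝟙 _ := by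
    rw [← Functor.map_comp, biprod.inr_snd, CategoryTheory.Functor.map_id]
  have htot : (biprod.fst : T₁.obj₁ ⊞ T₂.obj₁ ⟶ T₁.obj₁)⟦(1 : ℤ)⟧' ≫
      (biprod.inl : T₁.obj₁ ⟶ T₁.obj₁ ⊞ T₂.obj₁)⟦(1 : ℤ)⟧' +
      (biprod.snd : T₁.obj₁ ⊞ T₂.obj₁ ⟶ T₂.obj₁)⟦(1 : ℤ)⟧' ≫
      (biprod.inr : T₂.obj₁ ⟶ T₁.obj₁ ⊞ T₂.obj₁)⟦(1 : ℤ)⟧' = 𝟙 _ := by
    rw [← Functor.map_comp, ← Functor.map_comp, ← Functor.map_add, biprod.total,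
      CategoryTheory.Functor.map_id]
  let θ : T₁.obj₃ ⊞ T₂.obj₃ ⟶ Q := biprod.desc i₁ i₂
  have hmono : Mono θ := by
    rw [Preadditive.mono_iff_cancel_zero]
    intro A t ht
    have ht' : t ≫ biprod.fst ≫ i₁ + t ≫ biprod.snd ≫ i₂ = 0 := by
      rw [← Preadditive.comp_add, ← ht]
      congr 1
      ext <;> simp [θ]
    have e1 : (t ≫ biprod.fst) ≫ T₁.mor₃ = 0 := by
      have := congrArg (fun r => r ≫ q ≫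
        (biprod.fst : T₁.obj₁ ⊞ T₂.obj₁ ⟶ T₁.obj₁)⟦(1 : ℤ)⟧') ht'
      simp only [Preadditive.add_comp, Category.assoc, zero_comp] at this
      rw [← reassoc_of% hi₁', ← reassoc_of% hi₂', hll, hrl, comp_zero, comp_zero, comp_zero,
        add_zero, Category.comp_id] at this
      rw [Category.assoc, this]
    have e2 : (t ≫ biprod.snd) ≫ T₂.mor₃ = 0 := by
      have := congrArg (fun r => r ≫ q ≫
        (biprod.snd : T₁.obj₁ ⊞ T₂.obj₁ ⟶ T₂.obj₁)⟦(1 : ℤ)⟧') ht'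
      simp only [Preadditive.add_comp, Category.assoc, zero_comp] at this
      rw [← reassoc_of% hi₁', ← reassoc_of% hi₂', hlr, hrr, comp_zero, comp_zero, comp_zero,
        zero_add, Category.comp_id] at this
      rw [Category.assoc, this]
    obtain ⟨s₁, hs₁⟩ := Triangle.coyoneda_exact₃ _ h₁ _ e1
    obtain ⟨s₂, hs₂⟩ := Triangle.coyoneda_exact₃ _ h₂ _ e2
    have e3 : (s₁ ≫ biprod.inl + s₂ ≫ biprod.inr) ≫ p = 0 := by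
      rw [← ht', ← Category.assoc t, hs₁, ← Category.assoc t, hs₂, Preadditive.add_comp,
        Category.assoc, Category.assoc, Category.assoc, Category.assoc, hi₁, hi₂]
    obtain ⟨r, hr⟩ : ∃ r : A ⟶ T₁.obj₁ ⊞ T₂.obj₁, s₁ ≫ biprod.inl + s₂ ≫ biprod.inr =
        r ≫ biprod.map T₁.mor₁ T₂.mor₁ := Triangle.coyoneda_exact₂ _ hQ _ e3
    have e4 : s₁ = (r ≫ biprod.fst) ≫ T₁.mor₁ := by
      have := congrArg (fun t => t ≫ biprod.fst) hr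
      simpa using this
    have e5 : s₂ = (r ≫ biprod.snd) ≫ T₂.mor₁ := by
      have := congrArg (fun t => t ≫ biprod.snd) hr
      simpa using this
    apply biprod.hom_ext
    · rw [hs₁, e4, Category.assoc, comp_distTriang_mor_zero₁₂ _ h₁, comp_zero, zero_comp]
    · rw [hs₂, e5, Category.assoc, comp_distTriang_mor_zero₁₂ _ h₂, comp_zero, zero_comp]
  have hepi : Epi θ := by
    rw [Preadditive.epi_iff_cancel_zero]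
    intro A t ht
    have t1 : i₁ ≫ t = 0 := by
      have := congrArg (fun r => biprod.inl ≫ r) ht
      simpa [θ] using this
    have t2 : i₂ ≫ t = 0 := by
      have := congrArg (fun r => biprod.inr ≫ r) ht
      simpa [θ] using this
    have hp : p ≫ t = 0 := by
      apply biprod.hom_ext'
      · rw [← reassoc_of% hi₁, t1, comp_zero, comp_zero]
      · rw [← reassoc_of% hi₂, t2, comp_zero, comp_zero]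
    obtain ⟨m, hm⟩ : ∃ m : (T₁.obj₁ ⊞ T₂.obj₁)⟦(1 : ℤ)⟧ ⟶ A, t = q ≫ m :=
      Triangle.yoneda_exact₃ _ hQ t hp
    obtain ⟨m₁, hm₁⟩ : ∃ m₁ : T₁.obj₂⟦(1 : ℤ)⟧ ⟶ A,
        (biprod.inl : T₁.obj₁ ⟶ T₁.obj₁ ⊞ T₂.obj₁)⟦(1 : ℤ)⟧' ≫ m = (-T₁.mor₁⟦(1 : ℤ)⟧') ≫ m₁ :=
      Triangle.yoneda_exact₃ _ (rot_of_distTriang _ h₁) _ (by
        change T₁.mor₃ ≫ _ = 0
        rw [reassoc_of% hi₁', ← hm, t1])
    obtain ⟨m₂, hm₂⟩ : ∃ m₂ : T₂.obj₂⟦(1 : ℤ)⟧ ⟶ A,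
        (biprod.inr : T₂.obj₁ ⟶ T₁.obj₁ ⊞ T₂.obj₁)⟦(1 : ℤ)⟧' ≫ m = (-T₂.mor₁⟦(1 : ℤ)⟧') ≫ m₂ :=
      Triangle.yoneda_exact₃ _ (rot_of_distTriang _ h₂) _ (by
        change T₂.mor₃ ≫ _ = 0
        rw [reassoc_of% hi₂', ← hm, t2])
    have hq1 : q ≫ (biprod.fst : T₁.obj₁ ⊞ T₂.obj₁ ⟶ T₁.obj₁)⟦(1 : ℤ)⟧' ≫ T₁.mor₁⟦(1 : ℤ)⟧' = 0 := by
      rw [← Functor.map_comp, ← biprod.map_fst, Functor.map_comp, reassoc_of% hq, zero_comp]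
    have hq2 : q ≫ (biprod.snd : T₁.obj₁ ⊞ T₂.obj₁ ⟶ T₂.obj₁)⟦(1 : ℤ)⟧' ≫ T₂.mor₁⟦(1 : ℤ)⟧' = 0 := by
      rw [← Functor.map_comp, ← biprod.map_snd, Functor.map_comp, reassoc_of% hq, zero_comp]
    rw [hm, ← Category.id_comp m, ← htot, Preadditive.add_comp, Category.assoc, Category.assoc,
      hm₁, hm₂, Preadditive.comp_add, Preadditive.neg_comp, Preadditive.neg_comp]
    simp only [Preadditive.comp_neg]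
    rw [reassoc_of% hq1, reassoc_of% hq2, zero_comp, zero_comp, neg_zero, add_zero]
  have : IsSplitMono θ := isSplitMono_of_mono θ
  have : IsIso θ := isIso_of_epi_of_isSplitMono θ
  let e : T₁.obj₃ ⊞ T₂.obj₃ ≅ Q := asIso θ
  refine isomorphic_distinguished _ hQ _ (Triangle.isoMk _ _ (Iso.refl _) (Iso.refl _)
    e ?_ ?_ ?_)
  · change biprod.map T₁.mor₁ T₂.mor₁ ≫ 𝟙 _ = 𝟙 _ ≫ biprod.map T₁.mor₁ T₂.mor₁
    simp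
  · change biprod.map T₁.mor₂ T₂.mor₂ ≫ θ = 𝟙 _ ≫ p
    apply biprod.hom_ext' <;> simp [θ, hi₁, hi₂]
  · change (biprod.desc _ _) ≫ (𝟙 _)⟦(1 : ℤ)⟧' = θ ≫ q
    apply biprod.hom_ext' <;> simp [θ, hi₁', hi₂']

end Pool.Agent.R707
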